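import Pool.Agent.Helper89.RevLower

/-!
# Product lengths for reversible formal maps in several variables

For every `n ≥ 2`: `2 ≤ m(n) ≤ 3` and `4 ≤ k(n) ≤ 6`.

`FormalMap n` (file `RevGroup`) is the monoid, under formal composition, of `n`-tuples of formal
power series in `n` variables over `ℂ` with zero constant terms.
-/

namespace Pool.Agent.Results.MP_2a1f98_al.ProductLengths

open Pool.Helper89.Rev

/-- The group `𝒢_n` of formally invertible formal maps of `(ℂⁿ, 0)` under formal composition. -/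
abbrev G (n : ℕ) : Type := (FormalMap n)ˣ

/-- The set `I` of involutions (the identity included). -/
def Inv (n : ℕ) : Set (G n) := {f | f * f = 1}

/-- The set `R` of reversible elements. -/
def Rev (n : ℕ) : Set (G n) := {f | ∃ h : G n, h * f * h⁻¹ = f⁻¹}

/-- `S^j`: the set of compositions `s_1 ∘ ⋯ ∘ s_j` with all `s_i ∈ S`. -/
def Pow {n : ℕ} (S : Set (G n)) (j : ℕ) : Set (G n) :=
  {f | ∃ s : Fin j → G n, (∀ i, s i ∈ S) ∧ f = (List.ofFn s).prod}

/-- `R^∞`, the union of the `R^m`, `m ≥ 1`. -/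
def RevInf (n : ℕ) : Set (G n) := {f | ∃ m, 1 ≤ m ∧ f ∈ Pow (Rev n) m}

/-- `k(n)`: the least `k ≥ 1` with `I^k = R^∞`. -/
noncomputable def kMin (n : ℕ) : ℕ := sInf {k | 1 ≤ k ∧ Pow (Inv n) k = RevInf n}

/-- `m(n)`: the least `m ≥ 1` with `R^m = R^∞`. -/
noncomputable def mMin (n : ℕ) : ℕ := sInf {m | 1 ≤ m ∧ Pow (Rev n) m = RevInf n}

variable {n : ℕ}

lemma inv_mul_inv_mem_rev {a b : G n} (ha : a ∈ Inv n) (hb : b ∈ Inv n) : a * b ∈ Rev n := by
  have ha' : a * a = 1 := ha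
  have hb' : b * b = 1 := hb
  refine ⟨a, ?_⟩
  have ia : a⁻¹ = a := inv_eq_of_mul_eq_one_left ha'
  have ib : b⁻¹ = b := inv_eq_of_mul_eq_one_left hb'
  rw [mul_inv_rev, ib, ia, ← mul_assoc, ha', one_mul]

lemma inv_subset_rev : Inv n ⊆ Rev n := by
  intro a ha
  have h : a * 1 ∈ Rev n := inv_mul_inv_mem_rev ha (by
    change (1 : G n) * 1 = 1
    rw [one_mul])
  rwa [mul_one] at h

/-- the determinant of the linear part, as a homomorphism -/
noncomputable def detHom (n : ℕ) : G n →* ℂ :=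
  (Matrix.detMonoidHom.comp linHom).comp (Units.coeHom (FormalMap n))

lemma detHom_apply (f : G n) : detHom n f = (linPart (f : FormalMap n)).det := rfl

lemma detHom_rev {f : G n} (hf : f ∈ Rev n) : detHom n f * detHom n f = 1 := by
  obtain ⟨h, hh⟩ := hf
  have h1 := congrArg (detHom n) hh
  rw [map_mul, map_mul] at h1
  have h2 : detHom n h * detHom n h⁻¹ = 1 := by rw [← map_mul, mul_inv_cancel, map_one]
  have h3 : detHom n f⁻¹ * detHom n f = 1 := by rw [← map_mul, inv_mul_cancel, map_one]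
  have h4 : detHom n f = detHom n f⁻¹ := by
    rw [← h1]
    calc detHom n f = detHom n f * (detHom n h * detHom n h⁻¹) := by rw [h2, mul_one]
      _ = _ := by ring
  calc detHom n f * detHom n f = detHom n f⁻¹ * detHom n f := by rw [← h4]
    _ = 1 := h3

lemma detHom_revInf {f : G n} (hf : f ∈ RevInf n) : detHom n f * detHom n f = 1 := by
  obtain ⟨m, -, s, hs, rfl⟩ := hf
  have key : ∀ l : List (G n), (∀ a ∈ l, a ∈ Rev n) →
      detHom n l.prod * detHom n l.prod = 1 := by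
    intro l
    induction l with
    | nil => intro _; simp
    | cons a l ih =>
      intro h
      rw [List.prod_cons, map_mul]
      have h1 := detHom_rev (h a (List.mem_cons_self))
      have h2 := ih (fun b hb => h b (List.mem_cons_of_mem _ hb))
      calc detHom n a * detHom n l.prod * (detHom n a * detHom n l.prod) =
          (detHom n a * detHom n a) * (detHom n l.prod * detHom n l.prod) := by ring
        _ = 1 := by rw [h1, h2, one_mul]
  apply key
  intro a ha
  rw [List.mem_ofFn] at ha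
  obtain ⟨i, rfl⟩ := ha
  exact hs i

/-- the main upper bound -/
lemma six_involutions (hn : 2 ≤ n) (F : G n) (hF : detHom n F * detHom n F = 1) :
    ∃ a1 a2 a3 a4 a5 a6 : G n, a1 ∈ Inv n ∧ a2 ∈ Inv n ∧ a3 ∈ Inv n ∧ a4 ∈ Inv n ∧ a5 ∈ Inv n ∧
      a6 ∈ Inv n ∧ F = a1 * a2 * a3 * a4 * a5 * a6 := by
  obtain ⟨t1, t2, t3, h1, h2, h3, hsolve, hfac⟩ := linear_package hn
  obtain ⟨g, g', s1, s2, s3, hg, hg', q1, q2, q3, hL⟩ := hfac (linPart (F : FormalMap n)) hF
  set g0 : G n := unitOf g g' hg hg' with hg0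
  set S1 : G n := unitOf s1 s1 q1 q1 with hS1
  set S2 : G n := unitOf s2 s2 q2 q2 with hS2
  set S3 : G n := unitOf s3 s3 q3 q3 with hS3
  have sq : ∀ (s : Matrix (Fin n) (Fin n) ℂ) (q : s * s = 1),
      unitOf s s q q * unitOf s s q q = 1 := by
    intro s q
    apply Units.ext
    change ofMatrix s * ofMatrix s = 1
    rw [← ofMatrix_mul, q, ofMatrix_one]
  have Q1 : S1 * S1 = 1 := sq s1 q1
  have Q2 : S2 * S2 = 1 := sq s2 q2
  have Q3 : S3 * S3 = 1 := sq s3 q3
  obtain ⟨b1, b2, b3, B1, B2, B3, hB⟩ := three_involutions ![t1, t2, t3]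
    (by intro j; fin_cases j <;> assumption) hsolve (g0⁻¹ * F * (S3 * S2 * S1) * g0) (by
      have e1 : linPart ((g0⁻¹ : G n) : FormalMap n) = g' := linPart_ofMatrix g'
      have e2 : linPart (g0 : FormalMap n) = g := linPart_ofMatrix g
      have e3 : linPart (S1 : FormalMap n) = s1 := linPart_ofMatrix s1
      have e4 : linPart (S2 : FormalMap n) = s2 := linPart_ofMatrix s2
      have e5 : linPart (S3 : FormalMap n) = s3 := linPart_ofMatrix s3
      simp only [Units.val_mul, linPart_mul, e1, e2, e3, e4, e5]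
      rw [hL]
      change _ = t1 * t2 * t3
      calc g' * (g * (t1 * t2 * t3) * g' * (s1 * s2 * s3)) * (s3 * s2 * s1) * g =
          (g' * g) * (t1 * t2 * t3) * (g' * (s1 * (s2 * ((s3 * s3) * (s2 * s1))) * g)) := by
            simp only [Matrix.mul_assoc]
        _ = t1 * t2 * t3 * (g' * (s1 * ((s2 * s2) * s1) * g)) := by
            rw [hg', q3, Matrix.one_mul, Matrix.one_mul, ← Matrix.mul_assoc s2 s2]
        _ = t1 * t2 * t3 := by
            rw [q2, Matrix.one_mul, q1, Matrix.one_mul, hg', Matrix.mul_one])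
  have hconj : ∀ b : G n, b * b = 1 → g0 * b * g0⁻¹ ∈ Inv n := by
    intro b hb
    change (g0 * b * g0⁻¹) * (g0 * b * g0⁻¹) = 1
    calc (g0 * b * g0⁻¹) * (g0 * b * g0⁻¹) = g0 * (b * b) * g0⁻¹ := by group
      _ = 1 := by rw [hb, mul_one, mul_inv_cancel]
  refine ⟨g0 * b1 * g0⁻¹, g0 * b2 * g0⁻¹, g0 * b3 * g0⁻¹, S1, S2, S3, hconj b1 B1, hconj b2 B2,
    hconj b3 B3, Q1, Q2, Q3, ?_⟩
  have i1 : S1⁻¹ = S1 := inv_eq_of_mul_eq_one_left Q1
  have i2 : S2⁻¹ = S2 := inv_eq_of_mul_eq_one_left Q2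
  have i3 : S3⁻¹ = S3 := inv_eq_of_mul_eq_one_left Q3
  calc F = g0 * (g0⁻¹ * F * (S3 * S2 * S1) * g0) * g0⁻¹ * (S1⁻¹ * S2⁻¹ * S3⁻¹) := by group
    _ = g0 * (b1 * b2 * b3) * g0⁻¹ * (S1 * S2 * S3) := by rw [hB, i1, i2, i3]
    _ = _ := by group

lemma revInf_eq (hn : 2 ≤ n) : RevInf n = {f | detHom n f * detHom n f = 1} := by
  ext f
  constructor
  · intro hf
    exact detHom_revInf hf
  · intro hf
    obtain ⟨a1, a2, a3, a4, a5, a6, h1, h2, h3, h4, h5, h6, rfl⟩ := six_involutions hn f hf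
    refine ⟨3, by norm_num, ![a1 * a2, a3 * a4, a5 * a6], ?_, ?_⟩
    · intro i
      fin_cases i
      · exact inv_mul_inv_mem_rev h1 h2
      · exact inv_mul_inv_mem_rev h3 h4
      · exact inv_mul_inv_mem_rev h5 h6
    · simp [List.ofFn_succ, mul_assoc]

lemma pow_rev_three (hn : 2 ≤ n) : Pow (Rev n) 3 = RevInf n := by
  apply Set.Subset.antisymm
  · intro f hf
    exact ⟨3, by norm_num, hf⟩
  · rw [revInf_eq hn]
    intro f hf
    obtain ⟨a1, a2, a3, a4, a5, a6, h1, h2, h3, h4, h5, h6, rfl⟩ := six_involutions hn f hf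
    refine ⟨![a1 * a2, a3 * a4, a5 * a6], ?_, ?_⟩
    · intro i
      fin_cases i
      · exact inv_mul_inv_mem_rev h1 h2
      · exact inv_mul_inv_mem_rev h3 h4
      · exact inv_mul_inv_mem_rev h5 h6
    · simp [List.ofFn_succ, mul_assoc]

lemma pow_inv_subset {k : ℕ} (hk : 1 ≤ k) : Pow (Inv n) k ⊆ RevInf n := by
  rintro f ⟨s, hs, rfl⟩
  exact ⟨k, hk, s, fun i => inv_subset_rev (hs i), rfl⟩

lemma pow_inv_six (hn : 2 ≤ n) : Pow (Inv n) 6 = RevInf n := by
  apply Set.Subset.antisymm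
  · exact pow_inv_subset (by norm_num)
  · rw [revInf_eq hn]
    intro f hf
    obtain ⟨a1, a2, a3, a4, a5, a6, h1, h2, h3, h4, h5, h6, rfl⟩ := six_involutions hn f hf
    refine ⟨![a1, a2, a3, a4, a5, a6], ?_, ?_⟩
    · intro i
      fin_cases i <;> assumption
    · simp [List.ofFn_succ, mul_assoc]

/-- a diagonal matrix of determinant `-1` not similar to its inverse -/
lemma pow_rev_one_ne (hn : 2 ≤ n) : Pow (Rev n) 1 ≠ RevInf n := by
  intro h
  have h0 : 0 < n := by omega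
  have h1 : 1 < n := by omega
  set i0 : Fin n := ⟨0, h0⟩ with hi0
  set i1 : Fin n := ⟨1, h1⟩ with hi1
  have h01 : i0 ≠ i1 := by
    intro h
    have := congrArg Fin.val h
    simp [hi0, hi1] at this
  set δ : Fin n → ℂ := fun i => if i = i0 then 2 else if i = i1 then -1 / 2 else 1 with hδ
  have δ0 : δ i0 = 2 := by simp [hδ]
  have δ1 : δ i1 = -1 / 2 := by simp [hδ, h01.symm]
  have δo : ∀ i, i ≠ i0 ∧ i ≠ i1 → δ i = 1 := by
    rintro i ⟨a, b⟩
    simp [hδ, a, b]
  have δne : ∀ i, δ i ≠ 0 := by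
    intro i
    simp only [hδ]
    split_ifs <;> norm_num
  set D := Matrix.diagonal δ with hD
  set D' := Matrix.diagonal (fun i => (δ i)⁻¹) with hD'
  have hDD' : D * D' = 1 := by
    rw [hD, hD', Matrix.diagonal_mul_diagonal, ← Matrix.diagonal_one]
    congr 1
    funext i
    exact mul_inv_cancel₀ (δne i)
  have hD'D : D' * D = 1 := by
    rw [hD, hD', Matrix.diagonal_mul_diagonal, ← Matrix.diagonal_one]
    congr 1
    funext i
    exact inv_mul_cancel₀ (δne i)
  set f : G n := unitOf D D' hDD' hD'D with hf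
  have hlin : linPart (f : FormalMap n) = D := linPart_ofMatrix D
  have hlin' : linPart ((f⁻¹ : G n) : FormalMap n) = D' := linPart_ofMatrix D'
  have hdet : D.det = -1 := by
    rw [hD, Matrix.det_diagonal, Finset.prod_eq_mul i0 i1 h01 (fun i _ hi => δo i hi)
      (fun h => absurd (Finset.mem_univ _) h) (fun h => absurd (Finset.mem_univ _) h), δ0, δ1]
    norm_num
  have hmem : f ∈ RevInf n := by
    rw [revInf_eq hn]
    change detHom n f * detHom n f = 1
    rw [detHom_apply, hlin, hdet]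
    norm_num
  rw [← h] at hmem
  obtain ⟨s, hs, hfs⟩ := hmem
  have hfr : f ∈ Rev n := by
    rw [hfs]
    simpa [List.ofFn_succ] using hs 0
  obtain ⟨g, hg⟩ := hfr
  have h2 := congrArg (fun u : G n => linPart (u : FormalMap n)) hg
  simp only [Units.val_mul, linPart_mul] at h2
  rw [hlin, hlin'] at h2
  have h3 : D'.trace = D.trace := by
    rw [← h2, Matrix.trace_mul_comm, ← Matrix.mul_assoc, linPart_inv_mul, Matrix.one_mul]
  rw [hD, hD', Matrix.trace_diagonal, Matrix.trace_diagonal, ← sub_eq_zero,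
    ← Finset.sum_sub_distrib, Finset.sum_eq_add i0 i1 h01 (fun i _ hi => by
      rw [δo i hi]; norm_num) (fun h => absurd (Finset.mem_univ _) h)
      (fun h => absurd (Finset.mem_univ _) h), δ0, δ1] at h3
  norm_num at h3

lemma pow_inv_three_ne (hn : 2 ≤ n) : Pow (Inv n) 3 ≠ RevInf n := by
  intro h
  have h0 : 0 < n := by omega
  set i0 : Fin n := ⟨0, h0⟩ with hi0
  obtain ⟨F, hF, hgr⟩ := exists_gr (d := 3) (by norm_num) (cubic_hom i0)
  have hmem : F ∈ RevInf n := by
    rw [revInf_eq hn]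
    change detHom n F * detHom n F = 1
    rw [detHom_apply, linPart_of_mem_K (K_mono (by norm_num) hF), Matrix.det_one, one_mul]
  rw [← h] at hmem
  obtain ⟨s, hs, hfs⟩ := hmem
  apply not_three_involutions i0 F hF hgr (s 0) (s 1) (s 2) (hs 0) (hs 1) (hs 2)
  rw [hfs]
  simp [List.ofFn_succ, mul_assoc]

lemma one_mem_inv : (1 : G n) ∈ Inv n := by
  change (1 : G n) * 1 = 1
  rw [one_mul]

lemma one_mem_rev : (1 : G n) ∈ Rev n := inv_subset_rev one_mem_inv

lemma pow_mono {S : Set (G n)} (hS : (1 : G n) ∈ S) {j k : ℕ} (hjk : j ≤ k) :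
    Pow S j ⊆ Pow S k := by
  induction k, hjk using Nat.le_induction with
  | base => exact Set.Subset.refl _
  | succ k _ ih =>
    intro f hf
    obtain ⟨s, hs, rfl⟩ := ih hf
    refine ⟨Fin.cons 1 s, ?_, ?_⟩
    · intro i
      refine Fin.cases ?_ (fun i => ?_) i
      · exact hS
      · exact hs i
    · rw [List.ofFn_succ]
      simp

/-- **Main theorem.** For every `n ≥ 2`: the units of `FormalMap n` are the tuples with invertible
linear part; `R^∞` is the set of formal maps whose linear part has determinant `±1`;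
`R^3 = R^∞ = I^6`; and `2 ≤ m(n) ≤ 3`, `4 ≤ k(n) ≤ 6`. -/
theorem result : ∀ n : ℕ, 2 ≤ n →
    (∀ f : FormalMap n, IsUnit f ↔ (linPart f).det ≠ 0) ∧
    RevInf n = {f : G n | (linPart (f : FormalMap n)).det = 1 ∨
      (linPart (f : FormalMap n)).det = -1} ∧
    Pow (Rev n) 3 = RevInf n ∧ Pow (Inv n) 6 = RevInf n ∧
    (2 ≤ mMin n ∧ mMin n ≤ 3) ∧ (4 ≤ kMin n ∧ kMin n ≤ 6) := by
  intro n hn
  refine ⟨isUnit_iff, ?_, pow_rev_three hn, pow_inv_six hn, ⟨?_, ?_⟩, ⟨?_, ?_⟩⟩
  · rw [revInf_eq hn]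
    ext f
    change detHom n f * detHom n f = 1 ↔ _
    rw [detHom_apply, mul_self_eq_one_iff]
    rfl
  · have hne : {m | 1 ≤ m ∧ Pow (Rev n) m = RevInf n}.Nonempty := ⟨3, by norm_num, pow_rev_three hn⟩
    have h1 := Nat.sInf_mem hne
    by_contra hcon
    have h2 : mMin n = 1 := by
      have h3 : 1 ≤ mMin n := h1.1
      omega
    apply pow_rev_one_ne hn
    rw [← h2]
    exact h1.2
  · exact Nat.sInf_le ⟨by norm_num, pow_rev_three hn⟩
  · have hne : {k | 1 ≤ k ∧ Pow (Inv n) k = RevInf n}.Nonempty := ⟨6, by norm_num, pow_inv_six hn⟩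
    have h1 := Nat.sInf_mem hne
    by_contra hcon
    have h2 : kMin n ≤ 3 := by omega
    apply pow_inv_three_ne hn
    apply Set.Subset.antisymm (pow_inv_subset (by norm_num))
    rw [← h1.2]
    exact pow_mono one_mem_inv h2
  · exact Nat.sInf_le ⟨by norm_num, pow_inv_six hn⟩

end Pool.Agent.Results.MP_2a1f98_al.ProductLengths
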