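import Mathlib

set_option autoImplicit false
set_option linter.all false

open scoped Pointwise

namespace Pool.Agent.Results.MP_2a1f98_al.ThreeReversibles


namespace RevMaps

abbrev PS (n : ℕ) := MvPowerSeries (Fin n) ℂ

/-- series of order at least `k` -/
def J (n k : ℕ) : Ideal (PS n) where
  carrier := {a | ∀ m : Fin n →₀ ℕ, m.degree < k → MvPowerSeries.coeff m a = 0}
  zero_mem' := by intro m _; simp
  add_mem' := by
    intro a b ha hb m hm
    rw [map_add, ha m hm, hb m hm, add_zero]
  smul_mem' := by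
    intro a b hb m hm
    rw [smul_eq_mul, MvPowerSeries.coeff_mul]
    apply Finset.sum_eq_zero
    rintro ⟨p, q⟩ hpq
    rw [Finset.HasAntidiagonal.mem_antidiagonal] at hpq
    simp only at hpq
    have hq : q.degree < k := by
      have : m.degree = p.degree + q.degree := by rw [← hpq, map_add]
      omega
    rw [hb q hq, mul_zero]

theorem mem_J {n k : ℕ} {a : PS n} :
    a ∈ J n k ↔ ∀ m : Fin n →₀ ℕ, m.degree < k → MvPowerSeries.coeff m a = 0 := Iff.rfl

theorem mem_J_order {n k : ℕ} {a : PS n} : a ∈ J n k ↔ (k : ℕ∞) ≤ a.order := by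
  rw [mem_J]
  constructor
  · intro h
    exact MvPowerSeries.nat_le_order h
  · intro h m hm
    apply MvPowerSeries.coeff_of_lt_order
    exact lt_of_lt_of_le (by exact_mod_cast hm) h

theorem J_mul {n k l : ℕ} {a b : PS n} (ha : a ∈ J n k) (hb : b ∈ J n l) :
    a * b ∈ J n (k + l) := by
  rw [mem_J_order] at *
  push_cast
  exact (add_le_add ha hb).trans MvPowerSeries.le_order_mul

theorem J_mono {n k l : ℕ} (h : l ≤ k) : J n k ≤ J n l := fun _ ha m hm => ha m (by omega)

theorem J_bot {n : ℕ} {a : PS n} (h : ∀ k, a ∈ J n k) : a = 0 := by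
  ext m
  rw [h (m.degree + 1) m (by omega)]
  simp

theorem J_zero {n : ℕ} (a : PS n) : a ∈ J n 0 := fun m hm => absurd hm (Nat.not_lt_zero _)

theorem J_smul {n k : ℕ} (c : ℂ) {a : PS n} (ha : a ∈ J n k) : c • a ∈ J n k := by
  intro m hm
  rw [MvPowerSeries.coeff_smul, ha m hm, mul_zero]

theorem hasSubst_of {n : ℕ} {K : Fin n → PS n} (hK : ∀ i, K i ∈ J n 1) :
    MvPowerSeries.HasSubst K := by
  apply MvPowerSeries.hasSubst_of_constantCoeff_zero
  intro i
  have := hK i 0 (by simp)
  simpa using this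

theorem subst_J {n : ℕ} {K : Fin n → PS n} (hK : ∀ i, K i ∈ J n 1) {k : ℕ} {a : PS n}
    (ha : a ∈ J n k) : MvPowerSeries.subst K a ∈ J n k := by
  rw [mem_J_order] at *
  refine le_trans ?_ (MvPowerSeries.le_order_subst (hasSubst_of hK) a)
  have h1 : (1 : ℕ∞) ≤ ⨅ i, (K i).order := by
    apply le_iInf
    intro i
    have := mem_J_order.mp (hK i)
    exact_mod_cast this
  calc (k : ℕ∞) = 1 * k := by rw [one_mul]
    _ ≤ _ := mul_le_mul' h1 ha

/-- truncation -/
theorem exists_poly {n : ℕ} (k : ℕ) (a : PS n) :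
    ∃ p : MvPolynomial (Fin n) ℂ, a - (p : PS n) ∈ J n k := by
  refine ⟨MvPowerSeries.truncTotal k a, ?_⟩
  intro m hm
  rw [map_sub, MvPolynomial.coeff_coe, MvPowerSeries.coeff_truncTotal _ hm, sub_self]

/-- filtered algebra endomorphisms -/
def Filt {n : ℕ} (W : PS n →ₐ[ℂ] PS n) : Prop := ∀ k, ∀ a ∈ J n k, W a ∈ J n k

theorem monomial_J {n : ℕ} (α : Fin n →₀ ℕ) :
    (MvPowerSeries.monomial α (1 : ℂ) : PS n) ∈ J n α.degree := by
  classical
  intro m hm
  rw [MvPowerSeries.coeff_monomial, if_neg]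
  rintro rfl
  exact lt_irrefl _ hm

theorem monomial_add_mul {n : ℕ} (α β : Fin n →₀ ℕ) :
    (MvPowerSeries.monomial (α + β) (1 : ℂ) : PS n) =
      MvPowerSeries.monomial α 1 * MvPowerSeries.monomial β 1 := by
  rw [MvPowerSeries.monomial_mul_monomial, mul_one]

theorem poly_sum {n : ℕ} (p : MvPolynomial (Fin n) ℂ) :
    (p : PS n) = ∑ m ∈ p.support, (p.coeff m) • MvPowerSeries.monomial m (1 : ℂ) := by
  classical
  ext m
  rw [MvPolynomial.coeff_coe, map_sum]
  simp only [MvPowerSeries.coeff_smul, MvPowerSeries.coeff_monomial, mul_ite, mul_one, mul_zero]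
  rw [Finset.sum_ite_eq]
  by_cases hm : m ∈ p.support
  · rw [if_pos hm]
  · rw [if_neg hm, MvPolynomial.notMem_support_iff.mp hm]

/-- Two filtered homomorphisms that agree modulo `J (1+d)` on the variables differ by
`J (j+d)` on `J j`. -/
theorem near {n : ℕ} (φ ψ : PS n →ₐ[ℂ] PS n) (hφ : Filt φ) (hψ : Filt ψ) (d : ℕ)
    (h : ∀ i, φ (MvPowerSeries.X i) - ψ (MvPowerSeries.X i) ∈ J n (1 + d)) (j : ℕ) (a : PS n)
    (ha : a ∈ J n j) : φ a - ψ a ∈ J n (j + d) := by
  classical
  have hmon : ∀ α : Fin n →₀ ℕ, φ (MvPowerSeries.monomial α (1 : ℂ)) -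
      ψ (MvPowerSeries.monomial α (1 : ℂ)) ∈ J n (α.degree + d) := by
    have hadd : ∀ α β : Fin n →₀ ℕ,
        φ (MvPowerSeries.monomial α (1 : ℂ)) - ψ (MvPowerSeries.monomial α (1 : ℂ)) ∈
          J n (α.degree + d) →
        φ (MvPowerSeries.monomial β (1 : ℂ)) - ψ (MvPowerSeries.monomial β (1 : ℂ)) ∈
          J n (β.degree + d) →
        φ (MvPowerSeries.monomial (α + β) (1 : ℂ)) - ψ (MvPowerSeries.monomial (α + β) (1 : ℂ)) ∈
          J n ((α + β).degree + d) := by
      intro α β hα hβ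
      rw [monomial_add_mul, map_mul, map_mul, map_add]
      have e : φ (MvPowerSeries.monomial α (1 : ℂ)) * φ (MvPowerSeries.monomial β (1 : ℂ)) -
          ψ (MvPowerSeries.monomial α (1 : ℂ)) * ψ (MvPowerSeries.monomial β (1 : ℂ)) =
          φ (MvPowerSeries.monomial α (1 : ℂ)) * (φ (MvPowerSeries.monomial β (1 : ℂ)) -
            ψ (MvPowerSeries.monomial β (1 : ℂ))) +
          (φ (MvPowerSeries.monomial α (1 : ℂ)) - ψ (MvPowerSeries.monomial α (1 : ℂ))) *
            ψ (MvPowerSeries.monomial β (1 : ℂ)) := by ring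
      rw [e]
      apply Ideal.add_mem
      · have := J_mul (hφ _ _ (monomial_J α)) hβ
        exact J_mono (by omega) this
      · have := J_mul hα (hψ _ _ (monomial_J β))
        exact J_mono (by omega) this
    intro α
    induction α using Finsupp.induction_linear with
    | zero =>
      have : (MvPowerSeries.monomial (0 : Fin n →₀ ℕ) (1 : ℂ) : PS n) = 1 := rfl
      rw [this, map_one, map_one, sub_self]
      exact Ideal.zero_mem _
    | add α β hα hβ => exact hadd α β hα hβ
    | single i m =>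
      induction m with
      | zero =>
        have : (MvPowerSeries.monomial (Finsupp.single i 0 : Fin n →₀ ℕ) (1 : ℂ) : PS n) = 1 := by
          rw [Finsupp.single_zero]; rfl
        rw [this, map_one, map_one, sub_self]
        exact Ideal.zero_mem _
      | succ m ih =>
        rw [Finsupp.single_add]
        apply hadd _ _ ih
        have := h i
        rw [MvPowerSeries.X_def] at this
        exact J_mono (by simp) this
  obtain ⟨p, hp⟩ := exists_poly (j + d) a
  have hsplit : a = (p : PS n) + (a - (p : PS n)) := by ring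
  have hpj : (p : PS n) ∈ J n j := by
    have : (p : PS n) = a - (a - (p : PS n)) := by ring
    rw [this]
    exact Ideal.sub_mem _ ha (J_mono (by omega) hp)
  have e : φ a - ψ a = (φ (p : PS n) - ψ (p : PS n)) + (φ (a - (p : PS n)) - ψ (a - (p : PS n))) := by
    rw [map_sub, map_sub]; ring
  rw [e]
  apply Ideal.add_mem
  · rw [poly_sum, map_sum, map_sum, ← Finset.sum_sub_distrib]
    apply Ideal.sum_mem
    intro m hm
    have hm2 : j ≤ m.degree := by
      by_contra hcon
      push Not at hcon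
      have h1 := hpj m hcon
      rw [MvPolynomial.coeff_coe] at h1
      exact (MvPolynomial.mem_support_iff.mp hm) h1
    rw [map_smul, map_smul, ← smul_sub]
    exact J_smul _ (J_mono (by omega) (hmon m))
  · exact Ideal.sub_mem _ (hφ _ _ hp) (hψ _ _ hp)

theorem X_mem_J {n : ℕ} (i : Fin n) : (MvPowerSeries.X i : PS n) ∈ J n 1 := by
  classical
  intro m hm
  rw [MvPowerSeries.coeff_X, if_neg]
  rintro rfl
  simp at hm

/-- the substitution homomorphism -/
noncomputable def CS {n : ℕ} (K : Fin n → PS n) (hK : ∀ i, K i ∈ J n 1) : PS n →ₐ[ℂ] PS n :=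
  MvPowerSeries.substAlgHom (hasSubst_of hK)

theorem CS_apply {n : ℕ} (K : Fin n → PS n) (hK : ∀ i, K i ∈ J n 1) (a : PS n) :
    CS K hK a = MvPowerSeries.subst K a := by
  unfold CS
  rw [MvPowerSeries.substAlgHom_apply]

theorem CS_J {n : ℕ} (K : Fin n → PS n) (hK : ∀ i, K i ∈ J n 1) : Filt (CS K hK) := by
  intro k a ha
  rw [CS_apply]
  exact subst_J hK ha

theorem CS_X {n : ℕ} (K : Fin n → PS n) (hK : ∀ i, K i ∈ J n 1) (i : Fin n) :
    CS K hK (MvPowerSeries.X i) = K i := by
  rw [CS_apply, MvPowerSeries.subst_X (hasSubst_of hK)]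

/-- limits -/
theorem exists_lim {n : ℕ} (a : ℕ → PS n) (h : ∀ k, a (k + 1) - a k ∈ J n k) :
    ∃ b : PS n, ∀ k, b - a k ∈ J n k := by
  have h2 : ∀ k l, k ≤ l → a l - a k ∈ J n k := by
    intro k l hkl
    induction l, hkl using Nat.le_induction with
    | base => rw [sub_self]; exact Ideal.zero_mem _
    | succ l hl ih =>
      have e : a (l + 1) - a k = (a (l + 1) - a l) + (a l - a k) := by ring
      rw [e]
      exact Ideal.add_mem _ (J_mono hl (h l)) ih
  refine ⟨fun m => MvPowerSeries.coeff m (a (m.degree + 1)), ?_⟩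
  intro k m hm
  have h3 := h2 (m.degree + 1) k (by omega) m (by omega)
  rw [map_sub, sub_eq_zero] at h3
  rw [map_sub, h3, sub_eq_zero]
  rfl

end RevMaps

namespace RevMaps

section tuples
variable {n : ℕ}

abbrev T (n : ℕ) := Fin n → PS n

/-- tuples of series of order at least `k` -/
def TJ (n k : ℕ) : Submodule ℂ (T n) where
  carrier := {v | ∀ i, v i ∈ J n k}
  zero_mem' := fun i => Ideal.zero_mem _
  add_mem' := fun ha hb i => Ideal.add_mem _ (ha i) (hb i)
  smul_mem' := fun c v hv i => J_smul c (hv i)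

theorem mem_TJ {k : ℕ} {v : T n} : v ∈ TJ n k ↔ ∀ i, v i ∈ J n k := Iff.rfl

theorem TJ_mono {k l : ℕ} (h : l ≤ k) : TJ n k ≤ TJ n l := fun _ hv i => J_mono h (hv i)

theorem TJ_bot {v : T n} (h : ∀ k, v ∈ TJ n k) : v = 0 := by
  funext i
  exact J_bot (fun k => h k i)

/-- linear part -/
noncomputable def linT (f : T n) : Matrix (Fin n) (Fin n) ℂ :=
  Matrix.of fun i j => MvPowerSeries.coeff (Finsupp.single j 1) (f i)

/-- the action of a matrix on tuples -/
noncomputable def act (M : Matrix (Fin n) (Fin n) ℂ) (v : T n) : T n :=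
  fun i => ∑ j, M i j • v j

/-- the identity tuple -/
noncomputable def idt (n : ℕ) : T n := fun i => MvPowerSeries.X i

/-- the linear tuple of a matrix -/
noncomputable def tup (M : Matrix (Fin n) (Fin n) ℂ) : T n := act M (idt n)

/-- composition `f ∘ g` -/
noncomputable def cmp (f g : T n) : T n := fun i => MvPowerSeries.subst g (f i)

theorem idt_mem : idt n ∈ TJ n 1 := fun i => X_mem_J i

theorem act_mem (M : Matrix (Fin n) (Fin n) ℂ) {k : ℕ} {v : T n} (hv : v ∈ TJ n k) :
    act M v ∈ TJ n k := by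
  intro i
  apply Ideal.sum_mem
  intro j _
  exact J_smul _ (hv j)

theorem tup_mem (M : Matrix (Fin n) (Fin n) ℂ) : tup M ∈ TJ n 1 := act_mem M idt_mem

theorem act_add (M : Matrix (Fin n) (Fin n) ℂ) (v w : T n) : act M (v + w) = act M v + act M w := by
  funext i
  simp [act, smul_add, Finset.sum_add_distrib]

theorem act_sub (M : Matrix (Fin n) (Fin n) ℂ) (v w : T n) : act M (v - w) = act M v - act M w := by
  funext i
  simp [act, smul_sub, Finset.sum_sub_distrib]

theorem act_smul (M : Matrix (Fin n) (Fin n) ℂ) (c : ℂ) (v : T n) :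
    act M (c • v) = c • act M v := by
  funext i
  simp only [act, Pi.smul_apply, Finset.smul_sum]
  apply Finset.sum_congr rfl
  intro j _
  rw [smul_comm]

theorem act_act (M N : Matrix (Fin n) (Fin n) ℂ) (v : T n) : act M (act N v) = act (M * N) v := by
  funext i
  simp only [act, Matrix.mul_apply, Finset.smul_sum, Finset.sum_smul, smul_smul]
  rw [Finset.sum_comm]

theorem act_one (v : T n) : act 1 v = v := by
  funext i
  simp only [act, Matrix.one_apply]
  rw [Finset.sum_eq_single i]
  · simp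
  · intro j _ hj
    rw [if_neg (Ne.symm hj), zero_smul]
  · simp

theorem cmp_eq (f : T n) {g : T n} (hg : g ∈ TJ n 1) : cmp f g = fun i => CS g hg (f i) := by
  funext i
  rw [CS_apply]
  rfl

theorem cmp_add (f f' : T n) {g : T n} (hg : g ∈ TJ n 1) : cmp (f + f') g = cmp f g + cmp f' g := by
  funext i
  simp only [cmp_eq _ hg, Pi.add_apply, map_add]

theorem cmp_sub (f f' : T n) {g : T n} (hg : g ∈ TJ n 1) : cmp (f - f') g = cmp f g - cmp f' g := by
  funext i
  simp only [cmp_eq _ hg, Pi.sub_apply, map_sub]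

theorem cmp_smul (c : ℂ) (f : T n) {g : T n} (hg : g ∈ TJ n 1) : cmp (c • f) g = c • cmp f g := by
  funext i
  simp only [cmp_eq _ hg, Pi.smul_apply, map_smul]

theorem cmp_mem {k : ℕ} {v g : T n} (hv : v ∈ TJ n k) (hg : g ∈ TJ n 1) : cmp v g ∈ TJ n k := by
  rw [cmp_eq _ hg]
  intro i
  exact CS_J g hg k _ (hv i)

theorem cmp_right {j d : ℕ} {v g g' : T n} (hv : v ∈ TJ n j) (hg : g ∈ TJ n 1)
    (hg' : g' ∈ TJ n 1) (h : g - g' ∈ TJ n (1 + d)) : cmp v g - cmp v g' ∈ TJ n (j + d) := by
  rw [cmp_eq _ hg, cmp_eq _ hg']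
  intro i
  refine near (CS g hg) (CS g' hg') (CS_J _ _) (CS_J _ _) d ?_ j _ (hv i)
  intro l
  rw [CS_X, CS_X]
  exact h l

theorem cmp_assoc (f : T n) {g h : T n} (hg : g ∈ TJ n 1) (hh : h ∈ TJ n 1) :
    cmp (cmp f g) h = cmp f (cmp g h) := by
  funext i
  exact MvPowerSeries.subst_comp_subst_apply (hasSubst_of hg) (hasSubst_of hh) (f i)

theorem cmp_idt (f : T n) : cmp f (idt n) = f := by
  funext i
  have := congrFun (MvPowerSeries.subst_self (σ := Fin n) (R := ℂ)) (f i)
  exact this

theorem idt_cmp {g : T n} (hg : g ∈ TJ n 1) : cmp (idt n) g = g := by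
  rw [cmp_eq _ hg]
  funext i
  exact CS_X g hg i

theorem act_cmp (M : Matrix (Fin n) (Fin n) ℂ) (v : T n) {g : T n} (hg : g ∈ TJ n 1) :
    cmp (act M v) g = act M (cmp v g) := by
  rw [cmp_eq _ hg, cmp_eq _ hg]
  funext i
  simp only [act, map_sum, map_smul]

theorem tup_cmp (M : Matrix (Fin n) (Fin n) ℂ) {g : T n} (hg : g ∈ TJ n 1) :
    cmp (tup M) g = act M g := by
  unfold tup
  rw [act_cmp M _ hg, idt_cmp hg]

theorem tup_mul (M N : Matrix (Fin n) (Fin n) ℂ) : cmp (tup M) (tup N) = tup (M * N) := by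
  rw [tup_cmp M (tup_mem N)]
  unfold tup
  rw [act_act]

theorem tup_one : tup (1 : Matrix (Fin n) (Fin n) ℂ) = idt n := act_one _

/-- decomposition of a series of order at least one -/
theorem lin_decomp {f : T n} (hf : f ∈ TJ n 1) : f - tup (linT f) ∈ TJ n 2 := by
  classical
  intro i m hm
  rw [Pi.sub_apply, map_sub, sub_eq_zero]
  simp only [tup, act, linT, idt, Matrix.of_apply, map_sum, MvPowerSeries.coeff_smul,
    MvPowerSeries.coeff_X]
  by_cases h0 : m.degree = 0
  · rw [Finsupp.degree_eq_zero_iff] at h0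
    subst h0
    rw [hf i 0 (by simp)]
    symm
    apply Finset.sum_eq_zero
    intro j _
    rw [if_neg, mul_zero]
    intro h
    have := congrArg Finsupp.degree h
    simp at this
  · have h1 : m.degree = 1 := by omega
    obtain ⟨j, hj⟩ : ∃ j, m = Finsupp.single j 1 := by
      exact (Finsupp.sum_eq_one_iff m).mp h1
    subst hj
    rw [Finset.sum_eq_single j]
    · simp
    · intro l _ hl
      rw [if_neg, mul_zero]
      intro h
      exact hl ((Finsupp.single_left_inj one_ne_zero).mp h).symm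
    · simp

theorem linT_of_mem {f : T n} (hf : f ∈ TJ n 2) : linT f = 0 := by
  ext i j
  exact hf i _ (by simp)

theorem linT_add (f g : T n) : linT (f + g) = linT f + linT g := by
  ext i j; simp [linT]

theorem linT_sub (f g : T n) : linT (f - g) = linT f - linT g := by
  ext i j; simp [linT]

theorem linT_act (M : Matrix (Fin n) (Fin n) ℂ) (v : T n) : linT (act M v) = M * linT v := by
  ext i j
  simp only [linT, act, Matrix.of_apply, map_sum, MvPowerSeries.coeff_smul, Matrix.mul_apply]

theorem linT_idt : linT (idt n) = 1 := by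
  classical
  ext i j
  simp only [linT, idt, Matrix.of_apply, MvPowerSeries.coeff_X, Matrix.one_apply]
  by_cases h : i = j
  · subst h; simp
  · rw [if_neg h, if_neg]
    intro h2
    exact h ((Finsupp.single_left_inj one_ne_zero).mp h2).symm

theorem linT_tup (M : Matrix (Fin n) (Fin n) ℂ) : linT (tup M) = M := by
  unfold tup
  rw [linT_act, linT_idt, mul_one]

theorem linT_cmp {f g : T n} (hf : f ∈ TJ n 1) (hg : g ∈ TJ n 1) :
    linT (cmp f g) = linT f * linT g := by
  have h1 : f = tup (linT f) + (f - tup (linT f)) := by abel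
  have h2 : cmp f g = act (linT f) g + cmp (f - tup (linT f)) g := by
    conv_lhs => rw [h1]
    rw [cmp_add _ _ hg, tup_cmp _ hg]
  rw [h2, linT_add, linT_act, linT_of_mem (cmp_mem (lin_decomp hf) hg), add_zero]

/-- first order expansion on the left -/
theorem cmp_first {k : ℕ} {f g v : T n} (hf : f ∈ TJ n 1) (hg : g ∈ TJ n 1)
    (hv : v ∈ TJ n (1 + k)) : cmp f (g + v) - cmp f g - act (linT f) v ∈ TJ n (2 + k) := by
  have hgv : g + v ∈ TJ n 1 := Submodule.add_mem _ hg (TJ_mono (by omega) hv)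
  have h1 : f = tup (linT f) + (f - tup (linT f)) := by abel
  have h2 : cmp f (g + v) = act (linT f) (g + v) + cmp (f - tup (linT f)) (g + v) := by
    conv_lhs => rw [h1]
    rw [cmp_add _ _ hgv, tup_cmp _ hgv]
  have h3 : cmp f g = act (linT f) g + cmp (f - tup (linT f)) g := by
    conv_lhs => rw [h1]
    rw [cmp_add _ _ hg, tup_cmp _ hg]
  have e : cmp f (g + v) - cmp f g - act (linT f) v =
      cmp (f - tup (linT f)) (g + v) - cmp (f - tup (linT f)) g := by
    rw [h2, h3, act_add]; abel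
  rw [e]
  apply cmp_right (lin_decomp hf) hgv hg
  have : g + v - g = v := by abel
  rw [this]
  exact hv

/-- composition is compatible with congruences -/
theorem cmp_congr {k : ℕ} {f f' g g' : T n} (hf : f ∈ TJ n 1) (hg : g ∈ TJ n 1)
    (hg' : g' ∈ TJ n 1) (h1 : f - f' ∈ TJ n k) (h2 : g - g' ∈ TJ n k) :
    cmp f g - cmp f' g' ∈ TJ n k := by
  rcases Nat.eq_zero_or_pos k with h0 | h0
  · subst h0
    intro i
    exact J_zero _
  obtain ⟨d, rfl⟩ : ∃ d, k = 1 + d := ⟨k - 1, by omega⟩
  have e : cmp f g - cmp f' g' = (cmp f g - cmp f g') + cmp (f - f') g' := by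
    rw [cmp_sub _ _ hg']; abel
  rw [e]
  exact Submodule.add_mem _ (cmp_right hf hg hg' h2) (cmp_mem h1 hg')

/-- limits of tuples -/
theorem exists_limT (a : ℕ → T n) (h : ∀ k, a (k + 1) - a k ∈ TJ n k) :
    ∃ b : T n, ∀ k, b - a k ∈ TJ n k := by
  have h1 : ∀ i, ∃ b : PS n, ∀ k, b - a k i ∈ J n k := fun i => exists_lim _ (fun k => h k i)
  choose b hb using h1
  exact ⟨b, fun k i => hb i k⟩

/-- right inverses -/
theorem exists_right_inv {f : T n} (hf : f ∈ TJ n 1) (hdet : (linT f).det ≠ 0) :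
    ∃ g ∈ TJ n 1, cmp f g = idt n := by
  have hu : IsUnit (linT f).det := isUnit_iff_ne_zero.mpr hdet
  set L := linT f with hL
  set r := f - tup L with hr
  have hr2 : r ∈ TJ n 2 := lin_decomp hf
  let step : T n → T n := fun g => act L⁻¹ (idt n - cmp r g)
  have hstep : ∀ g ∈ TJ n 1, step g ∈ TJ n 1 := by
    intro g hg
    exact act_mem _ (Submodule.sub_mem _ idt_mem (TJ_mono (by omega) (cmp_mem hr2 hg)))
  let a : ℕ → T n := fun k => step^[k] 0
  have ha1 : ∀ k, a k ∈ TJ n 1 := by
    intro k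
    induction k with
    | zero => exact Submodule.zero_mem _
    | succ k ih =>
      have : a (k + 1) = step (a k) := Function.iterate_succ_apply' _ _ _
      rw [this]
      exact hstep _ ih
  have hsucc : ∀ k, a (k + 1) = step (a k) := fun k => Function.iterate_succ_apply' _ _ _
  have hdiff : ∀ k, a (k + 1) - a k ∈ TJ n (k + 1) := by
    intro k
    induction k with
    | zero =>
      exact Submodule.sub_mem _ (ha1 _) (ha1 _)
    | succ k ih =>
      have e : a (k + 1 + 1) - a (k + 1) = act L⁻¹ (cmp r (a k) - cmp r (a (k + 1))) := by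
        rw [hsucc (k + 1), hsucc k]
        simp only [step]
        rw [← act_sub]
        congr 1
        abel
      rw [e]
      apply act_mem
      have h1 : a k - a (k + 1) ∈ TJ n (1 + k) := by
        have : a k - a (k + 1) = -(a (k + 1) - a k) := by abel
        rw [this, add_comm]
        exact Submodule.neg_mem _ ih
      have h2 := cmp_right hr2 (ha1 k) (ha1 (k + 1)) h1
      exact TJ_mono (by omega) h2
  obtain ⟨g, hg⟩ := exists_limT a (fun k => TJ_mono (by omega) (hdiff k))
  have hg1 : g ∈ TJ n 1 := by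
    have : g = (g - a 1) + a 1 := by abel
    rw [this]
    exact Submodule.add_mem _ (hg 1) (ha1 1)
  refine ⟨g, hg1, ?_⟩
  -- g is a fixed point of step
  have hfix : step g - g = 0 := by
    apply TJ_bot
    intro k
    have e : step g - g = (step g - step (a k)) + (a (k + 1) - a k) - (g - a k) := by
      rw [hsucc k]; abel
    rw [e]
    apply Submodule.sub_mem _ (Submodule.add_mem _ ?_ (TJ_mono (by omega) (hdiff k))) (hg k)
    have e2 : step g - step (a k) = act L⁻¹ (cmp r (a k) - cmp r g) := by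
      simp only [step]
      rw [← act_sub]
      congr 1
      abel
    rw [e2]
    apply act_mem
    apply cmp_congr (TJ_mono (by omega) hr2) (ha1 k) hg1
    · rw [sub_self]; exact Submodule.zero_mem _
    · have : a k - g = -(g - a k) := by abel
      rw [this]
      exact Submodule.neg_mem _ (hg k)
  have hfix2 : g = step g := by
    rw [sub_eq_zero] at hfix
    exact hfix.symm
  have h3 : act L g = idt n - cmp r g := by
    conv_lhs => rw [hfix2]
    simp only [step]
    rw [act_act, Matrix.mul_nonsing_inv _ hu, act_one]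
  have h4 : f = tup L + r := by rw [hr]; abel
  rw [h4, cmp_add _ _ hg1, tup_cmp _ hg1, h3]
  abel

end tuples

end RevMaps

/-- A formally invertible formal map of `(ℂ^n, 0)`: an `n`-tuple of formal power series in
`n` variables over `ℂ`, with zero constant terms and invertible linear part. -/
@[ext]
structure FormalMap (n : ℕ) where
  toFun : Fin n → MvPowerSeries (Fin n) ℂ
  constantCoeff_eq_zero : ∀ i, MvPowerSeries.constantCoeff (toFun i) = 0
  det_ne_zero : (Matrix.of fun i j => MvPowerSeries.coeff (Finsupp.single j 1) (toFun i)).det ≠ 0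

namespace FormalMap

open RevMaps

variable {n : ℕ}

/-- The linear part (Jacobian matrix at the origin) of a formal map. -/
noncomputable def lin (f : FormalMap n) : Matrix (Fin n) (Fin n) ℂ :=
  Matrix.of fun i j => MvPowerSeries.coeff (Finsupp.single j 1) (f.toFun i)

theorem mem (f : FormalMap n) : f.toFun ∈ TJ n 1 := by
  intro i m hm
  have : m = 0 := by
    rw [← Finsupp.degree_eq_zero_iff]
    omega
  rw [this]
  exact f.constantCoeff_eq_zero i

theorem const_of_mem {v : Fin n → MvPowerSeries (Fin n) ℂ} (hv : v ∈ TJ n 1) (i : Fin n) :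
    MvPowerSeries.constantCoeff (v i) = 0 := hv i 0 (by simp)

/-- construct a formal map from a tuple -/
def mk' (v : Fin n → MvPowerSeries (Fin n) ℂ) (hv : v ∈ TJ n 1) (hd : (linT v).det ≠ 0) :
    FormalMap n := ⟨v, const_of_mem hv, hd⟩

/-- Composition: `f * g = f ∘ g`, that is, `g` is substituted into every component of `f`. -/
noncomputable instance : Mul (FormalMap n) where
  mul f g :=
    { toFun := fun i => MvPowerSeries.subst g.toFun (f.toFun i)
      constantCoeff_eq_zero := const_of_mem (cmp_mem f.mem g.mem)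
      det_ne_zero := by
        have h : (linT (cmp f.toFun g.toFun)).det ≠ 0 := by
          rw [linT_cmp f.mem g.mem, Matrix.det_mul]
          exact mul_ne_zero f.det_ne_zero g.det_ne_zero
        exact h }

/-- The identity map `(X_1, …, X_n)`. -/
noncomputable instance : One (FormalMap n) where
  one :=
    { toFun := fun i => MvPowerSeries.X i
      constantCoeff_eq_zero := const_of_mem idt_mem
      det_ne_zero := by
        have h : (linT (idt n)).det ≠ 0 := by
          rw [linT_idt, Matrix.det_one]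
          exact one_ne_zero
        exact h }

theorem mul_toFun (f g : FormalMap n) : (f * g).toFun = cmp f.toFun g.toFun := rfl

theorem one_toFun : (1 : FormalMap n).toFun = idt n := rfl

theorem exists_inv (f : FormalMap n) : ∃ g : FormalMap n, f * g = 1 := by
  obtain ⟨g, hg, hfg⟩ := exists_right_inv f.mem f.det_ne_zero
  have hd : (linT g).det ≠ 0 := by
    have h1 : linT f.toFun * linT g = 1 := by
      rw [← linT_cmp f.mem hg, hfg, linT_idt]
    intro h0
    have h2 := congrArg Matrix.det h1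
    rw [Matrix.det_mul, h0, mul_zero, Matrix.det_one] at h2
    exact zero_ne_one h2
  refine ⟨mk' g hg hd, ?_⟩
  apply FormalMap.ext
  exact hfg

/-- The compositional inverse. -/
noncomputable instance : Inv (FormalMap n) where
  inv f := Classical.choose f.exists_inv

/-- Formal maps form a group under composition. -/
noncomputable instance : Group (FormalMap n) :=
  Group.ofRightAxioms
    (fun f g h => FormalMap.ext (cmp_assoc f.toFun g.mem h.mem))
    (fun f => FormalMap.ext (cmp_idt f.toFun))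
    (fun f => Classical.choose_spec f.exists_inv)

theorem lin_mul (f g : FormalMap n) : (f * g).lin = f.lin * g.lin := linT_cmp f.mem g.mem

theorem lin_one : (1 : FormalMap n).lin = 1 := linT_idt

theorem lin_inv_mul (f : FormalMap n) : (f⁻¹).lin * f.lin = 1 := by
  rw [← lin_mul, inv_mul_cancel, lin_one]

theorem lin_mul_inv (f : FormalMap n) : f.lin * (f⁻¹).lin = 1 := by
  rw [← lin_mul, mul_inv_cancel, lin_one]

theorem lin_inv (f : FormalMap n) : (f⁻¹).lin = f.lin⁻¹ := by
  symm
  exact Matrix.inv_eq_right_inv (lin_mul_inv f)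

/-- linear maps as formal maps -/
noncomputable def ofMat (M : Matrix (Fin n) (Fin n) ℂ) (h : M.det ≠ 0) : FormalMap n :=
  mk' (tup M) (tup_mem M) (by rw [linT_tup]; exact h)

theorem lin_ofMat (M : Matrix (Fin n) (Fin n) ℂ) (h : M.det ≠ 0) : (ofMat M h).lin = M :=
  linT_tup M

theorem ofMat_toFun (M : Matrix (Fin n) (Fin n) ℂ) (h : M.det ≠ 0) : (ofMat M h).toFun = tup M :=
  rfl

theorem ofMat_mul (M N : Matrix (Fin n) (Fin n) ℂ) (hM : M.det ≠ 0) (hN : N.det ≠ 0) :
    ofMat M hM * ofMat N hN = ofMat (M * N) (by rw [Matrix.det_mul]; exact mul_ne_zero hM hN) := by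
  apply FormalMap.ext
  rw [mul_toFun]
  exact tup_mul M N

theorem ofMat_one (h : (1 : Matrix (Fin n) (Fin n) ℂ).det ≠ 0) : ofMat 1 h = 1 := by
  apply FormalMap.ext
  exact tup_one

/-- congruence of formal maps modulo terms of order at least `k` -/
def Cong (k : ℕ) (f g : FormalMap n) : Prop := f.toFun - g.toFun ∈ TJ n k

theorem Cong.refl {k : ℕ} (f : FormalMap n) : Cong k f f := by
  unfold Cong
  rw [sub_self]
  exact Submodule.zero_mem _

theorem Cong.symm {k : ℕ} {f g : FormalMap n} (h : Cong k f g) : Cong k g f := by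
  unfold Cong at *
  have : g.toFun - f.toFun = -(f.toFun - g.toFun) := by abel
  rw [this]
  exact Submodule.neg_mem _ h

theorem Cong.trans {k : ℕ} {f g h : FormalMap n} (h1 : Cong k f g) (h2 : Cong k g h) :
    Cong k f h := by
  unfold Cong at *
  have : f.toFun - h.toFun = (f.toFun - g.toFun) + (g.toFun - h.toFun) := by abel
  rw [this]
  exact Submodule.add_mem _ h1 h2

theorem Cong.mono {k l : ℕ} (hkl : l ≤ k) {f g : FormalMap n} (h : Cong k f g) : Cong l f g :=
  TJ_mono hkl h

theorem Cong.mul {k : ℕ} {f f' g g' : FormalMap n} (h1 : Cong k f f') (h2 : Cong k g g') :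
    Cong k (f * g) (f' * g') := cmp_congr f.mem g.mem g'.mem h1 h2

theorem Cong.inv {k : ℕ} {f g : FormalMap n} (h : Cong k f g) : Cong k f⁻¹ g⁻¹ := by
  have h1 : Cong k (f⁻¹ * g * g⁻¹) (f⁻¹ * f * g⁻¹) :=
    Cong.mul (Cong.mul (Cong.refl _) h.symm) (Cong.refl _)
  rw [mul_assoc, mul_inv_cancel, mul_one, inv_mul_cancel, one_mul] at h1
  exact h1

theorem Cong.eq {f g : FormalMap n} (h : ∀ k, Cong k f g) : f = g := by
  apply FormalMap.ext
  have := TJ_bot (v := f.toFun - g.toFun) (fun k => h k)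
  exact sub_eq_zero.mp this

theorem Cong.lin_eq {f g : FormalMap n} (h : Cong 2 f g) : f.lin = g.lin := by
  have h1 := linT_of_mem h
  rw [linT_sub, sub_eq_zero] at h1
  exact h1

/-- the adjoint action of a matrix on tuples -/
noncomputable def Ad (M : Matrix (Fin n) (Fin n) ℂ) (v : T n) : T n := act M (cmp v (tup M⁻¹))

/-- displacement from the identity -/
noncomputable def vec (f : FormalMap n) : T n := f.toFun - idt n

theorem vec_mem_iff {k : ℕ} {f : FormalMap n} : vec f ∈ TJ n k ↔ Cong k f 1 := Iff.rfl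

theorem vec_mul {k : ℕ} {x y : FormalMap n} (hx : Cong (2 + k) x 1) (hy : Cong (2 + k) y 1) :
    vec (x * y) - (vec x + vec y) ∈ TJ n (3 + k) := by
  have h1 : x.toFun = idt n + vec x := by unfold vec; abel
  have e : vec (x * y) - (vec x + vec y) = cmp (vec x) y.toFun - cmp (vec x) (idt n) := by
    have h2 : cmp x.toFun y.toFun = y.toFun + cmp (vec x) y.toFun := by
      conv_lhs => rw [h1]
      rw [cmp_add _ _ y.mem, idt_cmp y.mem]
    unfold vec at *
    rw [mul_toFun, h2, cmp_idt]
    abel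
  rw [e]
  have h3 := cmp_right (d := 1 + k) (g := y.toFun) (g' := idt n) hx y.mem idt_mem
    (TJ_mono (by omega) hy)
  exact TJ_mono (by omega) h3

theorem vec_inv {k : ℕ} {x : FormalMap n} (hx : Cong (2 + k) x 1) :
    vec x⁻¹ + vec x ∈ TJ n (3 + k) := by
  have h1 : Cong (2 + k) x⁻¹ 1 := by
    have := Cong.inv hx
    rwa [inv_one] at this
  have h2 := vec_mul h1 hx
  rw [inv_mul_cancel] at h2
  have h3 : vec (1 : FormalMap n) = 0 := by
    unfold vec
    rw [one_toFun, sub_self]
  rw [h3, zero_sub] at h2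
  exact (Submodule.neg_mem_iff _).mp h2

theorem vec_conj {k : ℕ} (g : FormalMap n) {x : FormalMap n} (hx : Cong (2 + k) x 1) :
    vec (g * x * g⁻¹) - Ad g.lin (vec x) ∈ TJ n (3 + k) := by
  have hx1 : x.toFun = idt n + vec x := by unfold vec; abel
  have hv : vec x ∈ TJ n (2 + k) := hx
  -- g ∘ x
  have h1 := cmp_first (k := 1 + k) g.mem idt_mem (TJ_mono (by omega : 1 + (1 + k) ≤ 2 + k) hv)
  rw [← hx1, cmp_idt] at h1
  set w := cmp g.toFun x.toFun - g.toFun - act (linT g.toFun) (vec x) with hw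
  have h2 : cmp g.toFun x.toFun = g.toFun + act (linT g.toFun) (vec x) + w := by rw [hw]; abel
  have h3 : (g * x * g⁻¹).toFun = idt n + cmp (act (linT g.toFun) (vec x)) (g⁻¹).toFun +
      cmp w (g⁻¹).toFun := by
    rw [mul_toFun, mul_toFun, h2, cmp_add _ _ (g⁻¹).mem, cmp_add _ _ (g⁻¹).mem]
    congr 2
    rw [← mul_toFun, mul_inv_cancel, one_toFun]
  have h4 : vec (g * x * g⁻¹) - Ad g.lin (vec x) =
      act g.lin (cmp (vec x) (g⁻¹).toFun - cmp (vec x) (tup g.lin⁻¹)) + cmp w (g⁻¹).toFun := by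
    have : vec (g * x * g⁻¹) = cmp (act (linT g.toFun) (vec x)) (g⁻¹).toFun +
      cmp w (g⁻¹).toFun := by
      unfold vec
      rw [h3]
      unfold vec
      abel
    rw [this, act_cmp _ _ (g⁻¹).mem, act_sub]
    unfold Ad
    have : linT g.toFun = g.lin := rfl
    rw [this]
    abel
  rw [h4]
  apply Submodule.add_mem
  · apply act_mem
    have h5 := cmp_right (d := 1) hv (g⁻¹).mem (tup_mem g.lin⁻¹) (by
      rw [← lin_inv]
      exact lin_decomp (g⁻¹).mem)
    exact TJ_mono (by omega) h5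
  · exact TJ_mono (by omega) (cmp_mem h1 (g⁻¹).mem)

/-- completeness -/
theorem exists_lim (a : ℕ → FormalMap n) (h : ∀ k, Cong k (a (k + 1)) (a k))
    (h2 : ∀ k, Cong 2 (a k) (a 0)) : ∃ b : FormalMap n, ∀ k, Cong k b (a k) := by
  obtain ⟨b, hb⟩ := exists_limT (fun k => (a k).toFun) h
  have hb1 : b ∈ TJ n 1 := by
    have : b = (b - (a 1).toFun) + (a 1).toFun := by abel
    rw [this]
    exact Submodule.add_mem _ (hb 1) (a 1).mem
  have hlin : linT b = (a 2).lin := by
    have h1 := linT_of_mem (hb 2)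
    rw [linT_sub, sub_eq_zero] at h1
    exact h1
  exact ⟨mk' b hb1 (by rw [hlin]; exact (a 2).det_ne_zero), hb⟩

end FormalMap

namespace FormalMap

open RevMaps

variable {n : ℕ}

/-- `Ad` as a linear map -/
noncomputable def AdL (M : Matrix (Fin n) (Fin n) ℂ) : T n →ₗ[ℂ] T n where
  toFun := Ad M
  map_add' v w := by
    unfold Ad
    rw [cmp_add _ _ (tup_mem _), act_add]
  map_smul' c v := by
    unfold Ad
    rw [cmp_smul _ _ (tup_mem _), act_smul]
    rfl

theorem AdL_apply (M : Matrix (Fin n) (Fin n) ℂ) (v : T n) : AdL M v = Ad M v := rfl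

theorem Ad_mem (M : Matrix (Fin n) (Fin n) ℂ) {k : ℕ} {v : T n} (hv : v ∈ TJ n k) :
    Ad M v ∈ TJ n k := act_mem _ (cmp_mem hv (tup_mem _))

theorem Ad_Ad (M N : Matrix (Fin n) (Fin n) ℂ) (v : T n) : Ad M (Ad N v) = Ad (M * N) v := by
  unfold Ad
  rw [act_cmp _ _ (tup_mem _), act_act, cmp_assoc _ (tup_mem _) (tup_mem _), tup_mul,
    Matrix.mul_inv_rev]

theorem Ad_one (v : T n) : Ad 1 v = v := by
  unfold Ad
  rw [inv_one, tup_one, cmp_idt, act_one]

/-- achievable first order changes -/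
noncomputable def DD (n k : ℕ) : List (Matrix (Fin n) (Fin n) ℂ) → Submodule ℂ (T n)
  | [] => TJ n (k + 1)
  | (a :: l) => (TJ n k).map (LinearMap.id - AdL a) ⊔ (DD n k l).map (AdL a)

theorem DD_le (k : ℕ) (l : List (Matrix (Fin n) (Fin n) ℂ)) : DD n k l ≤ TJ n k := by
  induction l with
  | nil => exact TJ_mono (by omega)
  | cons a l ih =>
    apply sup_le
    · rintro x ⟨v, hv, rfl⟩
      exact Submodule.sub_mem _ hv (Ad_mem a hv)
    · rintro x ⟨v, hv, rfl⟩
      exact Ad_mem a (ih hv)

theorem DD_dual (k : ℕ) (l : List (Matrix (Fin n) (Fin n) ℂ)) (φ : T n →ₗ[ℂ] ℂ)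
    (h : ∀ x ∈ DD n k l, φ x = 0) :
    (∀ x ∈ TJ n (k + 1), φ x = 0) ∧ ∀ a ∈ l, ∀ v ∈ TJ n k, φ (Ad a v) = φ v := by
  induction l with
  | nil => exact ⟨h, by simp⟩
  | cons a l ih =>
    have h1 : ∀ v ∈ TJ n k, φ (Ad a v) = φ v := by
      intro v hv
      have := h ((LinearMap.id - AdL a : T n →ₗ[ℂ] T n) v) (Submodule.mem_sup_left ⟨v, hv, rfl⟩)
      rw [LinearMap.sub_apply, map_sub, sub_eq_zero] at this
      exact this.symm
    have h2 : ∀ x ∈ DD n k l, φ x = 0 := by
      intro x hx
      rw [← h1 x (DD_le k l hx)]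
      exact h _ (Submodule.mem_sup_right ⟨x, hx, rfl⟩)
    obtain ⟨h3, h4⟩ := ih h2
    refine ⟨h3, ?_⟩
    intro b hb
    rcases List.mem_cons.mp hb with rfl | hb
    · exact h1
    · exact h4 b hb

/-- There is no nonzero functional on the homogeneous tuples of degree `k` that is invariant
under all the matrices of the list. -/
def NoCov (k : ℕ) (l : List (Matrix (Fin n) (Fin n) ℂ)) : Prop :=
  ∀ φ : T n →ₗ[ℂ] ℂ, (∀ x ∈ TJ n (k + 1), φ x = 0) →
    (∀ a ∈ l, ∀ v ∈ TJ n k, φ (Ad a v) = φ v) → ∀ v ∈ TJ n k, φ v = 0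

theorem DD_eq (k : ℕ) (l : List (Matrix (Fin n) (Fin n) ℂ)) (h : NoCov k l) {v : T n}
    (hv : v ∈ TJ n k) : v ∈ DD n k l := by
  by_contra hcon
  obtain ⟨φ, h1, h2⟩ := Submodule.exists_le_ker_of_notMem hcon
  obtain ⟨h3, h4⟩ := DD_dual k l φ (fun x hx => LinearMap.mem_ker.mp (h2 hx))
  exact h1 (h φ h3 h4 v hv)

/-- the correction -/
noncomputable def dlt : List (FormalMap n × FormalMap n) → FormalMap n
  | [] => 1
  | (p :: l) => p.2 * (p.1 * p.2⁻¹ * p.1⁻¹) * (p.1 * dlt l * p.1⁻¹)

theorem dlt_prod (l : List (FormalMap n × FormalMap n)) :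
    (l.map (fun p => p.2 * p.1 * p.2⁻¹)).prod = dlt l * (l.map Prod.fst).prod := by
  induction l with
  | nil => simp [dlt]
  | cons p l ih =>
    simp only [List.map_cons, List.prod_cons, ih, dlt]
    group

theorem realize (k r : ℕ) (σ : Fin r → FormalMap n) (w : T n)
    (hw : w ∈ DD n (2 + k) (List.ofFn fun i => (σ i).lin)) :
    ∃ γ : Fin r → FormalMap n, (∀ i, Cong (2 + k) (γ i) 1) ∧
      Cong (2 + k) (dlt (List.ofFn fun i => (σ i, γ i))) 1 ∧
      vec (dlt (List.ofFn fun i => (σ i, γ i))) - w ∈ TJ n (3 + k) := by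
  induction r generalizing w with
  | zero =>
    refine ⟨fun i => 1, fun i => Cong.refl _, ?_, ?_⟩
    · simp only [List.ofFn_zero, dlt]
      exact Cong.refl _
    · simp only [List.ofFn_zero, dlt] at hw ⊢
      have h1 : vec (1 : FormalMap n) = 0 := by
        unfold vec
        rw [one_toFun, sub_self]
      rw [h1, zero_sub]
      apply Submodule.neg_mem
      exact TJ_mono (by omega) hw
  | succ r ih =>
    rw [List.ofFn_succ] at hw
    obtain ⟨x, hx, y, hy, rfl⟩ := Submodule.mem_sup.mp hw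
    obtain ⟨v, hv, rfl⟩ := hx
    obtain ⟨w', hw', rfl⟩ := hy
    obtain ⟨γ', h1, h2, h3⟩ := ih (fun i => σ i.succ) w' hw'
    have hv1 : idt n + v ∈ TJ n 1 :=
      Submodule.add_mem _ idt_mem (TJ_mono (by omega) hv)
    have hv2 : (linT (idt n + v)).det ≠ 0 := by
      rw [linT_add, linT_idt, linT_of_mem (TJ_mono (by omega) hv), add_zero, Matrix.det_one]
      exact one_ne_zero
    set γ₀ : FormalMap n := mk' (idt n + v) hv1 hv2 with hγ₀
    have hvec : vec γ₀ = v := by
      have : γ₀.toFun = idt n + v := rfl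
      unfold vec
      rw [this]
      abel
    have hγ : Cong (2 + k) γ₀ 1 := by
      rw [← vec_mem_iff, hvec]
      exact hv
    have hinv : Cong (2 + k) γ₀⁻¹ 1 := by
      have := Cong.inv hγ
      rwa [inv_one] at this
    have hconj : ∀ (g x : FormalMap n), Cong (2 + k) x 1 → Cong (2 + k) (g * x * g⁻¹) 1 := by
      intro g x hx
      have := Cong.mul (Cong.mul (Cong.refl g) hx) (Cong.refl g⁻¹)
      rwa [mul_one, mul_inv_cancel] at this
    set δ' := dlt (List.ofFn fun i : Fin r => (σ i.succ, γ' i)) with hδ'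
    refine ⟨Fin.cons γ₀ γ', ?_, ?_⟩
    · intro i
      refine Fin.cases ?_ ?_ i
      · exact hγ
      · exact h1
    have hδ : dlt (List.ofFn fun i => (σ i, (Fin.cons γ₀ γ' : Fin (r + 1) → FormalMap n) i)) =
        γ₀ * (σ 0 * γ₀⁻¹ * (σ 0)⁻¹) * (σ 0 * δ' * (σ 0)⁻¹) := by
      rw [List.ofFn_succ]
      simp only [dlt, Fin.cons_zero, Fin.cons_succ]
      rfl
    rw [hδ]
    have c1 := hconj (σ 0) _ hinv
    have c2 := hconj (σ 0) _ h2
    have c3 : Cong (2 + k) (γ₀ * (σ 0 * γ₀⁻¹ * (σ 0)⁻¹)) 1 := by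
      have := Cong.mul hγ c1
      rwa [mul_one] at this
    refine ⟨?_, ?_⟩
    · have := Cong.mul c3 c2
      rwa [mul_one] at this
    · have e1 := vec_mul c3 c2
      have e2 := vec_mul hγ c1
      have e3 := vec_conj (σ 0) hinv
      have e4 := vec_conj (σ 0) h2
      have e5 := vec_inv hγ
      rw [hvec] at e2 e5
      have e6 : Ad (σ 0).lin (vec γ₀⁻¹ + v) ∈ TJ n (3 + k) := Ad_mem _ e5
      have e7 : Ad (σ 0).lin (vec δ' - w') ∈ TJ n (3 + k) := Ad_mem _ h3
      have a6 : Ad (σ 0).lin (vec γ₀⁻¹ + v) = Ad (σ 0).lin (vec γ₀⁻¹) + Ad (σ 0).lin v :=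
        map_add (AdL (σ 0).lin) _ _
      have a7 : Ad (σ 0).lin (vec δ' - w') = Ad (σ 0).lin (vec δ') - Ad (σ 0).lin w' :=
        map_sub (AdL (σ 0).lin) _ _
      rw [a6] at e6
      rw [a7] at e7
      have e := Submodule.add_mem _ (Submodule.add_mem _ (Submodule.add_mem _
        (Submodule.add_mem _ (Submodule.add_mem _ e1 e2) e3) e4) e6) e7
      convert e using 1
      simp only [LinearMap.sub_apply, LinearMap.id_apply, AdL_apply]
      abel

theorem step (k r : ℕ) (F : FormalMap n) (σ : Fin r → FormalMap n) (hσ : ∀ i, σ i * σ i = 1)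
    (hnc : NoCov (2 + k) (List.ofFn fun i => (σ i).lin))
    (hF : Cong (2 + k) (List.ofFn σ).prod F) :
    ∃ σ' : Fin r → FormalMap n, (∀ i, σ' i * σ' i = 1) ∧ (∀ i, Cong (2 + k) (σ' i) (σ i)) ∧
      Cong (3 + k) (List.ofFn σ').prod F := by
  set P := (List.ofFn σ).prod with hP
  have hu : Cong (2 + k) (F * P⁻¹) 1 := by
    have := Cong.mul hF.symm (Cong.refl P⁻¹)
    rwa [mul_inv_cancel] at this
  obtain ⟨γ, h1, h2, h3⟩ := realize k r σ (vec (F * P⁻¹)) (DD_eq _ _ hnc hu)
  refine ⟨fun i => γ i * σ i * (γ i)⁻¹, ?_, ?_, ?_⟩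
  · intro i
    calc γ i * σ i * (γ i)⁻¹ * (γ i * σ i * (γ i)⁻¹) = γ i * (σ i * σ i) * (γ i)⁻¹ := by group
      _ = 1 := by rw [hσ]; group
  · intro i
    have hinv : Cong (2 + k) (γ i)⁻¹ 1 := by
      have := Cong.inv (h1 i)
      rwa [inv_one] at this
    have := Cong.mul (Cong.mul (h1 i) (Cong.refl (σ i))) hinv
    rwa [one_mul, mul_one] at this
  · have e1 : (List.ofFn fun i => γ i * σ i * (γ i)⁻¹).prod =
        dlt (List.ofFn fun i => (σ i, γ i)) * P := by
      have := dlt_prod (List.ofFn fun i => (σ i, γ i))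
      rw [List.map_ofFn, List.map_ofFn] at this
      exact this
    rw [e1]
    have e2 : Cong (3 + k) (dlt (List.ofFn fun i => (σ i, γ i))) (F * P⁻¹) := by
      unfold Cong
      have : vec (dlt (List.ofFn fun i => (σ i, γ i))) - vec (F * P⁻¹) =
        (dlt (List.ofFn fun i => (σ i, γ i))).toFun - (F * P⁻¹).toFun := by
        unfold vec; abel
      rw [← this]
      exact h3
    have := Cong.mul e2 (Cong.refl P)
    rwa [inv_mul_cancel_right] at this

theorem Cong.listProd {k r : ℕ} {σ σ' : Fin r → FormalMap n} (h : ∀ i, Cong k (σ i) (σ' i)) :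
    Cong k (List.ofFn σ).prod (List.ofFn σ').prod := by
  induction r with
  | zero => simp only [List.ofFn_zero]; exact Cong.refl _
  | succ r ih =>
    rw [List.ofFn_succ, List.ofFn_succ, List.prod_cons, List.prod_cons]
    exact Cong.mul (h 0) (ih (fun i => h i.succ))

/-- **Key lemma**: a formal map whose linear part is a product of linear involutions without
common covariants is the product of the same number of involutions. -/
theorem key {r : ℕ} (F : FormalMap n) (S : Fin r → Matrix (Fin n) (Fin n) ℂ)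
    (hS : ∀ i, S i * S i = 1) (hprod : (List.ofFn S).prod = F.lin)
    (hnc : ∀ k, 2 ≤ k → NoCov k (List.ofFn S)) :
    ∃ τ : Fin r → FormalMap n, (∀ i, τ i * τ i = 1) ∧ (List.ofFn τ).prod = F := by
  have hdet : ∀ i, (S i).det ≠ 0 := by
    intro i h0
    have := congrArg Matrix.det (hS i)
    rw [Matrix.det_mul, h0, mul_zero, Matrix.det_one] at this
    exact zero_ne_one this
  -- states
  let St := {σ : Fin r → FormalMap n // (∀ i, σ i * σ i = 1) ∧ (∀ i, (σ i).lin = S i)}
  have hstep : ∀ (k : ℕ) (s : St), Cong (2 + k) (List.ofFn s.1).prod F →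
      ∃ s' : St, (∀ i, Cong (2 + k) (s'.1 i) (s.1 i)) ∧ Cong (3 + k) (List.ofFn s'.1).prod F := by
    intro k s hs
    obtain ⟨σ', h1, h2, h3⟩ := step k r F s.1 s.2.1 (by
      have : (fun i => (s.1 i).lin) = S := funext s.2.2
      rw [this]
      exact hnc _ (by omega)) hs
    refine ⟨⟨σ', h1, ?_⟩, h2, h3⟩
    intro i
    rw [← s.2.2 i]
    exact Cong.lin_eq ((h2 i).mono (by omega))
  choose! nxt hn1 hn2 using hstep
  have hmul_list : ∀ (m : ℕ) (U : Fin m → Matrix (Fin n) (Fin n) ℂ) (hU : ∀ i, (U i).det ≠ 0),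
      (List.ofFn fun i => ofMat (U i) (hU i)).prod.toFun = tup (List.ofFn U).prod := by
    intro m
    induction m with
    | zero =>
      intro U hU
      simp only [List.ofFn_zero, List.prod_nil]
      rw [one_toFun, tup_one]
    | succ m ih =>
      intro U hU
      rw [List.ofFn_succ, List.ofFn_succ, List.prod_cons, List.prod_cons, mul_toFun,
        ih (fun i => U i.succ) (fun i => hU i.succ), ofMat_toFun, tup_mul]
  let s0 : St := ⟨fun i => ofMat (S i) (hdet i), by
    intro i
    rw [ofMat_mul]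
    apply FormalMap.ext
    rw [ofMat_toFun, hS i, tup_one, one_toFun], by
    intro i
    exact lin_ofMat _ _⟩
  have h0 : Cong (2 + 0) (List.ofFn s0.1).prod F := by
    unfold Cong
    rw [hmul_list, hprod]
    have := lin_decomp F.mem
    have e : tup F.lin - F.toFun = -(F.toFun - tup (linT F.toFun)) := by
      have : F.lin = linT F.toFun := rfl
      rw [this]; abel
    rw [e]
    exact Submodule.neg_mem _ this
  let seq : ℕ → St := fun k => Nat.rec s0 (fun j s => nxt j s) k
  have hseq : ∀ k, Cong (2 + k) (List.ofFn (seq k).1).prod F := by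
    intro k
    induction k with
    | zero => exact h0
    | succ k ih =>
      have := hn2 k (seq k) ih
      have e : 2 + (k + 1) = 3 + k := by omega
      rw [e]
      exact this
  have hseq1 : ∀ k i, Cong (2 + k) ((seq (k + 1)).1 i) ((seq k).1 i) := by
    intro k i
    exact hn1 k (seq k) (hseq k) i
  have hlim : ∀ i, ∃ b : FormalMap n, ∀ k, Cong k b ((seq k).1 i) := by
    intro i
    apply exists_lim
    · intro k
      exact (hseq1 k i).mono (by omega)
    · intro k
      induction k with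
      | zero => exact Cong.refl _
      | succ k ih =>
        exact ((hseq1 k i).mono (by omega)).trans ih
  choose τ hτ using hlim
  refine ⟨τ, ?_, ?_⟩
  · intro i
    apply Cong.eq
    intro k
    have := Cong.mul (hτ i k) (hτ i k)
    rwa [(seq k).2.1 i] at this
  · apply Cong.eq
    intro k
    have h1 : Cong k (List.ofFn τ).prod (List.ofFn (seq k).1).prod :=
      Cong.listProd (fun i => hτ i k)
    exact h1.trans ((hseq k).mono (by omega))

end FormalMap

namespace RevMaps

section weights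
variable {n : ℕ}

/-- weight of an exponent -/
def wt (u : Fin n → ℤ) (m : Fin n →₀ ℕ) : ℤ := ∑ i, (m i : ℤ) * u i

theorem wt_add (u : Fin n → ℤ) (m m' : Fin n →₀ ℕ) : wt u (m + m') = wt u m + wt u m' := by
  simp only [wt, Finsupp.add_apply, Nat.cast_add, add_mul, Finset.sum_add_distrib]

theorem wt_single (u : Fin n → ℤ) (i : Fin n) (k : ℕ) : wt u (Finsupp.single i k) = k * u i := by
  classical
  unfold wt
  rw [Finset.sum_eq_single i]
  · simp
  · intro j _ hj
    rw [Finsupp.single_apply, if_neg (Ne.symm hj)]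
    simp
  · simp

/-- series all of whose monomials have weight at least `w` -/
def FW (u : Fin n → ℤ) (w : ℤ) : Submodule ℂ (PS n) where
  carrier := {a | ∀ m : Fin n →₀ ℕ, wt u m < w → MvPowerSeries.coeff m a = 0}
  zero_mem' := by intro m _; simp
  add_mem' := by
    intro a b ha hb m hm
    rw [map_add, ha m hm, hb m hm, add_zero]
  smul_mem' := by
    intro c a ha m hm
    rw [MvPowerSeries.coeff_smul, ha m hm, mul_zero]

theorem mem_FW {u : Fin n → ℤ} {w : ℤ} {a : PS n} :
    a ∈ FW u w ↔ ∀ m : Fin n →₀ ℕ, wt u m < w → MvPowerSeries.coeff m a = 0 := Iff.rfl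

theorem FW_mono {u : Fin n → ℤ} {w w' : ℤ} (h : w' ≤ w) : FW u w ≤ FW u w' :=
  fun _ ha m hm => ha m (by omega)

theorem FW_mul {u : Fin n → ℤ} {w w' : ℤ} {a b : PS n} (ha : a ∈ FW u w) (hb : b ∈ FW u w') :
    a * b ∈ FW u (w + w') := by
  intro m hm
  rw [MvPowerSeries.coeff_mul]
  apply Finset.sum_eq_zero
  rintro ⟨p, q⟩ hpq
  rw [Finset.HasAntidiagonal.mem_antidiagonal] at hpq
  simp only at hpq ⊢
  rw [← hpq, wt_add] at hm
  by_cases h : wt u p < w
  · rw [ha p h, zero_mul]
  · rw [hb q (by omega), mul_zero]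

theorem monomial_FW (u : Fin n → ℤ) (m : Fin n →₀ ℕ) :
    (MvPowerSeries.monomial m (1 : ℂ) : PS n) ∈ FW u (wt u m) := by
  classical
  intro m' hm'
  rw [MvPowerSeries.coeff_monomial, if_neg]
  rintro rfl
  exact lt_irrefl _ hm'

/-- power of diagonal entries -/
def dpow (d : Fin n → ℂ) (m : Fin n →₀ ℕ) : ℂ := ∏ i, d i ^ (m i)

theorem dpow_add (d : Fin n → ℂ) (m m' : Fin n →₀ ℕ) : dpow d (m + m') = dpow d m * dpow d m' := by
  simp only [dpow, Finsupp.add_apply, pow_add, Finset.prod_mul_distrib]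

theorem dpow_zero (d : Fin n → ℂ) : dpow d 0 = 1 := by simp [dpow]

theorem dpow_single (d : Fin n → ℂ) (i : Fin n) (k : ℕ) :
    dpow d (Finsupp.single i k) = d i ^ k := by
  classical
  unfold dpow
  rw [Finset.prod_eq_single i]
  · simp
  · intro j _ hj
    rw [Finsupp.single_apply, if_neg (Ne.symm hj), pow_zero]
  · simp

theorem tri_mono (u : Fin n → ℤ) (d : Fin n → ℂ) (ρ : PS n →ₐ[ℂ] PS n)
    (h : ∀ i, ρ (MvPowerSeries.X i) - d i • MvPowerSeries.X i ∈ FW u (u i + 1))
    (m : Fin n →₀ ℕ) :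
    ρ (MvPowerSeries.monomial m 1) - dpow d m • MvPowerSeries.monomial m 1 ∈
      FW u (wt u m + 1) := by
  classical
  have hadd : ∀ α β : Fin n →₀ ℕ,
      ρ (MvPowerSeries.monomial α 1) - dpow d α • MvPowerSeries.monomial α 1 ∈
        FW u (wt u α + 1) →
      ρ (MvPowerSeries.monomial β 1) - dpow d β • MvPowerSeries.monomial β 1 ∈
        FW u (wt u β + 1) →
      ρ (MvPowerSeries.monomial (α + β) 1) - dpow d (α + β) • MvPowerSeries.monomial (α + β) 1 ∈
        FW u (wt u (α + β) + 1) := by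
    intro α β hα hβ
    have hβ2 : ρ (MvPowerSeries.monomial β 1) ∈ FW u (wt u β) := by
      have e : ρ (MvPowerSeries.monomial β (1 : ℂ)) = (ρ (MvPowerSeries.monomial β 1) -
        dpow d β • MvPowerSeries.monomial β 1) + dpow d β • MvPowerSeries.monomial β 1 := by ring
      rw [e]
      exact Submodule.add_mem _ (FW_mono (by omega) hβ)
        (Submodule.smul_mem _ _ (monomial_FW u β))
    rw [monomial_add_mul, map_mul, dpow_add, wt_add]
    have e : ρ (MvPowerSeries.monomial α (1 : ℂ)) * ρ (MvPowerSeries.monomial β (1 : ℂ)) -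
        (dpow d α * dpow d β) • (MvPowerSeries.monomial α (1 : ℂ) *
          MvPowerSeries.monomial β (1 : ℂ)) =
        (ρ (MvPowerSeries.monomial α (1 : ℂ)) - dpow d α • MvPowerSeries.monomial α 1) *
          ρ (MvPowerSeries.monomial β (1 : ℂ)) +
        (dpow d α • MvPowerSeries.monomial α 1) * (ρ (MvPowerSeries.monomial β (1 : ℂ)) -
          dpow d β • MvPowerSeries.monomial β 1) := by
      rw [sub_mul, mul_sub, smul_mul_smul_comm]
      ring
    rw [e]
    apply Submodule.add_mem
    · have := FW_mul hα hβ2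
      exact FW_mono (by omega) this
    · have := FW_mul (Submodule.smul_mem _ (dpow d α) (monomial_FW u α)) hβ
      exact FW_mono (by omega) this
  induction m using Finsupp.induction_linear with
  | zero =>
    have h0 : (MvPowerSeries.monomial (0 : Fin n →₀ ℕ) (1 : ℂ) : PS n) = 1 := rfl
    rw [h0, map_one, dpow_zero, one_smul, sub_self]
    exact Submodule.zero_mem _
  | add α β hα hβ => exact hadd α β hα hβ
  | single i k =>
    induction k with
    | zero =>
      rw [Finsupp.single_zero]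
      have h0 : (MvPowerSeries.monomial (0 : Fin n →₀ ℕ) (1 : ℂ) : PS n) = 1 := rfl
      rw [h0, map_one, dpow_zero, one_smul, sub_self]
      exact Submodule.zero_mem _
    | succ k ih =>
      rw [Finsupp.single_add]
      apply hadd _ _ ih
      have := h i
      rw [MvPowerSeries.X_def] at this
      rw [dpow_single, pow_one, wt_single]
      simpa using this

/-- a functional killing `J (k+1)` and the monomials of degree `k` in a set kills what they span -/
theorem fun_vanish (k : ℕ) (φ : PS n →ₗ[ℂ] ℂ) (hφ : ∀ a ∈ J n (k + 1), φ a = 0)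
    (a : PS n) (ha : a ∈ J n k)
    (h : ∀ m : Fin n →₀ ℕ, m.degree = k → MvPowerSeries.coeff m a ≠ 0 →
      φ (MvPowerSeries.monomial m 1) = 0) : φ a = 0 := by
  classical
  obtain ⟨p, hp⟩ := exists_poly (k + 1) a
  have e : a = (a - (p : PS n)) + (p : PS n) := by ring
  rw [e, map_add, hφ _ hp, zero_add, poly_sum, map_sum]
  apply Finset.sum_eq_zero
  intro m hm
  rw [map_smul, smul_eq_mul]
  by_cases h1 : m.degree < k + 1
  · have h2 : MvPowerSeries.coeff m a = p.coeff m := by
      have := hp m h1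
      rw [map_sub, sub_eq_zero, MvPolynomial.coeff_coe] at this
      exact this
    have h3 : MvPowerSeries.coeff m a ≠ 0 := by
      rw [h2]
      exact MvPolynomial.mem_support_iff.mp hm
    have h4 : m.degree = k := by
      by_contra h5
      exact h3 (ha m (by omega))
    rw [h m h4 h3, mul_zero]
  · rw [hφ _ (J_mono (by omega) (monomial_J m)), mul_zero]

/-- one step of the triangular elimination -/
theorem tri_step (k : ℕ) (φ : Fin n → (PS n →ₗ[ℂ] ℂ)) (hφ : ∀ l, ∀ a ∈ J n (k + 1), φ l a = 0)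
    (u : Fin n → ℤ) (M : Matrix (Fin n) (Fin n) ℂ) (hM : ∀ i j, i ≠ j → M i j ≠ 0 → u i < u j)
    (hinv : ∀ l, ∀ a ∈ J n k, φ l (CS (tup M) (tup_mem M) a) = ∑ j, M j l * φ j a)
    (l : Fin n) (m : Fin n →₀ ℕ) (hm : m.degree = k)
    (hres : dpow (fun i => M i i) m ≠ M l l)
    (hhigh : ∀ (l' : Fin n) (m' : Fin n →₀ ℕ), m'.degree = k → wt u m - u l < wt u m' - u l' →
      φ l' (MvPowerSeries.monomial m' 1) = 0) : φ l (MvPowerSeries.monomial m 1) = 0 := by
  classical
  have hmk : (MvPowerSeries.monomial m (1 : ℂ) : PS n) ∈ J n k := by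
    have := monomial_J (n := n) m
    rwa [hm] at this
  have hX : ∀ i, CS (tup M) (tup_mem M) (MvPowerSeries.X i) - M i i • MvPowerSeries.X i ∈
      FW u (u i + 1) := by
    intro i
    rw [CS_X]
    have e : tup M i - M i i • MvPowerSeries.X i =
        ∑ j ∈ Finset.univ.erase i, M i j • (MvPowerSeries.X j : PS n) := by
      have : tup M i = ∑ j, M i j • (MvPowerSeries.X j : PS n) := rfl
      rw [this, ← Finset.add_sum_erase _ _ (Finset.mem_univ i)]
      ring
    rw [e]
    apply Submodule.sum_mem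
    intro j hj
    by_cases h0 : M i j = 0
    · rw [h0, zero_smul]; exact Submodule.zero_mem _
    · have hlt := hM i j (Finset.ne_of_mem_erase hj).symm h0
      apply Submodule.smul_mem
      have := monomial_FW u (Finsupp.single j 1)
      rw [wt_single] at this
      rw [MvPowerSeries.X_def]
      exact FW_mono (by push_cast; omega) this
  have h1 := tri_mono u (fun i => M i i) (CS (tup M) (tup_mem M)) hX m
  have h2 := hinv l _ hmk
  set r := CS (tup M) (tup_mem M) (MvPowerSeries.monomial m 1) -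
    dpow (fun i => M i i) m • MvPowerSeries.monomial m 1 with hr
  have hrk : r ∈ J n k := Ideal.sub_mem _ (CS_J _ _ _ _ hmk) (J_smul _ hmk)
  have hr0 : φ l r = 0 := by
    apply fun_vanish k (φ l) (hφ l) r hrk
    intro m' hm' hc
    apply hhigh l m' hm'
    by_contra hcon
    exact hc (h1 m' (by omega))
  have h3 : CS (tup M) (tup_mem M) (MvPowerSeries.monomial m 1) =
      r + dpow (fun i => M i i) m • MvPowerSeries.monomial m 1 := by rw [hr]; ring
  rw [h3, map_add, hr0, zero_add, map_smul, smul_eq_mul,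
    ← Finset.add_sum_erase _ _ (Finset.mem_univ l)] at h2
  have h4 : ∑ j ∈ Finset.univ.erase l, M j l * φ j (MvPowerSeries.monomial m 1) = 0 := by
    apply Finset.sum_eq_zero
    intro j hj
    by_cases h0 : M j l = 0
    · rw [h0, zero_mul]
    · rw [hhigh j m hm, mul_zero]
      have := hM j l (Finset.ne_of_mem_erase hj) h0
      omega
  rw [h4, add_zero] at h2
  have h5 : (dpow (fun i => M i i) m - M l l) * φ l (MvPowerSeries.monomial m 1) = 0 := by
    rw [sub_mul, h2, sub_self]
  rcases mul_eq_zero.mp h5 with h6 | h6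
  · exact absurd (sub_eq_zero.mp h6) hres
  · exact h6

theorem wt_bound (u : Fin n → ℤ) (m : Fin n →₀ ℕ) : wt u m ≤ m.degree * ∑ i, |u i| := by
  have h1 : (m.degree : ℤ) = ∑ i, (m i : ℤ) := by
    rw [Finsupp.degree_eq_sum]
    push_cast
    rfl
  rw [h1, Finset.sum_mul]
  apply Finset.sum_le_sum
  intro i _
  apply mul_le_mul_of_nonneg_left _ (by positivity)
  calc u i ≤ |u i| := le_abs_self _
    _ ≤ ∑ i, |u i| := Finset.single_le_sum (f := fun i => |u i|) (fun _ _ => abs_nonneg _)
      (Finset.mem_univ i)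

/-- triangular elimination above a weight -/
theorem tri_elim (k : ℕ) (φ : Fin n → (PS n →ₗ[ℂ] ℂ)) (hφ : ∀ l, ∀ a ∈ J n (k + 1), φ l a = 0)
    (u : Fin n → ℤ) (M : Matrix (Fin n) (Fin n) ℂ) (hM : ∀ i j, i ≠ j → M i j ≠ 0 → u i < u j)
    (hinv : ∀ l, ∀ a ∈ J n k, φ l (CS (tup M) (tup_mem M) a) = ∑ j, M j l * φ j a) (w0 : ℤ)
    (hres : ∀ (l : Fin n) (m : Fin n →₀ ℕ), m.degree = k → w0 ≤ wt u m - u l →
      dpow (fun i => M i i) m ≠ M l l) :
    ∀ (l : Fin n) (m : Fin n →₀ ℕ), m.degree = k → w0 ≤ wt u m - u l →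
      φ l (MvPowerSeries.monomial m 1) = 0 := by
  have key : ∀ (N : ℕ) (l : Fin n) (m : Fin n →₀ ℕ), m.degree = k → w0 ≤ wt u m - u l →
      (k : ℤ) * ∑ i, |u i| + ∑ i, |u i| - (wt u m - u l) ≤ N →
      φ l (MvPowerSeries.monomial m 1) = 0 := by
    intro N
    induction N using Nat.strong_induction_on with
    | _ N ih =>
      intro l m hm hw hN
      apply tri_step k φ hφ u M hM hinv l m hm (hres l m hm hw)
      intro l' m' hm' hlt
      have hb := wt_bound u m'
      rw [hm'] at hb
      have hb2 : -u l' ≤ ∑ i, |u i| := by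
        calc -u l' ≤ |u l'| := neg_le_abs _
          _ ≤ ∑ i, |u i| := Finset.single_le_sum (f := fun i => |u i|) (fun _ _ => abs_nonneg _)
            (Finset.mem_univ l')
      have hnn : (0 : ℤ) ≤ (k : ℤ) * ∑ i, |u i| + ∑ i, |u i| - (wt u m' - u l') := by omega
      apply ih ((k : ℤ) * ∑ i, |u i| + ∑ i, |u i| - (wt u m' - u l')).toNat _ l' m' hm' (by omega)
      · rw [Int.toNat_of_nonneg hnn]
      · omega
  intro l m hm hw
  exact key _ l m hm hw (Int.self_le_toNat _)

end weights

end RevMaps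

namespace RevMaps

section resonance
variable {n : ℕ}

/-- the symmetric condition on exponents -/
def Sym (κ : Fin n → ℕ) (l : Fin n) : Prop :=
  ∀ i, κ i + (if i = l.rev then 1 else 0) = κ i.rev + (if i = l then 1 else 0)

/-- the multiplicatively independent symmetric spectrum -/
noncomputable def bb (n : ℕ) (i : Fin n) : ℂ :=
  (Nat.nth Nat.Prime i : ℂ) / (Nat.nth Nat.Prime i.rev : ℂ)

theorem nthp (i : ℕ) : (Nat.nth Nat.Prime i).Prime := Nat.prime_nth_prime i

theorem nthp_ne (i : ℕ) : (Nat.nth Nat.Prime i : ℂ) ≠ 0 := by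
  exact_mod_cast (nthp i).ne_zero

theorem bb_ne_zero (i : Fin n) : bb n i ≠ 0 := div_ne_zero (nthp_ne _) (nthp_ne _)

theorem bb_rev (i : Fin n) : bb n i * bb n i.rev = 1 := by
  unfold bb
  rw [Fin.rev_rev]
  have h1 := nthp_ne i
  have h2 := nthp_ne i.rev
  field_simp

theorem bb_add_one_ne (i : Fin n) : bb n i + 1 ≠ 0 := by
  unfold bb
  have h2 := nthp_ne i.rev
  rw [div_add_one h2]
  apply div_ne_zero _ h2
  have : (Nat.nth Nat.Prime i + Nat.nth Nat.Prime i.rev : ℕ) ≠ 0 := by
    have := (nthp i).pos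
    omega
  exact_mod_cast this

theorem prime_exp (e1 e2 : Fin n → ℕ)
    (h : ∏ i : Fin n, (Nat.nth Nat.Prime i) ^ (e1 i) =
      ∏ i : Fin n, (Nat.nth Nat.Prime i) ^ (e2 i)) : e1 = e2 := by
  have key : ∀ (e : Fin n → ℕ) (j : Fin n),
      (∏ i : Fin n, (Nat.nth Nat.Prime i) ^ (e i)).factorization (Nat.nth Nat.Prime j) = e j := by
    intro e j
    rw [Nat.factorization_prod (S := Finset.univ)
      (g := fun i : Fin n => (Nat.nth Nat.Prime i) ^ (e i))
      (fun i _ => pow_ne_zero _ (nthp i).ne_zero)]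
    rw [Finsupp.finsetSum_apply]
    rw [Finset.sum_eq_single j]
    · rw [(nthp j).factorization_pow, Finsupp.single_eq_same]
    · intro i _ hi
      rw [(nthp i).factorization_pow, Finsupp.single_apply, if_neg]
      intro h2
      have := Nat.nth_injective Nat.infinite_setOf_prime h2
      exact hi (Fin.ext this)
    · simp
  funext j
  rw [← key e1 j, h, key e2 j]

theorem res_sym (m : Fin n →₀ ℕ) (l : Fin n) (h : dpow (bb n) m = bb n l) : Sym (fun i => m i) l := by
  classical
  unfold dpow bb at h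
  simp only [div_pow, Finset.prod_div_distrib] at h
  have hne : (∏ i : Fin n, (Nat.nth Nat.Prime i.rev : ℂ) ^ (m i)) ≠ 0 :=
    Finset.prod_ne_zero_iff.mpr (fun i _ => pow_ne_zero _ (nthp_ne _))
  rw [div_eq_div_iff hne (nthp_ne _)] at h
  have h1 : (∏ i : Fin n, (Nat.nth Nat.Prime i.rev : ℂ) ^ (m i)) =
      ∏ i : Fin n, (Nat.nth Nat.Prime i : ℂ) ^ (m i.rev) := by
    apply Fintype.prod_equiv Fin.revPerm
    intro i
    simp [Fin.revPerm]
  rw [h1] at h
  have h2 : ∏ i : Fin n, (Nat.nth Nat.Prime i) ^ (m i + (if i = l.rev then 1 else 0)) =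
      ∏ i : Fin n, (Nat.nth Nat.Prime i) ^ (m i.rev + (if i = l then 1 else 0)) := by
    simp only [pow_add, Finset.prod_mul_distrib, pow_ite, pow_one, pow_zero, Finset.prod_ite_eq',
      Finset.mem_univ, if_true]
    have : (((∏ i : Fin n, (Nat.nth Nat.Prime i) ^ (m i)) * Nat.nth Nat.Prime l.rev : ℕ) : ℂ) =
        (((∏ i : Fin n, (Nat.nth Nat.Prime i) ^ (m i.rev)) * Nat.nth Nat.Prime l : ℕ) : ℂ) := by
      push_cast
      rw [h]
      ring
    exact_mod_cast this
  have h3 := prime_exp _ _ h2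
  intro i
  exact congrFun h3 i

/-- the principal weights -/
def vv (n : ℕ) (i : Fin n) : ℤ := 2 * (i : ℤ) - ((n : ℤ) - 1)

theorem vv_rev (i : Fin n) : vv n i.rev = - vv n i := by
  unfold vv
  have := i.isLt
  rw [Fin.val_rev]
  omega

theorem sym_wt (m : Fin n →₀ ℕ) (l : Fin n) (h : Sym (fun i => m i) l) : wt (vv n) m = vv n l := by
  classical
  have h1 : ∑ i, ((m i : ℤ) + (if i = l.rev then 1 else 0)) * vv n i =
      ∑ i : Fin n, ((m i.rev : ℤ) + (if i = l then 1 else 0)) * vv n i := by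
    apply Finset.sum_congr rfl
    intro i _
    have := h i
    congr 1
    have h2 : ((m i + (if i = l.rev then 1 else 0) : ℕ) : ℤ) =
      ((m i.rev + (if i = l then 1 else 0) : ℕ) : ℤ) := by rw [this]
    push_cast at h2
    exact h2
  have h2 : ∑ i : Fin n, (m i.rev : ℤ) * vv n i = - ∑ i : Fin n, (m i : ℤ) * vv n i := by
    rw [← Finset.sum_neg_distrib]
    apply Fintype.sum_equiv Fin.revPerm
    intro i
    have := vv_rev i
    simp only [Fin.revPerm_apply, this]
    ring
  simp only [add_mul, Finset.sum_add_distrib, ite_mul, one_mul, zero_mul, Finset.sum_ite_eq',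
    Finset.mem_univ, if_true] at h1
  rw [h2, vv_rev] at h1
  unfold wt
  omega

end resonance

end RevMaps

namespace RevMaps

section solve

/-- forward substitution -/
noncomputable def sol (b x : ℕ → ℂ) : ℕ → ℂ
  | 0 => x 0 / b 0
  | (j + 1) => (x (j + 1) - sol b x j) / b (j + 1)

theorem sol_congr (b x x' : ℕ → ℂ) (i : ℕ) (h : ∀ j, j ≤ i → x j = x' j) :
    sol b x i = sol b x' i := by
  induction i with
  | zero => simp only [sol]; rw [h 0 le_rfl]
  | succ i ih =>
    simp only [sol]
    rw [h (i + 1) le_rfl, ih (fun j hj => h j (by omega))]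

theorem sol_aff (b x : ℕ → ℂ) (hb : ∀ i, b i ≠ 0) (r' : ℕ) (i : ℕ) (hi : r' ≤ i) :
    ∃ A C : ℂ, C ≠ 0 ∧ ∀ t, sol b (Function.update x r' t) i = A + C * t := by
  induction i, hi using Nat.le_induction with
  | base =>
    rcases r' with _ | j
    · refine ⟨0, 1 / b 0, one_div_ne_zero (hb 0), ?_⟩
      intro t
      simp only [sol, Function.update_self]
      ring
    · refine ⟨- sol b x j / b (j + 1), 1 / b (j + 1), one_div_ne_zero (hb _), ?_⟩
      intro t
      simp only [sol, Function.update_self]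
      rw [sol_congr b (Function.update x (j + 1) t) x j (fun i hi => by
        rw [Function.update_of_ne (by omega)])]
      ring
  | succ i hi ih =>
    obtain ⟨A, C, hC, h⟩ := ih
    refine ⟨(x (i + 1) - A) / b (i + 1), - C / b (i + 1), div_ne_zero (neg_ne_zero.mpr hC) (hb _), ?_⟩
    intro t
    simp only [sol]
    rw [h t, Function.update_of_ne (by omega)]
    ring

theorem sol_quad (b w : ℕ → ℂ) (hb : ∀ i, b i ≠ 0) (r' r : ℕ) (hr : r' < r) (h1 : w r ≠ 0)
    (h2 : w r' ≠ 0) : ∃ σ : ℂ, σ ≠ 0 ∧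
      sol b (fun j => (if j = r' then σ else if j = r then σ⁻¹ else 1) * w j) r = 0 := by
  obtain ⟨ρ, rfl⟩ : ∃ ρ, r = ρ + 1 := ⟨r - 1, by omega⟩
  obtain ⟨A, C, hC, hA⟩ := sol_aff b w hb r' ρ (by omega)
  obtain ⟨t, ht⟩ : ∃ t : ℂ, C * (t * t) + A * t + (-(w (ρ + 1) * w r')) = 0 := by
    apply exists_quadratic_eq_zero hC
    obtain ⟨s, hs⟩ := IsAlgClosed.exists_pow_nat_eq (discrim C A (-(w (ρ + 1) * w r'))) (n := 2)
      (by norm_num)
    exact ⟨s, by rw [← hs]; ring⟩
  have ht0 : t ≠ 0 := by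
    rintro rfl
    have : w (ρ + 1) * w r' = 0 := by
      have := ht
      simp only [mul_zero, zero_add, neg_eq_zero] at this
      exact this
    exact (mul_ne_zero h1 h2) this
  refine ⟨t / w r', div_ne_zero ht0 h2, ?_⟩
  simp only [sol]
  rw [sol_congr b _ (Function.update w r' t) ρ (by
    intro j hj
    by_cases h : j = r'
    · subst h
      simp only [if_true, Function.update_self]
      field_simp
    · rw [Function.update_of_ne h, if_neg h, if_neg (by omega), one_mul]), hA t,
    if_neg (by omega)]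
  simp only [if_true]
  rw [div_eq_zero_iff]
  left
  field_simp
  have : w (ρ + 1) * w r' = C * (t * t) + A * t := by
    have := ht
    linear_combination -ht
  linear_combination this

variable {n : ℕ}

/-- the transposed bidiagonal matrix -/
noncomputable def Mop (b y : Fin n → ℂ) : Fin n → ℂ := fun j =>
  b j * y j + (if h : 0 < (j : ℕ) then y ⟨(j : ℕ) - 1, by omega⟩ else 0)

/-- extension by a constant -/
noncomputable def ex (c : ℂ) (x : Fin n → ℂ) : ℕ → ℂ := fun j => if h : j < n then x ⟨j, h⟩ else c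

theorem ex_apply (c : ℂ) (x : Fin n → ℂ) (j : Fin n) : ex c x j = x j := by
  unfold ex
  rw [dif_pos j.isLt]

theorem ex_ne {x : Fin n → ℂ} (hx : ∀ i, x i ≠ 0) (j : ℕ) : ex 1 x j ≠ 0 := by
  unfold ex
  split_ifs
  · exact hx _
  · exact one_ne_zero

theorem Mop_sol (b x : Fin n → ℂ) (hb : ∀ i, b i ≠ 0) :
    Mop b (fun i => sol (ex 1 b) (ex 0 x) i) = x := by
  funext j
  obtain ⟨j, hj⟩ := j
  unfold Mop
  simp only
  rcases j with _ | j
  · simp only [sol, lt_irrefl, dif_neg, not_false_iff, add_zero]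
    have h1 := ex_apply 1 b ⟨0, hj⟩
    have h2 := ex_apply 0 x ⟨0, hj⟩
    simp only at h1 h2
    rw [h1, h2]
    have := hb ⟨0, hj⟩
    field_simp
  · simp only [sol, Nat.succ_pos, dif_pos, Nat.add_sub_cancel]
    have h1 := ex_apply 1 b ⟨j + 1, hj⟩
    have h2 := ex_apply 0 x ⟨j + 1, hj⟩
    simp only at h1 h2
    rw [h1, h2]
    have := hb ⟨j + 1, hj⟩
    field_simp
    ring

theorem sol_after (b x : Fin n → ℂ) (r : Fin n) (h0 : sol (ex 1 b) (ex 0 x) r = 0)
    (hx : ∀ i, r < i → x i = 0) (i : Fin n) (hi : r < i) : sol (ex 1 b) (ex 0 x) i = 0 := by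
  have key : ∀ j : ℕ, (r : ℕ) ≤ j → j < n → sol (ex 1 b) (ex 0 x) j = 0 := by
    intro j hj
    induction j, hj using Nat.le_induction with
    | base => intro _; exact h0
    | succ j hj ih =>
      intro hjn
      simp only [sol]
      rw [ih (by omega)]
      have h2 := ex_apply 0 x ⟨j + 1, hjn⟩
      simp only at h2
      rw [h2, hx ⟨j + 1, hjn⟩ (by
        rw [Fin.lt_def]; simp only; omega)]
      simp
  exact key i (by rw [Fin.lt_def] at hi; omega) i.isLt

/-- the scaling vector -/
noncomputable def tau (r : Fin n) (σ : ℂ) : Fin n → ℂ := fun j =>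
  if j = r.rev then σ else if j = r then σ⁻¹ else 1

theorem quad (b w : Fin n → ℂ) (hb : ∀ i, b i ≠ 0) (r : Fin n) (hr : r.rev < r) (h1 : w r ≠ 0)
    (h2 : w r.rev ≠ 0) : ∃ σ : ℂ, σ ≠ 0 ∧ ∃ y : Fin n → ℂ, Mop b y = (fun j => tau r σ j * w j) ∧
      y r = 0 ∧ ((∀ i, r < i → w i = 0) → ∀ i, r < i → y i = 0) := by
  obtain ⟨σ, hσ, h⟩ := sol_quad (ex 1 b) (ex 0 w) (ex_ne hb) (r.rev : ℕ) (r : ℕ) hr
    (by rw [ex_apply]; exact h1) (by rw [ex_apply]; exact h2)
  have e : ex 0 (fun j => tau r σ j * w j) =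
      fun j => (if j = (r.rev : ℕ) then σ else if j = (r : ℕ) then σ⁻¹ else 1) * ex 0 w j := by
    funext j
    unfold ex
    by_cases hj : j < n
    · rw [dif_pos hj, dif_pos hj]
      show tau r σ ⟨j, hj⟩ * w ⟨j, hj⟩ = _
      unfold tau
      congr 1
      by_cases c1 : j = (r.rev : ℕ)
      · have c1' : (⟨j, hj⟩ : Fin n) = r.rev := Fin.ext c1
        rw [if_pos c1, if_pos c1']
      · have c1' : ¬ (⟨j, hj⟩ : Fin n) = r.rev := fun h => c1 (congrArg Fin.val h)
        rw [if_neg c1, if_neg c1']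
        by_cases c2 : j = (r : ℕ)
        · have c2' : (⟨j, hj⟩ : Fin n) = r := Fin.ext c2
          rw [if_pos c2, if_pos c2']
        · have c2' : ¬ (⟨j, hj⟩ : Fin n) = r := fun h => c2 (congrArg Fin.val h)
          rw [if_neg c2, if_neg c2']
    · rw [dif_neg hj, dif_neg hj, mul_zero]
  refine ⟨σ, hσ, fun i => sol (ex 1 b) (ex 0 (fun j => tau r σ j * w j)) i, Mop_sol b _ hb, ?_, ?_⟩
  · show sol (ex 1 b) (ex 0 (fun j => tau r σ j * w j)) (r : ℕ) = 0
    rw [e]
    exact h
  · intro hw i hi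
    apply sol_after b _ r _ _ i hi
    · rw [e]; exact h
    · intro i hi
      rw [hw i hi, mul_zero]

end solve

end RevMaps

namespace RevMaps

section polyfun

variable {n : ℕ}

/-- polynomial function with prescribed coefficients -/
noncomputable def PF (a : (Fin n → ℕ) → ℂ) (k : ℕ) (y : Fin n → ℂ) : ℂ :=
  ∑ κ ∈ Finset.piAntidiag Finset.univ k, a κ * ∏ i, y i ^ κ i

theorem mem_pi {k : ℕ} {κ : Fin n → ℕ} :
    κ ∈ Finset.piAntidiag (Finset.univ : Finset (Fin n)) k ↔ ∑ i, κ i = k := by
  rw [Finset.mem_piAntidiag]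
  simp

theorem PF_coeff (a : (Fin n → ℕ) → ℂ) (k : ℕ) (q : MvPolynomial (Fin n) ℂ) (hq : q ≠ 0)
    (h : ∀ y, MvPolynomial.eval y q ≠ 0 → PF a k y = 0) (κ : Fin n → ℕ) (hκ : ∑ i, κ i = k) :
    a κ = 0 := by
  classical
  set P : MvPolynomial (Fin n) ℂ := ∑ κ ∈ Finset.piAntidiag Finset.univ k,
    MvPolynomial.monomial (Finsupp.equivFunOnFinite.symm κ) (a κ) with hP
  have heval : ∀ y, MvPolynomial.eval y P = PF a k y := by
    intro y
    rw [hP, map_sum]
    unfold PF
    apply Finset.sum_congr rfl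
    intro κ _
    rw [MvPolynomial.eval_monomial]
    congr 1
    rw [Finsupp.prod_fintype _ _ (fun i => pow_zero _)]
    rfl
  have h0 : q * P = 0 := by
    apply MvPolynomial.funext
    intro y
    rw [map_mul, map_zero, heval]
    by_cases hy : MvPolynomial.eval y q = 0
    · rw [hy, zero_mul]
    · rw [h y hy, mul_zero]
  have hP0 : P = 0 := (mul_eq_zero.mp h0).resolve_left hq
  have h1 : MvPolynomial.coeff (Finsupp.equivFunOnFinite.symm κ) P = a κ := by
    rw [hP, MvPolynomial.coeff_sum, Finset.sum_eq_single κ]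
    · rw [MvPolynomial.coeff_monomial, if_pos rfl]
    · intro κ' _ hne
      rw [MvPolynomial.coeff_monomial, if_neg]
      intro h2
      exact hne (Finsupp.equivFunOnFinite.symm.injective h2)
    · intro h2
      exact absurd (mem_pi.mpr hκ) h2
  rw [← h1, hP0, MvPolynomial.coeff_zero]

theorem tau_prod (r : Fin n) (hr : r.rev ≠ r) (σ : ℂ) (κ : Fin n → ℕ) :
    ∏ i, tau r σ i ^ κ i = σ ^ κ r.rev * (σ⁻¹) ^ κ r := by
  classical
  have e : ∀ i, tau r σ i ^ κ i = (if i = r.rev then σ ^ κ i else 1) *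
      (if i = r then (σ⁻¹) ^ κ i else 1) := by
    intro i
    unfold tau
    by_cases h1 : i = r.rev
    · have h2 : i ≠ r := fun h => hr (h1.symm.trans h)
      rw [if_pos h1, if_pos h1, if_neg h2, mul_one]
    · rw [if_neg h1, if_neg h1, one_mul]
      by_cases h2 : i = r
      · rw [if_pos h2, if_pos h2]
      · rw [if_neg h2, if_neg h2, one_pow]
  simp only [e, Finset.prod_mul_distrib, Finset.prod_ite_eq', Finset.mem_univ, if_true]

theorem PF_scale (a : (Fin n → ℕ) → ℂ) (k : ℕ) (l : Fin n)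
    (hsym : ∀ κ : Fin n → ℕ, ∑ i, κ i = k → a κ ≠ 0 → Sym κ l) (r : Fin n) (hr : r.rev ≠ r)
    (σ : ℂ) (hσ : σ ≠ 0) (w : Fin n → ℂ) (h : PF a k (fun j => tau r σ j * w j) = 0) :
    PF a k w = 0 := by
  have key : PF a k (fun j => tau r σ j * w j) * σ ^ (if r = l then 1 else 0) =
      PF a k w * σ ^ (if r = l.rev then 1 else 0) := by
    unfold PF
    rw [Finset.sum_mul, Finset.sum_mul]
    apply Finset.sum_congr rfl
    intro κ hκ
    by_cases h0 : a κ = 0
    · rw [h0]; simp
    have hs := hsym κ (mem_pi.mp hκ) h0 r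
    simp only [mul_pow, Finset.prod_mul_distrib]
    rw [tau_prod r hr]
    have e : σ ^ κ r.rev * (σ⁻¹) ^ κ r * σ ^ (if r = l then 1 else 0) =
        σ ^ (if r = l.rev then 1 else 0) := by
      have h1 : σ ^ κ r.rev * (σ⁻¹) ^ κ r * σ ^ (if r = l then 1 else 0) =
          (σ⁻¹) ^ κ r * σ ^ (κ r.rev + (if r = l then 1 else 0)) := by
        rw [pow_add]; ring
      rw [h1, ← hs, pow_add, ← mul_assoc, ← mul_pow, inv_mul_cancel₀ hσ, one_pow, one_mul]
    calc a κ * (σ ^ κ r.rev * (σ⁻¹) ^ κ r * ∏ i, w i ^ κ i) * σ ^ (if r = l then 1 else 0) =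
        a κ * (∏ i, w i ^ κ i) * (σ ^ κ r.rev * (σ⁻¹) ^ κ r * σ ^ (if r = l then 1 else 0)) := by
          ring
      _ = _ := by rw [e]
  rw [h, zero_mul] at key
  rcases mul_eq_zero.mp key.symm with h1 | h1
  · exact h1
  · exact absurd h1 (pow_ne_zero _ hσ)

theorem PF_drop (a : (Fin n → ℕ) → ℂ) (k : ℕ) (l : Fin n)
    (hsym : ∀ κ : Fin n → ℕ, ∑ i, κ i = k → a κ ≠ 0 → Sym κ l) (r : Fin n) (hr : r.rev ≠ r)
    (hrl : r ≠ l) (w : Fin n → ℂ) (h0 : w r.rev = 0) :
    PF a k w = PF a k (Function.update w r 0) := by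
  unfold PF
  apply Finset.sum_congr rfl
  intro κ hκ
  by_cases ha : a κ = 0
  · rw [ha]; simp
  have hs := hsym κ (mem_pi.mp hκ) ha r
  rw [if_neg hrl] at hs
  congr 1
  by_cases hk : κ r = 0
  · apply Finset.prod_congr rfl
    intro i _
    by_cases hi : i = r
    · subst hi
      rw [hk, pow_zero, pow_zero]
    · rw [Function.update_of_ne hi]
  · have hk2 : κ r.rev ≠ 0 := by omega
    rw [Finset.prod_eq_zero (Finset.mem_univ r.rev), Finset.prod_eq_zero (Finset.mem_univ r.rev)]
    · rw [Function.update_of_ne hr, h0, zero_pow hk2]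
    · rw [h0, zero_pow hk2]

/-- Lower half: the invariant function vanishes. -/
theorem PF_lower (a : (Fin n → ℕ) → ℂ) (k : ℕ) (hk : 2 ≤ k) (l : Fin n) (hl : l ≤ l.rev)
    (hsym : ∀ κ : Fin n → ℕ, ∑ i, κ i = k → a κ ≠ 0 → Sym κ l) (b : Fin n → ℂ)
    (hb : ∀ i, b i ≠ 0) (hb1 : ∀ i, b i + 1 ≠ 0) (hn : 2 ≤ n)
    (hinv : ∀ y, PF a k (Mop b y) = b l * PF a k y) : ∀ y, PF a k y = 0 := by
  classical
  have hll : 2 * (l : ℕ) ≤ n - 1 := by
    have h1 := Fin.le_def.mp hl
    rw [Fin.val_rev] at h1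
    omega
  have claim : ∀ r : ℕ, n / 2 ≤ r → r ≤ n → ∀ y : Fin n → ℂ, (∀ i : Fin n, r ≤ i → y i = 0) →
      PF a k y = 0 := by
    intro r hr
    induction r, hr using Nat.le_induction with
    | base =>
      intro _ y hy
      unfold PF
      apply Finset.sum_eq_zero
      intro κ hκ
      by_cases ha : a κ = 0
      · rw [ha, zero_mul]
      have hs := hsym κ (mem_pi.mp hκ) ha
      obtain ⟨i, hi1, hi2⟩ : ∃ i : Fin n, n / 2 ≤ i ∧ κ i ≠ 0 := by
        by_contra hcon
        push Not at hcon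
        have h1 : ∀ i, κ i ≤ if i = l then 1 else 0 := by
          intro i
          by_cases hi : n / 2 ≤ (i : ℕ)
          · rw [hcon i hi]; exact Nat.zero_le _
          · have h2 := hcon i.rev (by
              rw [Fin.val_rev]
              have := i.isLt
              omega)
            have h3 := hs i
            rw [h2, zero_add] at h3
            omega
        have h2 : ∑ i, κ i ≤ ∑ i : Fin n, (if i = l then 1 else 0) :=
          Finset.sum_le_sum (fun i _ => h1 i)
        rw [mem_pi.mp hκ] at h2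
        simp at h2
        omega
      rw [Finset.prod_eq_zero (Finset.mem_univ i), mul_zero]
      rw [hy i hi1, zero_pow hi2]
    | succ r hr ih =>
      intro hrn w hw
      have ih' := ih (by omega)
      set R : Fin n := ⟨r, by omega⟩ with hR
      have hrevv : (R.rev : ℕ) = n - 1 - r := by
        rw [Fin.val_rev]
        simp only [hR]
        omega
      have hw' : ∀ i : Fin n, R < i → w i = 0 := by
        intro i hi
        apply hw
        exact hi
      by_cases hcen : R.rev = R
      · -- the centre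
        have h2r : n - 1 - r = r := by
          rw [← hrevv, hcen]
        set y0 : Fin n → ℂ := fun i => if (i : ℕ) < r then 1 else 0 with hy0
        have hP0 : PF a k (Mop b y0) = 0 := by
          rw [hinv, ih' y0 (by
            intro i hi
            simp only [hy0]
            rw [if_neg (by omega)]), mul_zero]
        have hw0gt : ∀ i : Fin n, r < i → Mop b y0 i = 0 := by
          intro i hi
          unfold Mop
          simp only [hy0]
          rw [if_neg (by omega), dif_pos (by omega), if_neg (by omega)]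
          ring
        have hw0le : ∀ i : Fin n, (i : ℕ) ≤ r → Mop b y0 i ≠ 0 := by
          intro i hi
          unfold Mop
          simp only [hy0]
          by_cases h1 : (i : ℕ) < r
          · rw [if_pos h1]
            by_cases h2 : 0 < (i : ℕ)
            · rw [dif_pos h2, if_pos (by omega), mul_one]
              exact hb1 i
            · rw [dif_neg h2, mul_one, add_zero]
              exact hb i
          · rw [if_neg h1, dif_pos (by omega), if_pos (by omega), mul_zero, zero_add]
            exact one_ne_zero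
        have hnone : ∀ κ : Fin n → ℕ, ∑ i, κ i = k → a κ ≠ 0 → (∀ i : Fin n, r < i → κ i = 0) →
            False := by
          intro κ0 hκ0 ha0 hz0
          have hs0 := hsym κ0 hκ0 ha0
          have h3 : PF a k (Mop b y0) = a κ0 * ∏ i, Mop b y0 i ^ κ0 i := by
            unfold PF
            apply Finset.sum_eq_single κ0
            · intro κ hκ hne
              by_cases ha : a κ = 0
              · rw [ha, zero_mul]
              have hs := hsym κ (mem_pi.mp hκ) ha
              by_cases hz : ∀ i : Fin n, r < i → κ i = 0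
              · exfalso
                apply hne
                have h4 : ∀ i : Fin n, i ≠ R → κ i = κ0 i := by
                  intro i hi
                  have hi' : (i : ℕ) ≠ r := fun h => hi (Fin.ext h)
                  by_cases h5 : r < (i : ℕ)
                  · rw [hz i h5, hz0 i h5]
                  · have h6 : r < (i.rev : ℕ) := by
                      rw [Fin.val_rev]; omega
                    have h7 := hs i
                    have h8 := hs0 i
                    rw [hz _ h6] at h7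
                    rw [hz0 _ h6] at h8
                    omega
                have h5 : ∑ i, κ i = ∑ i, κ0 i := by rw [hκ0, mem_pi.mp hκ]
                rw [← Finset.add_sum_erase _ _ (Finset.mem_univ R),
                  ← Finset.add_sum_erase _ _ (Finset.mem_univ R)] at h5
                have h6 : ∑ i ∈ Finset.univ.erase R, κ i = ∑ i ∈ Finset.univ.erase R, κ0 i :=
                  Finset.sum_congr rfl (fun i hi => h4 i (Finset.ne_of_mem_erase hi))
                funext i
                by_cases hi : i = R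
                · rw [hi]; omega
                · exact h4 i hi
              · push Not at hz
                obtain ⟨i, hi1, hi2⟩ := hz
                rw [Finset.prod_eq_zero (Finset.mem_univ i), mul_zero]
                rw [hw0gt i hi1, zero_pow hi2]
            · intro h4
              exact absurd (mem_pi.mpr hκ0) h4
          rw [hP0] at h3
          rcases mul_eq_zero.mp h3.symm with h4 | h4
          · exact ha0 h4
          · rw [Finset.prod_eq_zero_iff] at h4
            obtain ⟨i, _, hi⟩ := h4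
            by_cases h5 : r < (i : ℕ)
            · rw [hz0 i h5, pow_zero] at hi
              exact one_ne_zero hi
            · have h6 : κ0 i ≠ 0 := by
                intro h6
                rw [h6, pow_zero] at hi
                exact one_ne_zero hi
              exact hw0le i (by omega) ((pow_eq_zero_iff h6).mp hi)
        unfold PF
        apply Finset.sum_eq_zero
        intro κ hκ
        by_cases ha : a κ = 0
        · rw [ha, zero_mul]
        by_cases hz : ∀ i : Fin n, r < i → κ i = 0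
        · exact (hnone κ (mem_pi.mp hκ) ha hz).elim
        · push Not at hz
          obtain ⟨i, hi1, hi2⟩ := hz
          rw [Finset.prod_eq_zero (Finset.mem_univ i), mul_zero]
          rw [hw i hi1, zero_pow hi2]
      · have hlt : R.rev < R := by
          rw [Fin.lt_def, hrevv]
          simp only [hR]
          have : n - 1 - r ≠ r := by
            intro h
            apply hcen
            apply Fin.ext
            rw [hrevv, h]
          omega
        have hRl : R ≠ l := by
          intro h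
          have : (R : ℕ) = l := by rw [h]
          have h2 : (R : ℕ) = r := rfl
          rw [Fin.lt_def, hrevv] at hlt
          omega
        by_cases h1 : w R = 0
        · apply ih'
          intro i hi
          by_cases hi2 : i = R
          · rw [hi2, h1]
          · apply hw
            have : (i : ℕ) ≠ r := fun h => hi2 (Fin.ext h)
            omega
        by_cases h2 : w R.rev = 0
        · rw [PF_drop a k l hsym R hcen hRl w h2]
          apply ih'
          intro i hi
          by_cases hi2 : i = R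
          · rw [hi2, Function.update_self]
          · rw [Function.update_of_ne hi2]
            apply hw
            have : (i : ℕ) ≠ r := fun h => hi2 (Fin.ext h)
            omega
        · obtain ⟨σ, hσ, y, hy1, hy2, hy3⟩ := quad b w hb R hlt h1 h2
          apply PF_scale a k l hsym R hcen σ hσ
          rw [← hy1, hinv, ih', mul_zero]
          intro i hi
          by_cases hi2 : i = R
          · rw [hi2, hy2]
          · apply hy3 hw'
            rw [Fin.lt_def]
            have : (i : ℕ) ≠ r := fun h => hi2 (Fin.ext h)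
            simp only [hR]
            omega
  intro y
  apply claim n (by omega) le_rfl y
  intro i hi
  exact absurd i.isLt (by omega)

/-- Upper half. -/
theorem PF_upper (a : (Fin n → ℕ) → ℂ) (k : ℕ) (l : Fin n) (hl : l.rev < l)
    (hsym : ∀ κ : Fin n → ℕ, ∑ i, κ i = k → a κ ≠ 0 → Sym κ l) (b : Fin n → ℂ)
    (hb : ∀ i, b i ≠ 0)
    (hinv : ∀ y, PF a k (Mop b y) = b l * PF a k y) :
    ∀ κ : Fin n → ℕ, ∑ i, κ i = k → a κ = 0 := by
  have hne : l.rev ≠ l := ne_of_lt hl
  apply PF_coeff a k (MvPolynomial.X l * MvPolynomial.X l.rev)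
    (mul_ne_zero (MvPolynomial.X_ne_zero _) (MvPolynomial.X_ne_zero _))
  intro w hw
  rw [map_mul, MvPolynomial.eval_X, MvPolynomial.eval_X] at hw
  have h1 := left_ne_zero_of_mul hw
  have h2 := right_ne_zero_of_mul hw
  obtain ⟨σ, hσ, y, hy1, hy2, hy3⟩ := quad b w hb l hl h1 h2
  apply PF_scale a k l hsym l hne σ hσ
  rw [← hy1, hinv]
  have : PF a k y = 0 := by
    unfold PF
    apply Finset.sum_eq_zero
    intro κ hκ
    by_cases ha : a κ = 0
    · rw [ha, zero_mul]
    have hs := hsym κ (mem_pi.mp hκ) ha l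
    rw [if_neg hne.symm, if_pos rfl] at hs
    rw [Finset.prod_eq_zero (Finset.mem_univ l), mul_zero]
    rw [hy2, zero_pow (by omega)]
  rw [this, mul_zero]

end polyfun

end RevMaps

namespace FormalMap

open RevMaps

variable {n : ℕ}

/-- component functionals -/
noncomputable def comp (φ : T n →ₗ[ℂ] ℂ) (l : Fin n) : PS n →ₗ[ℂ] ℂ :=
  φ ∘ₗ LinearMap.single ℂ (fun _ : Fin n => PS n) l

theorem comp_apply (φ : T n →ₗ[ℂ] ℂ) (l : Fin n) (a : PS n) : comp φ l a = φ (Pi.single l a) := rfl

theorem sum_comp (φ : T n →ₗ[ℂ] ℂ) (v : T n) : φ v = ∑ l, comp φ l (v l) := by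
  conv_lhs => rw [← Finset.univ_sum_single v]
  rw [map_sum]
  rfl

theorem single_mem {k : ℕ} {a : PS n} (ha : a ∈ J n k) (l : Fin n) :
    (Pi.single l a : T n) ∈ TJ n k := by
  intro i
  by_cases h : i = l
  · subst h; rw [Pi.single_eq_same]; exact ha
  · rw [Pi.single_eq_of_ne h]; exact Ideal.zero_mem _

theorem star (k : ℕ) (φ : T n →ₗ[ℂ] ℂ) (M : Matrix (Fin n) (Fin n) ℂ) (hM : M.det ≠ 0)
    (h : ∀ v ∈ TJ n k, φ (Ad M v) = φ v) (l : Fin n) (a : PS n) (ha : a ∈ J n k) :
    comp φ l (CS (tup M) (tup_mem M) a) = ∑ j, M j l * comp φ j a := by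
  classical
  have hu : IsUnit M.det := isUnit_iff_ne_zero.mpr hM
  have e1 : cmp (Pi.single l a : T n) (tup M) = Pi.single l (CS (tup M) (tup_mem M) a) := by
    rw [cmp_eq _ (tup_mem M)]
    funext i
    by_cases hi : i = l
    · subst hi; rw [Pi.single_eq_same, Pi.single_eq_same]
    · rw [Pi.single_eq_of_ne hi, Pi.single_eq_of_ne hi, map_zero]
  have h1 := h (cmp (Pi.single l a : T n) (tup M)) (cmp_mem (single_mem ha l) (tup_mem M))
  have e2 : Ad M (cmp (Pi.single l a : T n) (tup M)) = act M (Pi.single l a) := by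
    unfold Ad
    rw [cmp_assoc _ (tup_mem M) (tup_mem _), tup_mul, Matrix.mul_nonsing_inv _ hu, tup_one,
      cmp_idt]
  rw [e2, e1] at h1
  rw [comp_apply, ← h1, sum_comp]
  apply Finset.sum_congr rfl
  intro j _
  have e3 : act M (Pi.single l a : T n) j = M j l • a := by
    unfold act
    rw [Finset.sum_eq_single l]
    · rw [Pi.single_eq_same]
    · intro i _ hi
      rw [Pi.single_eq_of_ne hi, smul_zero]
    · simp
  rw [e3, map_smul, smul_eq_mul]

/-- the bidiagonal matrix -/
noncomputable def Bm (n : ℕ) : Matrix (Fin n) (Fin n) ℂ :=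
  Matrix.of fun i j => if i = j then bb n j else if (i : ℕ) + 1 = j then 1 else 0

theorem Bm_apply (i j : Fin n) : Bm n i j = if i = j then bb n j else
    if (i : ℕ) + 1 = j then 1 else 0 := rfl

theorem Bm_sum (y : Fin n → ℂ) (j : Fin n) : ∑ i, Bm n i j * y i = Mop (bb n) y j := by
  classical
  unfold Mop
  rw [← Finset.add_sum_erase _ _ (Finset.mem_univ j), Bm_apply, if_pos rfl]
  congr 1
  by_cases h : 0 < (j : ℕ)
  · rw [dif_pos h]
    rw [Finset.sum_eq_single ⟨(j : ℕ) - 1, by omega⟩]
    · rw [Bm_apply, if_neg, if_pos, one_mul]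
      · simp only; omega
      · intro h2
        have := congrArg Fin.val h2
        simp only at this
        omega
    · intro i hi hi2
      have h3 := Finset.ne_of_mem_erase hi
      rw [Bm_apply, if_neg h3, if_neg, zero_mul]
      intro h4
      apply hi2
      apply Fin.ext
      simp only
      omega
    · intro h2
      exfalso
      apply h2
      rw [Finset.mem_erase]
      refine ⟨?_, Finset.mem_univ _⟩
      intro h3
      have := congrArg Fin.val h3
      simp only at this
      omega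
  · rw [dif_neg h]
    apply Finset.sum_eq_zero
    intro i hi
    have h3 := Finset.ne_of_mem_erase hi
    rw [Bm_apply, if_neg h3, if_neg (by omega), zero_mul]

theorem Gfun (k : ℕ) (ψ : PS n →ₗ[ℂ] ℂ) (y : Fin n → ℂ) :
    ψ ((∑ i, y i • (MvPowerSeries.X i : PS n)) ^ k) =
      PF (fun κ => (Nat.multinomial Finset.univ κ : ℂ) *
        ψ (MvPowerSeries.monomial (Finsupp.equivFunOnFinite.symm κ) 1)) k y := by
  classical
  rw [Finset.sum_pow_eq_sum_piAntidiag, map_sum]
  unfold PF
  apply Finset.sum_congr rfl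
  intro κ _
  have e1 : ∏ i, (y i • (MvPowerSeries.X i : PS n)) ^ κ i =
      (∏ i, y i ^ κ i) • (MvPowerSeries.monomial (Finsupp.equivFunOnFinite.symm κ) (1 : ℂ)) := by
    have e2 : (MvPowerSeries.monomial (Finsupp.equivFunOnFinite.symm κ) (1 : ℂ) : PS n) =
        ∏ i, (MvPowerSeries.X i : PS n) ^ κ i := by
      have h1 := MvPowerSeries.monomial_one_eq (R := ℂ) (Finsupp.equivFunOnFinite.symm κ)
      rw [h1, Finsupp.prod_fintype _ _ (fun i => pow_zero _)]
      rfl
    rw [e2]
    simp only [smul_pow]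
    rw [Finset.prod_smul]
  rw [e1]
  have e3 : (Nat.multinomial Finset.univ κ : PS n) * ((∏ i, y i ^ κ i) •
      (MvPowerSeries.monomial (Finsupp.equivFunOnFinite.symm κ) (1 : ℂ))) =
      ((Nat.multinomial Finset.univ κ : ℂ) * (∏ i, y i ^ κ i)) •
      (MvPowerSeries.monomial (Finsupp.equivFunOnFinite.symm κ) (1 : ℂ) : PS n) := by
    rw [mul_smul_comm, mul_comm (Nat.multinomial Finset.univ κ : ℂ) _, mul_smul,
      Nat.cast_smul_eq_nsmul, nsmul_eq_mul]
  rw [e3, map_smul, smul_eq_mul]
  ring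

theorem nocov_BC (hn : 2 ≤ n) (k : ℕ) (hk : 2 ≤ k) (C : Matrix (Fin n) (Fin n) ℂ)
    (hBdet : (Bm n).det ≠ 0) (hCdet : C.det ≠ 0)
    (hC : ∀ i j, i < j → C i j = 0) (hCd : ∀ i, C i i = bb n i)
    (φ : T n →ₗ[ℂ] ℂ) (hφ : ∀ v ∈ TJ n (k + 1), φ v = 0)
    (hB1 : ∀ v ∈ TJ n k, φ (Ad (Bm n) v) = φ v) (hC1 : ∀ v ∈ TJ n k, φ (Ad C v) = φ v) :
    ∀ v ∈ TJ n k, φ v = 0 := by
  classical
  have h0 : ∀ l, ∀ a ∈ J n (k + 1), comp φ l a = 0 := fun l a ha => hφ _ (single_mem ha l)
  have sB := star k φ (Bm n) hBdet hB1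
  have sC := star k φ C hCdet hC1
  have hBm : ∀ i j, i ≠ j → Bm n i j ≠ 0 → vv n i < vv n j := by
    intro i j hij h
    rw [Bm_apply, if_neg hij] at h
    by_cases h2 : (i : ℕ) + 1 = j
    · unfold vv
      omega
    · rw [if_neg h2] at h
      exact absurd rfl h
  have hBd : (fun i => Bm n i i) = bb n := by
    funext i
    rw [Bm_apply, if_pos rfl]
  have hCd' : (fun i => C i i) = bb n := funext hCd
  -- positive weights
  have pos := tri_elim k (comp φ) h0 (vv n) (Bm n) hBm sB 1 (by
    intro l m hm hw heq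
    rw [hBd, Bm_apply, if_pos rfl] at heq
    have := sym_wt m l (res_sym m l heq)
    omega)
  have negwt : ∀ m : Fin n →₀ ℕ, wt (fun i => - vv n i) m = - wt (vv n) m := by
    intro m
    unfold wt
    rw [← Finset.sum_neg_distrib]
    apply Finset.sum_congr rfl
    intro i _
    ring
  have neg := tri_elim k (comp φ) h0 (fun i => - vv n i) C (by
    intro i j hij h
    have hlt : j < i := by
      by_contra hcon
      exact h (hC i j (lt_of_le_of_ne (not_lt.mp hcon) hij))
    rw [Fin.lt_def] at hlt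
    unfold vv
    omega) sC 1 (by
    intro l m hm hw heq
    rw [hCd', hCd] at heq
    have := sym_wt m l (res_sym m l heq)
    rw [negwt] at hw
    omega)
  have hsym : ∀ (l : Fin n) (m : Fin n →₀ ℕ), m.degree = k →
      comp φ l (MvPowerSeries.monomial m 1) ≠ 0 → RevMaps.Sym (fun i => m i) l := by
    intro l m hm hne
    by_contra hns
    apply hne
    have hres : dpow (fun i => Bm n i i) m ≠ Bm n l l := by
      rw [hBd, Bm_apply, if_pos rfl]
      intro h
      exact hns (res_sym m l h)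
    by_cases hw : wt (vv n) m - vv n l ≤ -1
    · apply neg l m hm
      rw [negwt]
      omega
    · apply tri_step k (comp φ) h0 (vv n) (Bm n) hBm sB l m hm hres
      intro l' m' hm' hlt
      exact pos l' m' hm' (by omega)
  -- the functions
  set a : Fin n → (Fin n → ℕ) → ℂ := fun l κ => (Nat.multinomial Finset.univ κ : ℂ) *
        comp φ l (MvPowerSeries.monomial (Finsupp.equivFunOnFinite.symm κ) 1) with ha
  have hG : ∀ l y, comp φ l ((∑ i, y i • (MvPowerSeries.X i : PS n)) ^ k) = PF (a l) k y :=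
    fun l y => Gfun k (comp φ l) y
  have hsym2 : ∀ (l : Fin n) (κ : Fin n → ℕ), ∑ i, κ i = k → a l κ ≠ 0 → RevMaps.Sym κ l := by
    intro l κ hκ hne
    have := hsym l (Finsupp.equivFunOnFinite.symm κ) (by
      rw [Finsupp.degree_eq_sum]
      exact hκ) (right_ne_zero_of_mul hne)
    exact this
  have hinv : ∀ (l : Fin n) (y : Fin n → ℂ), PF (a l) k (Mop (bb n) y) =
      bb n l * PF (a l) k y + (if h : 0 < (l : ℕ) then PF (a ⟨(l : ℕ) - 1, by omega⟩) k y else 0) := by
    intro l y
    have hlinJ : (∑ i, y i • (MvPowerSeries.X i : PS n)) ∈ J n 1 := by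
      apply Ideal.sum_mem
      intro i _
      exact J_smul _ (X_mem_J i)
    have hpowJ : ∀ m : ℕ, (∑ i, y i • (MvPowerSeries.X i : PS n)) ^ m ∈ J n m := by
      intro m
      induction m with
      | zero => exact J_zero _
      | succ m ih =>
        rw [pow_succ]
        exact J_mul ih hlinJ
    have h1 := sB l _ (hpowJ k)
    have h2 : CS (tup (Bm n)) (tup_mem _) ((∑ i, y i • (MvPowerSeries.X i : PS n)) ^ k) =
        (∑ j, (Mop (bb n) y j) • (MvPowerSeries.X j : PS n)) ^ k := by
      rw [map_pow, map_sum]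
      congr 1
      have h3 : ∀ i, CS (tup (Bm n)) (tup_mem _) (y i • (MvPowerSeries.X i : PS n)) =
          ∑ j, (Bm n i j * y i) • (MvPowerSeries.X j : PS n) := by
        intro i
        rw [map_smul, CS_X]
        have : tup (Bm n) i = ∑ j, Bm n i j • (MvPowerSeries.X j : PS n) := rfl
        rw [this, Finset.smul_sum]
        apply Finset.sum_congr rfl
        intro j _
        rw [smul_smul, mul_comm]
      simp only [h3]
      rw [Finset.sum_comm]
      apply Finset.sum_congr rfl
      intro j _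
      rw [← Finset.sum_smul, Bm_sum]
    rw [h2, hG] at h1
    rw [h1]
    have h4 : ∑ j, Bm n j l * comp φ j ((∑ i, y i • (MvPowerSeries.X i : PS n)) ^ k) =
        ∑ j, Bm n j l * PF (a j) k y := by
      apply Finset.sum_congr rfl
      intro j _
      rw [hG]
    rw [h4, Bm_sum (fun j => PF (a j) k y) l]
    rfl
  have hall : ∀ (N : ℕ) (l : Fin n), (l : ℕ) = N → ∀ κ : Fin n → ℕ, ∑ i, κ i = k → a l κ = 0 := by
    intro N
    induction N with
    | zero =>
      intro l hl
      have hinv' : ∀ y, PF (a l) k (Mop (bb n) y) = bb n l * PF (a l) k y := by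
        intro y
        rw [hinv, dif_neg (by omega), add_zero]
      have := PF_lower (a l) k hk l (by rw [Fin.le_def, hl]; exact Nat.zero_le _) (hsym2 l)
        (bb n) bb_ne_zero bb_add_one_ne hn hinv'
      exact PF_coeff (a l) k 1 one_ne_zero (fun y _ => this y)
    | succ N ih =>
      intro l hl
      have hinv' : ∀ y, PF (a l) k (Mop (bb n) y) = bb n l * PF (a l) k y := by
        intro y
        rw [hinv, dif_pos (by omega)]
        have h1 := ih ⟨(l : ℕ) - 1, by omega⟩ (by simp only; omega)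
        have h2 : PF (a ⟨(l : ℕ) - 1, by omega⟩) k y = 0 := by
          unfold PF
          apply Finset.sum_eq_zero
          intro κ hκ
          rw [h1 κ (mem_pi.mp hκ), zero_mul]
        rw [h2, add_zero]
      by_cases hle : l ≤ l.rev
      · have := PF_lower (a l) k hk l hle (hsym2 l)
          (bb n) bb_ne_zero bb_add_one_ne hn hinv'
        exact PF_coeff (a l) k 1 one_ne_zero (fun y _ => this y)
      · exact PF_upper (a l) k l (not_le.mp hle) (hsym2 l) (bb n) bb_ne_zero hinv'
  have hmono : ∀ (l : Fin n) (m : Fin n →₀ ℕ), m.degree = k →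
      comp φ l (MvPowerSeries.monomial m 1) = 0 := by
    intro l m hm
    have h1 := hall l l rfl (fun i => m i) (by rw [← Finsupp.degree_eq_sum]; exact hm)
    have h2 : Finsupp.equivFunOnFinite.symm (fun i => m i) = m := by
      ext i; rfl
    simp only [ha, h2] at h1
    rcases mul_eq_zero.mp h1 with h3 | h3
    · exfalso
      have := Nat.multinomial_pos (s := Finset.univ) (f := fun i => m i)
      have h4 : Nat.multinomial Finset.univ (fun i => m i) = 0 := by exact_mod_cast h3
      omega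
    · exact h3
  intro v hv
  rw [sum_comp]
  apply Finset.sum_eq_zero
  intro l _
  exact fun_vanish k (comp φ l) (h0 l) (v l) (hv l) (fun m hm _ => hmono l m hm)

end FormalMap

namespace RevLin

open Matrix

/-- a lower triangular basis for an endomorphism -/
theorem triang_end : ∀ (n : ℕ) (V : Type) [AddCommGroup V] [Module ℂ V] [FiniteDimensional ℂ V]
    (_ : Module.finrank ℂ V = n) (t : V →ₗ[ℂ] V),
    ∃ b : Module.Basis (Fin n) ℂ V, ∀ i j, i < j → b.repr (t (b j)) i = 0 := by
  intro n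
  induction n with
  | zero =>
    intro V _ _ _ hV t
    exact ⟨Module.finBasisOfFinrankEq ℂ V hV, fun i => i.elim0⟩
  | succ n ih =>
    intro V _ _ _ hV t
    have hnt : Nontrivial V := Module.nontrivial_of_finrank_pos (R := ℂ) (by omega)
    obtain ⟨μ, hμ⟩ := Module.End.exists_eigenvalue t
    set u : V →ₗ[ℂ] V := t - μ • LinearMap.id with hu
    have hker : LinearMap.ker u ≠ ⊥ := by
      obtain ⟨v, hv⟩ := hμ.exists_hasEigenvector
      intro h
      apply hv.2
      have : v ∈ LinearMap.ker u := by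
        rw [LinearMap.mem_ker, hu]
        simp only [LinearMap.sub_apply, LinearMap.smul_apply, LinearMap.id_apply]
        rw [hv.apply_eq_smul, sub_self]
      rw [h] at this
      exact (Submodule.mem_bot ℂ).mp this
    have hrange : LinearMap.range u ≠ ⊤ := by
      intro h
      exact hker (LinearMap.ker_eq_bot_iff_range_eq_top.mpr h)
    obtain ⟨φ, hφ0, hφ⟩ := Submodule.exists_le_ker_of_lt_top _ (lt_top_iff_ne_top.mpr hrange)
    set H := LinearMap.ker φ with hH
    have htH : ∀ x ∈ H, t x ∈ H := by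
      intro x hx
      have h1 : u x ∈ H := hφ (LinearMap.mem_range_self u x)
      have h2 : t x = u x + μ • x := by
        rw [hu]
        simp
      rw [h2]
      exact Submodule.add_mem _ h1 (Submodule.smul_mem _ _ hx)
    have hfin : Module.finrank ℂ H = n := by
      have h1 := LinearMap.finrank_range_add_finrank_ker φ
      have h2 : LinearMap.range φ = ⊤ := LinearMap.range_eq_top.mpr
        (LinearMap.surjective_of_ne_zero hφ0)
      rw [h2, finrank_top, Module.finrank_self, hV] at h1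
      have h3 : Module.finrank ℂ H = Module.finrank ℂ (LinearMap.ker φ) := rfl
      omega
    obtain ⟨b, hb⟩ := ih H hfin (t.restrict htH)
    obtain ⟨y, hy⟩ : ∃ y, φ y ≠ 0 := by
      by_contra hcon
      push Not at hcon
      exact hφ0 (LinearMap.ext hcon)
    set B := Module.Basis.mkFinCons y b (by
      intro c x hx hc
      have h1 := congrArg φ hc
      rw [map_add, map_smul, LinearMap.mem_ker.mp hx, add_zero, map_zero, smul_eq_mul] at h1
      exact (mul_eq_zero.mp h1).resolve_right hy) (by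
      intro z
      refine ⟨-(φ z / φ y), ?_⟩
      rw [hH, LinearMap.mem_ker, map_add, map_smul, smul_eq_mul]
      field_simp
      ring) with hB
    have hB0 : B 0 = y := by
      rw [hB, Module.Basis.coe_mkFinCons]
      rfl
    have hBs : ∀ i : Fin n, B i.succ = (b i : V) := by
      intro i
      rw [hB, Module.Basis.coe_mkFinCons]
      rfl
    refine ⟨B, ?_⟩
    intro i j hij
    obtain ⟨j', rfl⟩ : ∃ j' : Fin n, j = j'.succ := ⟨j.pred (by
      rintro rfl
      exact absurd hij (Fin.not_lt_zero i)), by simp⟩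
    rw [hBs]
    have h1 : t (b j' : V) = ∑ i' : Fin n, (b.repr (t.restrict htH (b j')) i') • B i'.succ := by
      have h2 := b.sum_repr (t.restrict htH (b j'))
      have h3 := congrArg (fun x : H => (x : V)) h2
      simp only [Submodule.coe_sum, Submodule.coe_smul] at h3
      have h4 : ((t.restrict htH (b j') : H) : V) = t (b j' : V) := rfl
      rw [h4] at h3
      rw [← h3]
      apply Finset.sum_congr rfl
      intro i' _
      rw [hBs]
    rw [h1, map_sum, Finsupp.finsetSum_apply]
    apply Finset.sum_eq_zero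
    intro i' _
    rw [map_smul, Finsupp.smul_apply, Module.Basis.repr_self, Finsupp.single_apply]
    by_cases h : i'.succ = i
    · rw [if_pos h, smul_eq_mul, mul_one]
      apply hb
      rw [← h] at hij
      exact Fin.succ_lt_succ_iff.mp hij
    · rw [if_neg h, smul_zero]

variable {n : ℕ}

theorem cols_unit (v : Fin n → (Fin n → ℂ)) (h : LinearIndependent ℂ v) :
    IsUnit (Matrix.of fun i j => v j i : Matrix (Fin n) (Fin n) ℂ) := by
  rw [← Matrix.linearIndependent_cols_iff_isUnit]
  exact h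

/-- lower triangular form of a matrix -/
theorem triang (L : Matrix (Fin n) (Fin n) ℂ) : ∃ P U : Matrix (Fin n) (Fin n) ℂ,
    IsUnit P ∧ L * P = P * U ∧ ∀ i j, i < j → U i j = 0 := by
  obtain ⟨b, hb⟩ := triang_end n (Fin n → ℂ) (by simp) (Matrix.toLin' L)
  refine ⟨Matrix.of fun i j => b j i, Matrix.of fun i j => b.repr (Matrix.toLin' L (b j)) i,
    cols_unit _ b.linearIndependent, ?_, ?_⟩
  · ext k j
    have h1 := b.sum_repr (Matrix.toLin' L (b j))
    have h2 := congrFun h1 k
    rw [Finset.sum_apply] at h2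
    simp only [Pi.smul_apply, smul_eq_mul] at h2
    simp only [Matrix.mul_apply, Matrix.of_apply]
    have h3 : ∑ x, L k x * b j x = Matrix.toLin' L (b j) k := by
      rw [Matrix.toLin'_apply]
      rfl
    rw [h3, ← h2]
    apply Finset.sum_congr rfl
    intro i _
    ring
  · intro i j hij
    exact hb i j hij

/-- the reversal matrix -/
def Rv (n : ℕ) : Matrix (Fin n) (Fin n) ℂ := Matrix.of fun i j => if i = j.rev then 1 else 0

theorem Rv_apply (i j : Fin n) : Rv n i j = if i = j.rev then 1 else 0 := rfl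

theorem Rv_mul (M : Matrix (Fin n) (Fin n) ℂ) (i j : Fin n) : (Rv n * M) i j = M i.rev j := by
  rw [Matrix.mul_apply, Finset.sum_eq_single i.rev]
  · rw [Rv_apply, Fin.rev_rev, if_pos rfl, one_mul]
  · intro k _ hk
    rw [Rv_apply, if_neg, zero_mul]
    intro h
    apply hk
    rw [h, Fin.rev_rev]
  · simp

theorem Rv_sq : Rv n * Rv n = 1 := by
  ext i j
  rw [Rv_mul, Rv_apply, Matrix.one_apply]
  by_cases h : i = j
  · rw [h, if_pos rfl, if_pos rfl]
  · rw [if_neg h, if_neg]
    intro h2
    exact h (Fin.rev_injective h2)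

/-- A product of two involutions. -/
def I2 (M : Matrix (Fin n) (Fin n) ℂ) : Prop :=
  ∃ s t : Matrix (Fin n) (Fin n) ℂ, s * s = 1 ∧ t * t = 1 ∧ s * t = M

theorem I2.conj {M N Q : Matrix (Fin n) (Fin n) ℂ} (hM : I2 M) (hQ : IsUnit Q)
    (h : N * Q = Q * M) : I2 N := by
  obtain ⟨s, t, hs, ht, hst⟩ := hM
  have hd : IsUnit Q.det := (Matrix.isUnit_iff_isUnit_det Q).mp hQ
  have e1 : Q⁻¹ * Q = 1 := Matrix.nonsing_inv_mul Q hd
  have e2 : Q * Q⁻¹ = 1 := Matrix.mul_nonsing_inv Q hd
  refine ⟨Q * s * Q⁻¹, Q * t * Q⁻¹, ?_, ?_, ?_⟩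
  · calc Q * s * Q⁻¹ * (Q * s * Q⁻¹) = Q * s * (Q⁻¹ * Q) * s * Q⁻¹ := by simp only [mul_assoc]
      _ = Q * (s * s) * Q⁻¹ := by rw [e1, mul_one]; simp only [mul_assoc]
      _ = 1 := by rw [hs, mul_one, e2]
  · calc Q * t * Q⁻¹ * (Q * t * Q⁻¹) = Q * t * (Q⁻¹ * Q) * t * Q⁻¹ := by simp only [mul_assoc]
      _ = Q * (t * t) * Q⁻¹ := by rw [e1, mul_one]; simp only [mul_assoc]
      _ = 1 := by rw [ht, mul_one, e2]
  · calc Q * s * Q⁻¹ * (Q * t * Q⁻¹) = Q * s * (Q⁻¹ * Q) * t * Q⁻¹ := by simp only [mul_assoc]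
      _ = Q * (s * t) * Q⁻¹ := by rw [e1, mul_one]; simp only [mul_assoc]
      _ = Q * M * Q⁻¹ := by rw [hst]
      _ = N * (Q * Q⁻¹) := by rw [← h]; simp only [mul_assoc]
      _ = N := by rw [e2, mul_one]

theorem I2.diag (d : Fin n → ℂ) (hd : ∀ i, d i * d i.rev = 1) : I2 (Matrix.diagonal d) := by
  refine ⟨Rv n, Rv n * Matrix.diagonal d, Rv_sq, ?_, ?_⟩
  · ext i j
    rw [mul_assoc, Rv_mul, Matrix.mul_apply, Finset.sum_eq_single i.rev]
    · rw [Matrix.diagonal_apply_eq, Rv_mul, Fin.rev_rev, Matrix.diagonal_apply, Matrix.one_apply]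
      by_cases h : i = j
      · subst h
        rw [if_pos rfl, if_pos rfl, mul_comm]
        exact hd i
      · rw [if_neg h, if_neg h, mul_zero]
    · intro k _ hk
      rw [Matrix.diagonal_apply_ne _ (Ne.symm hk), zero_mul]
    · simp
  · rw [← mul_assoc, Rv_sq, one_mul]

/-- A matrix with distinct eigenvalues `d i` with `d i * d (rev i) = 1` is a product of
two involutions. -/
theorem I2.of_distinct (M : Matrix (Fin n) (Fin n) ℂ) (d : Fin n → ℂ)
    (hinj : Function.Injective d) (hd : ∀ i, d i * d i.rev = 1)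
    (hdet : ∀ i, (M - Matrix.diagonal (fun _ => d i)).det = 0) : I2 M := by
  have h1 : ∀ i, ∃ v : Fin n → ℂ, v ≠ 0 ∧ M *ᵥ v = d i • v := by
    intro i
    obtain ⟨v, hv, h⟩ := Matrix.exists_mulVec_eq_zero_iff.mpr (hdet i)
    refine ⟨v, hv, ?_⟩
    rw [Matrix.sub_mulVec, sub_eq_zero] at h
    rw [h]
    ext k
    rw [Matrix.mulVec_diagonal]
    rfl
  choose v hv0 hv using h1
  have hli : LinearIndependent ℂ v := by
    apply Module.End.eigenvectors_linearIndependent' (Matrix.toLin' M) d hinj v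
    intro i
    rw [Module.End.hasEigenvector_iff]
    refine ⟨?_, hv0 i⟩
    rw [Module.End.mem_eigenspace_iff, Matrix.toLin'_apply]
    exact hv i
  refine (I2.diag d hd).conj (cols_unit v hli) ?_
  ext k j
  rw [Matrix.mul_apply, Matrix.mul_diagonal]
  simp only [Matrix.of_apply]
  have := congrFun (hv j) k
  rw [Pi.smul_apply, smul_eq_mul] at this
  rw [mul_comm, ← this]
  rfl

theorem I2.of_lower (M : Matrix (Fin n) (Fin n) ℂ) (hM : ∀ i j, i < j → M i j = 0)
    (hinj : Function.Injective fun i => M i i) (hd : ∀ i, M i i * M i.rev i.rev = 1) : I2 M := by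
  apply I2.of_distinct M (fun i => M i i) hinj hd
  intro i
  rw [Matrix.det_of_isLowerTriangular]
  · apply Finset.prod_eq_zero (Finset.mem_univ i)
    simp
  · intro a b hab
    have hab' : a < b := hab
    rw [Matrix.sub_apply, hM a b hab', Matrix.diagonal_apply_ne _ (ne_of_lt hab'), sub_zero]

theorem I2.of_upper (M : Matrix (Fin n) (Fin n) ℂ) (hM : ∀ i j, j < i → M i j = 0)
    (hinj : Function.Injective fun i => M i i) (hd : ∀ i, M i i * M i.rev i.rev = 1) : I2 M := by
  apply I2.of_distinct M (fun i => M i i) hinj hd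
  intro i
  rw [Matrix.det_of_isUpperTriangular]
  · apply Finset.prod_eq_zero (Finset.mem_univ i)
    simp
  · intro a b hab
    have hab' : b < a := hab
    rw [Matrix.sub_apply, hM a b hab', Matrix.diagonal_apply_ne _ (ne_of_gt hab'), sub_zero]

end RevLin

namespace RevLin

open Matrix RevMaps FormalMap

variable {n : ℕ}

theorem bb_inj : Function.Injective (bb n) := by
  intro i j hij
  have h := res_sym (Finsupp.single i 1) j (by rw [dpow_single, pow_one]; exact hij)
  by_contra hne
  have hne' : ¬ j = i := fun h => hne h.symm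
  have h1 := h i
  have h2 := h j
  simp only [Finsupp.single_apply, if_true, if_neg hne] at h1 h2
  have h3 : i = i.rev := by
    by_contra h4
    rw [if_neg h4] at h1
    omega
  have h5 : j = j.rev := by
    by_contra h4
    rw [if_neg h4] at h2
    omega
  have e1 := congrArg Fin.val h3
  have e2 := congrArg Fin.val h5
  rw [Fin.val_rev] at e1 e2
  exact hne (Fin.ext (by omega))

theorem bb_prod : ∏ i : Fin n, bb n i = 1 := by
  unfold bb
  rw [Finset.prod_div_distrib]
  have h1 : (∏ i : Fin n, (Nat.nth Nat.Prime i.rev : ℂ)) =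
      ∏ i : Fin n, (Nat.nth Nat.Prime i : ℂ) := by
    apply Fintype.prod_equiv Fin.revPerm
    intro i
    simp
  rw [h1, div_self]
  exact Finset.prod_ne_zero_iff.mpr (fun i _ => nthp_ne _)

theorem Bm_upper (i j : Fin n) (h : j < i) : Bm n i j = 0 := by
  rw [Bm_apply, if_neg (ne_of_gt h), if_neg]
  rw [Fin.lt_def] at h
  omega

theorem Bm_diag (i : Fin n) : Bm n i i = bb n i := by rw [Bm_apply, if_pos rfl]

theorem Bm_det : (Bm n).det = 1 := by
  rw [Matrix.det_of_isUpperTriangular (fun i j h => Bm_upper i j h)]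
  simp only [Bm_diag]
  exact bb_prod

theorem Bm_I2 : I2 (Bm n) := by
  apply I2.of_upper _ Bm_upper
  · have : (fun i => Bm n i i) = bb n := funext Bm_diag
    rw [this]
    exact bb_inj
  · intro i
    rw [Bm_diag, Bm_diag]
    exact bb_rev i

/-- the second involution of the cyclic shift -/
noncomputable def Sb (n : ℕ) (θ : ℂ) : Matrix (Fin n) (Fin n) ℂ := Matrix.of fun i j =>
  if (j : ℕ) = 0 then (if (i : ℕ) = 0 then θ else 0) else (if (i : ℕ) + j = n then 1 else 0)

theorem Sb_apply (θ : ℂ) (i j : Fin n) : Sb n θ i j =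
    if (j : ℕ) = 0 then (if (i : ℕ) = 0 then θ else 0) else (if (i : ℕ) + j = n then 1 else 0) := rfl

theorem Sb_mul_zero (θ : ℂ) (M : Matrix (Fin n) (Fin n) ℂ) (i j : Fin n) (hi : (i : ℕ) = 0) :
    (Sb n θ * M) i j = θ * M i j := by
  rw [Matrix.mul_apply, Finset.sum_eq_single i]
  · rw [Sb_apply, if_pos hi, if_pos hi]
  · intro k _ hk
    rw [Sb_apply, if_neg (by intro h; apply hk; apply Fin.ext; omega), if_neg (by omega), zero_mul]
  · simp

theorem Sb_mul_succ (θ : ℂ) (M : Matrix (Fin n) (Fin n) ℂ) (i j : Fin n) (hi : (i : ℕ) ≠ 0) :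
    (Sb n θ * M) i j = M ⟨n - i, by omega⟩ j := by
  rw [Matrix.mul_apply, Finset.sum_eq_single ⟨n - i, by omega⟩]
  · rw [Sb_apply, if_neg (by simp only; omega), if_pos (by simp only; omega), one_mul]
  · intro k _ hk
    by_cases h0 : (k : ℕ) = 0
    · rw [Sb_apply, if_pos h0, if_neg hi, zero_mul]
    · rw [Sb_apply, if_neg h0, if_neg, zero_mul]
      intro h
      apply hk
      apply Fin.ext
      simp only
      omega
  · simp

theorem Sb_sq (θ : ℂ) (hθ : θ * θ = 1) : Sb n θ * Sb n θ = 1 := by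
  ext i j
  by_cases hi : (i : ℕ) = 0
  · rw [Sb_mul_zero _ _ _ _ hi, Sb_apply, Matrix.one_apply]
    by_cases hj : (j : ℕ) = 0
    · rw [if_pos hj, if_pos hi, if_pos (Fin.ext (by omega)), hθ]
    · rw [if_neg hj, if_neg (by omega), if_neg (by intro h; rw [h] at hi; omega), mul_zero]
  · rw [Sb_mul_succ _ _ _ _ hi, Sb_apply, Matrix.one_apply]
    by_cases hj : (j : ℕ) = 0
    · rw [if_pos hj, if_neg (by simp only; omega), if_neg (by intro h; rw [h] at hi; omega)]
    · rw [if_neg hj]
      by_cases h : i = j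
      · rw [if_pos h, if_pos (by simp only [h]; omega)]
      · rw [if_neg h, if_neg]
        simp only
        intro h2
        apply h
        apply Fin.ext
        omega

theorem Sb_det (hn : 1 ≤ n) : (Sb n (-1)).det = - (Sb n 1).det := by
  set z : Fin n := ⟨0, by omega⟩ with hz
  have h : Sb n (-1) = Matrix.updateCol (Sb n 1) z ((-1 : ℂ) • fun i => Sb n 1 i z) := by
    ext i j
    by_cases hj : j = z
    · subst hj
      rw [Matrix.updateCol_self]
      simp only [Sb_apply, Pi.smul_apply, smul_eq_mul]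
      have hz0 : (z : ℕ) = 0 := rfl
      rw [if_pos hz0, if_pos hz0]
      by_cases hi : (i : ℕ) = 0
      · rw [if_pos hi, if_pos hi]; norm_num
      · rw [if_neg hi, if_neg hi]; norm_num
    · rw [Matrix.updateCol_ne hj, Sb_apply, Sb_apply]
      have : (j : ℕ) ≠ 0 := fun h => hj (Fin.ext h)
      rw [if_neg this, if_neg this]
  rw [h, Matrix.det_updateCol_smul]
  have h2 : Matrix.updateCol (Sb n 1) z (fun i => Sb n 1 i z) = Sb n 1 := by
    ext i j
    by_cases hj : j = z
    · subst hj; rw [Matrix.updateCol_self]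
    · rw [Matrix.updateCol_ne hj]
  rw [h2]
  ring

theorem sq_one_det {s : Matrix (Fin n) (Fin n) ℂ} (h : s * s = 1) : s.det = 1 ∨ s.det = -1 := by
  have h1 := congrArg Matrix.det h
  rw [Matrix.det_mul, Matrix.det_one] at h1
  exact mul_self_eq_one_iff.mp h1

/-- the shifted lower triangular matrix is Hessenberg -/
theorem shift_entry (θ : ℂ) (U : Matrix (Fin n) (Fin n) ℂ) (i j : Fin n) (hi : (i : ℕ) + 1 < n) :
    (Rv n * (Sb n θ * U)) i j = U ⟨i + 1, hi⟩ j := by
  rw [Rv_mul, Sb_mul_succ]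
  · congr 1
    apply Fin.ext
    simp only [Fin.val_rev]
    omega
  · rw [Fin.val_rev]; omega

/-- A Hessenberg matrix of determinant one is similar to a product `Bm * C`. -/
theorem hess (hn : 1 ≤ n) (L : Matrix (Fin n) (Fin n) ℂ) (hdet : L.det = 1)
    (h0 : ∀ i j : Fin n, (i : ℕ) + 1 < j → L i j = 0)
    (h1 : ∀ i j : Fin n, (i : ℕ) + 1 = j → L i j ≠ 0) :
    ∃ Q C : Matrix (Fin n) (Fin n) ℂ, IsUnit Q ∧ L * Q = Q * (Bm n * C) ∧
      (∀ i j, i < j → C i j = 0) ∧ (∀ i, C i i = bb n i) := by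
  classical
  -- the vectors
  let bx : ℕ → ℂ := fun m => if h : m < n then bb n ⟨m, h⟩ else 1
  have hbx : ∀ m, bx m ≠ 0 := by
    intro m
    simp only [bx]
    split_ifs
    · exact bb_ne_zero _
    · exact one_ne_zero
  let g : ℕ → (Fin n → ℂ) := fun m => Nat.rec (Pi.single ⟨n - 1, by omega⟩ 1)
    (fun m v => (bx (n - 1 - m))⁻¹ • (L *ᵥ v) - bx (n - 1 - m) • v) m
  have gs : ∀ m, g (m + 1) = (bx (n - 1 - m))⁻¹ • (L *ᵥ (g m)) - bx (n - 1 - m) • (g m) :=
    fun m => rfl
  have g0 : g 0 = Pi.single ⟨n - 1, by omega⟩ 1 := rfl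
  have hg : ∀ m, m ≤ n - 1 → (∀ j : Fin n, (j : ℕ) < n - 1 - m → g m j = 0) ∧
      (∀ j : Fin n, (j : ℕ) = n - 1 - m → g m j ≠ 0) := by
    intro m
    induction m with
    | zero =>
      intro _
      refine ⟨?_, ?_⟩
      · intro j hj
        rw [g0, Pi.single_eq_of_ne]
        intro h
        rw [h] at hj
        simp only at hj
        omega
      · intro j hj
        have : j = ⟨n - 1, by omega⟩ := Fin.ext (by simp only; omega)
        rw [g0, this, Pi.single_eq_same]
        exact one_ne_zero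
    | succ m ih =>
      intro hm
      obtain ⟨ih1, ih2⟩ := ih (by omega)
      have hzero : ∀ j : Fin n, (j : ℕ) < n - 1 - (m + 1) → (L *ᵥ (g m)) j = 0 := by
        intro j hj
        rw [Matrix.mulVec, dotProduct]
        apply Finset.sum_eq_zero
        intro i _
        by_cases hi : (i : ℕ) < n - 1 - m
        · rw [ih1 i hi, mul_zero]
        · rw [h0 j i (by omega), zero_mul]
      refine ⟨?_, ?_⟩
      · intro j hj
        rw [gs, Pi.sub_apply, Pi.smul_apply, Pi.smul_apply, hzero j hj, ih1 j (by omega)]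
        simp
      · intro j hj
        rw [gs, Pi.sub_apply, Pi.smul_apply, Pi.smul_apply, ih1 j (by omega), smul_zero, sub_zero]
        apply smul_ne_zero (inv_ne_zero (hbx _))
        rw [Matrix.mulVec, dotProduct, Finset.sum_eq_single ⟨n - 1 - m, by omega⟩]
        · exact mul_ne_zero (h1 _ _ (by simp only; omega)) (ih2 _ rfl)
        · intro i _ hi
          have hi' : (i : ℕ) ≠ n - 1 - m := fun h => hi (Fin.ext h)
          by_cases hi2 : (i : ℕ) < n - 1 - m
          · rw [ih1 i hi2, mul_zero]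
          · rw [h0 j i (by omega), zero_mul]
        · simp
  -- the matrix
  set Q : Matrix (Fin n) (Fin n) ℂ := Matrix.of fun i j => g (n - 1 - j) i with hQ
  have hQdet : Q.det ≠ 0 := by
    rw [Matrix.det_of_isLowerTriangular]
    · rw [Finset.prod_ne_zero_iff]
      intro i _
      exact (hg (n - 1 - i) (by omega)).2 i (by omega)
    · intro a b hab
      have hab' : a < b := hab
      rw [Fin.lt_def] at hab'
      exact (hg (n - 1 - b) (by omega)).1 a (by omega)
  have hQu : IsUnit Q.det := isUnit_iff_ne_zero.mpr hQdet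
  have hBu : IsUnit (Bm n).det := by rw [Bm_det]; exact isUnit_one
  set C := (Bm n)⁻¹ * (Q⁻¹ * (L * Q)) with hC
  have hLQ : L * Q = Q * (Bm n * C) := by
    rw [hC, ← mul_assoc (Bm n), Matrix.mul_nonsing_inv _ hBu, one_mul, ← mul_assoc Q,
      Matrix.mul_nonsing_inv _ hQu, one_mul]
  -- columns
  have hcol : ∀ (i j : Fin n), (0 : ℕ) < j → C i j = if i = j then bb n j else 0 := by
    intro i j hj
    -- L f_j = b_j (b_j f_j + f_{j-1})
    set j' : Fin n := ⟨(j : ℕ) - 1, by omega⟩ with hj'
    have e1 : ∀ k, (L * Q) k j = bb n j * (bb n j * Q k j + Q k j') := by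
      intro k
      have e2 : (L * Q) k j = (L *ᵥ (g (n - 1 - j))) k := rfl
      have e3 : Q k j' = g (n - 1 - j + 1) k := by
        have e : n - 1 - ((j : ℕ) - 1) = n - 1 - (j : ℕ) + 1 := by omega
        show g (n - 1 - ((j : ℕ) - 1)) k = g (n - 1 - (j : ℕ) + 1) k
        rw [e]
      have e4 : bx (n - 1 - (n - 1 - (j : ℕ))) = bb n j := by
        have : n - 1 - (n - 1 - (j : ℕ)) = j := by omega
        rw [this]
        simp only [bx]
        rw [dif_pos j.isLt]
      rw [e2, e3, gs, e4, Pi.sub_apply, Pi.smul_apply, Pi.smul_apply]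
      have hb := bb_ne_zero j
      have e5 : Q k j = g (n - 1 - j) k := rfl
      rw [e5]
      simp only [smul_eq_mul]
      field_simp
      ring
    -- hence column j of Bm * C
    have e6 : ∀ k, (Bm n * C) k j = bb n j * Bm n k j := by
      have e7 : Q *ᵥ (fun k => (Bm n * C) k j - bb n j * Bm n k j) = 0 := by
        ext k
        rw [Matrix.mulVec, dotProduct]
        simp only [mul_sub, Finset.sum_sub_distrib, Pi.zero_apply]
        have e8 : ∑ x, Q k x * (Bm n * C) x j = (L * Q) k j := by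
          rw [hLQ]; rfl
        rw [e8, e1 k]
        have e9 : ∑ x, Q k x * (bb n j * Bm n x j) = bb n j * (bb n j * Q k j + Q k j') := by
          have : ∑ x, Q k x * (bb n j * Bm n x j) = bb n j * ∑ x, Bm n x j * Q k x := by
            rw [Finset.mul_sum]
            apply Finset.sum_congr rfl
            intro x _
            ring
          rw [this, Bm_sum (fun x => Q k x) j]
          unfold Mop
          rw [dif_pos hj]
        rw [e9, sub_self]
      have e10 := Matrix.eq_zero_of_mulVec_eq_zero hQdet e7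
      intro k
      have := congrFun e10 k
      simp only [Pi.zero_apply] at this
      exact sub_eq_zero.mp this
    have e11 : Bm n *ᵥ (fun k => C k j - if k = j then bb n j else 0) = 0 := by
      ext k
      rw [Matrix.mulVec, dotProduct]
      simp only [mul_sub, Finset.sum_sub_distrib, Pi.zero_apply, mul_ite, mul_zero,
        Finset.sum_ite_eq', Finset.mem_univ, if_true]
      have e12 : ∑ x, Bm n k x * C x j = (Bm n * C) k j := rfl
      rw [e12, e6]
      ring
    have e13 := Matrix.eq_zero_of_mulVec_eq_zero (by rw [Bm_det]; exact one_ne_zero) e11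
    have := congrFun e13 i
    simp only [Pi.zero_apply] at this
    exact sub_eq_zero.mp this
  have hClow : ∀ i j, i < j → C i j = 0 := by
    intro i j hij
    rw [Fin.lt_def] at hij
    rw [hcol i j (by omega), if_neg]
    intro h
    rw [h] at hij
    exact lt_irrefl _ hij
  refine ⟨Q, C, (Matrix.isUnit_iff_isUnit_det Q).mpr hQu, hLQ, hClow, ?_⟩
  have hCdet : C.det = 1 := by
    have e1 := congrArg Matrix.det hLQ
    rw [Matrix.det_mul, Matrix.det_mul, Matrix.det_mul, hdet, Bm_det, one_mul, one_mul] at e1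
    have e2 : Q.det * (C.det - 1) = 0 := by rw [mul_sub, mul_one, ← e1, sub_self]
    exact sub_eq_zero.mp ((mul_eq_zero.mp e2).resolve_left hQdet)
  intro i
  by_cases hi : (0 : ℕ) < i
  · rw [hcol i i hi, if_pos rfl]
  · rw [Matrix.det_of_isLowerTriangular _ (fun a b hab => hClow a b hab)] at hCdet
    have hp := bb_prod (n := n)
    rw [← Finset.mul_prod_erase _ _ (Finset.mem_univ i)] at hCdet hp
    have e1 : ∏ x ∈ Finset.univ.erase i, C x x = ∏ x ∈ Finset.univ.erase i, bb n x := by
      apply Finset.prod_congr rfl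
      intro x hx
      have hxi := Finset.ne_of_mem_erase hx
      rw [hcol x x (by
        rcases Nat.eq_zero_or_pos (x : ℕ) with h | h
        · exact absurd (Fin.ext (by omega)) hxi
        · exact h), if_pos rfl]
    rw [e1] at hCdet
    have e2 : ∏ x ∈ Finset.univ.erase i, bb n x ≠ 0 :=
      Finset.prod_ne_zero_iff.mpr (fun x _ => bb_ne_zero x)
    exact mul_right_cancel₀ e2 (hCdet.trans hp.symm)

/-- The linear algebra behind the main theorem. -/
theorem decomp (hn : 1 ≤ n) (L : Matrix (Fin n) (Fin n) ℂ) (hL : L.det = 1 ∨ L.det = -1) :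
    ∃ Q E C : Matrix (Fin n) (Fin n) ℂ, IsUnit Q ∧ L * Q = Q * (E * (Bm n * C)) ∧ I2 E ∧
      (∀ i j, i < j → C i j = 0) ∧ (∀ i, C i i = bb n i) := by
  obtain ⟨P, U, hP, hLP, hU⟩ := triang L
  have hPd : IsUnit P.det := (Matrix.isUnit_iff_isUnit_det P).mp hP
  have hUdet : U.det = L.det := by
    have := congrArg Matrix.det hLP
    rw [Matrix.det_mul, Matrix.det_mul, mul_comm] at this
    exact (mul_left_cancel₀ hPd.ne_zero this).symm
  have hUne : U.det ≠ 0 := by
    rw [hUdet]
    rcases hL with h | h <;> rw [h] <;> norm_num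
  have hUd : ∀ i, U i i ≠ 0 := by
    rw [Matrix.det_of_isLowerTriangular _ (fun a b hab => hU a b hab)] at hUne
    intro i
    exact Finset.prod_ne_zero_iff.mp hUne i (Finset.mem_univ i)
  -- choose the sign
  obtain ⟨θ, hθ, hθdet⟩ : ∃ θ : ℂ, θ * θ = 1 ∧ (Rv n * (Sb n θ * U)).det = 1 := by
    have h1 := sq_one_det (Rv_sq (n := n))
    have h2 := sq_one_det (Sb_sq (n := n) 1 (by norm_num))
    have h3 := Sb_det hn
    simp only [Matrix.det_mul]
    by_cases h : (Rv n).det * ((Sb n 1).det * U.det) = 1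
    · exact ⟨1, by norm_num, h⟩
    · refine ⟨-1, by norm_num, ?_⟩
      rw [h3, hUdet]
      rw [hUdet] at h
      rcases h1 with h1 | h1 <;> rcases h2 with h2 | h2 <;> rcases hL with h4 | h4 <;>
        rw [h1, h2, h4] at h <;> rw [h1, h2, h4] <;>
        first
          | (exfalso; norm_num at h; done)
          | norm_num
  obtain ⟨Q, C, hQ, hQC, hC1, hC2⟩ := hess hn (Rv n * (Sb n θ * U)) hθdet (by
    intro i j hij
    rw [shift_entry θ U i j (by omega)]
    apply hU
    rw [Fin.lt_def]
    exact hij) (by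
    intro i j hij
    rw [shift_entry θ U i j (by omega)]
    have : (⟨(i : ℕ) + 1, by omega⟩ : Fin n) = j := Fin.ext hij
    rw [this]
    exact hUd j)
  have hQd : IsUnit Q.det := (Matrix.isUnit_iff_isUnit_det Q).mp hQ
  have hI : I2 (Sb n θ * Rv n) := ⟨Sb n θ, Rv n, Sb_sq θ hθ, Rv_sq, rfl⟩
  refine ⟨P * Q, Q⁻¹ * (Sb n θ * Rv n) * Q, C, ?_, ?_, ?_, hC1, hC2⟩
  · rw [Matrix.isUnit_iff_isUnit_det, Matrix.det_mul]
    exact hPd.mul hQd
  · have e1 : Sb n θ * Rv n * (Rv n * (Sb n θ * U)) = U := by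
      calc Sb n θ * Rv n * (Rv n * (Sb n θ * U)) = Sb n θ * (Rv n * Rv n) * Sb n θ * U := by
            simp only [mul_assoc]
        _ = (Sb n θ * Sb n θ) * U := by rw [Rv_sq, mul_one]
        _ = U := by rw [Sb_sq θ hθ, one_mul]
    have e2 : Q * Q⁻¹ = 1 := Matrix.mul_nonsing_inv Q hQd
    calc L * (P * Q) = P * U * Q := by rw [← mul_assoc, hLP]
      _ = P * ((Sb n θ * Rv n) * ((Rv n * (Sb n θ * U)) * Q)) := by
          rw [← mul_assoc (Sb n θ * Rv n), e1]
          simp only [mul_assoc]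
      _ = P * ((Sb n θ * Rv n) * (Q * (Bm n * C))) := by rw [hQC]
      _ = P * ((Q * Q⁻¹) * (Sb n θ * Rv n) * (Q * (Bm n * C))) := by
          rw [e2, one_mul]
      _ = P * Q * (Q⁻¹ * (Sb n θ * Rv n) * Q * (Bm n * C)) := by simp only [mul_assoc]
  · apply hI.conj (Q := Q⁻¹)
    · rw [Matrix.isUnit_iff_isUnit_det]
      exact Matrix.isUnit_nonsing_inv_det Q hQd
    · rw [mul_assoc (Q⁻¹ * (Sb n θ * Rv n)), Matrix.mul_nonsing_inv Q hQd, mul_one]

end RevLin

namespace FormalMap

open RevMaps RevLin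

variable {n : ℕ}

/-- The set `I` of involutions of `𝒢_n` (the identity counts as an involution). -/
def Invol (n : ℕ) : Set (FormalMap n) := {f | f * f = 1}

/-- The set `R` of reversible elements of `𝒢_n`. -/
def Rever (n : ℕ) : Set (FormalMap n) := {f | ∃ h : FormalMap n, h * f * h⁻¹ = f⁻¹}

/-- `S^j`: the set of compositions `s_1 ∘ ⋯ ∘ s_j` with all `s_i ∈ S`. -/
def Prods (S : Set (FormalMap n)) (j : ℕ) : Set (FormalMap n) :=
  {f | ∃ s : Fin j → FormalMap n, (∀ i, s i ∈ S) ∧ (List.ofFn s).prod = f}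

/-- `R^∞ = ⋃_{m ≥ 1} R^m`. -/
def RevGen (n : ℕ) : Set (FormalMap n) := ⋃ m ≥ 1, Prods (Rever n) m

/-- `k(n)`: the least `k ≥ 1` with `I^k = R^∞`. -/
noncomputable def kNum (n : ℕ) : ℕ := sInf {k : ℕ | 1 ≤ k ∧ Prods (Invol n) k = RevGen n}

/-- `m(n)`: the least `m ≥ 1` with `R^m = R^∞`. -/
noncomputable def mNum (n : ℕ) : ℕ := sInf {m : ℕ | 1 ≤ m ∧ Prods (Rever n) m = RevGen n}

theorem mem_RevGen {f : FormalMap n} : f ∈ RevGen n ↔ ∃ m, 1 ≤ m ∧ f ∈ Prods (Rever n) m := by
  simp [RevGen]

theorem rever_of_invol {f : FormalMap n} (h : f ∈ Invol n) : f ∈ Rever n := by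
  refine ⟨1, ?_⟩
  rw [one_mul, inv_one, mul_one]
  exact eq_inv_of_mul_eq_one_left h

theorem rever_of_two {s t : FormalMap n} (hs : s ∈ Invol n) (ht : t ∈ Invol n) :
    s * t ∈ Rever n := by
  refine ⟨s, ?_⟩
  have hs' : s * s = 1 := hs
  have ht' : t * t = 1 := ht
  have h1 : s⁻¹ = s := inv_eq_of_mul_eq_one_left hs'
  have h2 : t⁻¹ = t := inv_eq_of_mul_eq_one_left ht'
  rw [mul_inv_rev, h1, h2, ← mul_assoc, hs', one_mul]

theorem det_rever {f : FormalMap n} (h : f ∈ Rever n) : f.lin.det = 1 ∨ f.lin.det = -1 := by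
  obtain ⟨g, hg⟩ := h
  have h1 := congrArg (fun x : FormalMap n => x.lin.det) hg
  simp only [lin_mul, Matrix.det_mul] at h1
  have h2 : (g⁻¹).lin.det * g.lin.det = 1 := by
    rw [← Matrix.det_mul, lin_inv_mul, Matrix.det_one]
  have h3 : (f⁻¹).lin.det * f.lin.det = 1 := by
    rw [← Matrix.det_mul, lin_inv_mul, Matrix.det_one]
  apply mul_self_eq_one_iff.mp
  calc f.lin.det * f.lin.det = (g.lin.det * f.lin.det * (g⁻¹).lin.det) * f.lin.det := by
        linear_combination (-(f.lin.det * f.lin.det)) * h2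
    _ = 1 := by rw [h1, h3]

theorem det_prods (S : Set (FormalMap n)) (hS : ∀ f ∈ S, f.lin.det = 1 ∨ f.lin.det = -1) (m : ℕ)
    (f : FormalMap n) (hf : f ∈ Prods S m) : f.lin.det = 1 ∨ f.lin.det = -1 := by
  obtain ⟨s, hs, rfl⟩ := hf
  induction m with
  | zero =>
    left
    simp only [List.ofFn_zero, List.prod_nil, lin_one, Matrix.det_one]
  | succ m ih =>
    rw [List.ofFn_succ, List.prod_cons, lin_mul, Matrix.det_mul]
    rcases hS _ (hs 0) with h1 | h1 <;> rcases ih (fun i => s i.succ) (fun i => hs i.succ) with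
      h2 | h2 <;> rw [h1, h2] <;> norm_num

theorem Ad_inv {k : ℕ} (φ : T n →ₗ[ℂ] ℂ) {s t : Matrix (Fin n) (Fin n) ℂ}
    (hs : ∀ v ∈ TJ n k, φ (Ad s v) = φ v) (ht : ∀ v ∈ TJ n k, φ (Ad t v) = φ v) :
    ∀ v ∈ TJ n k, φ (Ad (s * t) v) = φ v := by
  intro v hv
  rw [← Ad_Ad, hs _ (Ad_mem t hv), ht v hv]

/-- Every formal map with linear part of determinant `±1` is a product of six involutions. -/
theorem six (hn : 2 ≤ n) (F : FormalMap n) (hF : F.lin.det = 1 ∨ F.lin.det = -1) :
    F ∈ Prods (Invol n) 6 := by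
  obtain ⟨Q, E, C, hQ, hLQ, hE, hC1, hC2⟩ := decomp (by omega) F.lin hF
  have hQd : IsUnit Q.det := (Matrix.isUnit_iff_isUnit_det Q).mp hQ
  obtain ⟨s1, s2, h1, h2, h12⟩ := hE
  obtain ⟨s3, s4, h3, h4, h34⟩ := Bm_I2 (n := n)
  have hC : I2 C := by
    apply I2.of_lower C hC1
    · have : (fun i => C i i) = bb n := funext hC2
      rw [this]
      exact bb_inj
    · intro i
      rw [hC2, hC2]
      exact bb_rev i
  have hCdet : C.det ≠ 0 := by
    rw [Matrix.det_of_isLowerTriangular _ (fun a b hab => hC1 a b hab)]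
    exact Finset.prod_ne_zero_iff.mpr (fun i _ => by rw [hC2]; exact bb_ne_zero i)
  obtain ⟨s5, s6, h5, h6, h56⟩ := hC
  set g := ofMat Q hQd.ne_zero with hg
  have hglin : g.lin = Q := lin_ofMat _ _
  set F' := g⁻¹ * F * g with hF'
  have hlin : F'.lin = E * (Bm n * C) := by
    rw [hF', lin_mul, lin_mul, lin_inv, hglin, mul_assoc, hLQ, ← mul_assoc,
      Matrix.nonsing_inv_mul _ hQd, one_mul]
  let S : Fin 6 → Matrix (Fin n) (Fin n) ℂ := ![s1, s2, s3, s4, s5, s6]
  have hSl : List.ofFn S = [s1, s2, s3, s4, s5, s6] := by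
    simp [S, List.ofFn_succ]
  obtain ⟨τ, hτ1, hτ2⟩ := key F' S (by
    intro i
    fin_cases i
    · exact h1
    · exact h2
    · exact h3
    · exact h4
    · exact h5
    · exact h6) (by
    rw [hSl, hlin, ← h12, ← h34, ← h56]
    simp [mul_assoc]) (by
    intro k hk φ hφ hinv
    rw [hSl] at hinv
    have i3 := hinv s3 (by simp)
    have i4 := hinv s4 (by simp)
    have i5 := hinv s5 (by simp)
    have i6 := hinv s6 (by simp)
    have iB := Ad_inv φ i3 i4
    have iC := Ad_inv φ i5 i6
    rw [h34] at iB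
    rw [h56] at iC
    exact nocov_BC hn k hk C (by rw [Bm_det]; exact one_ne_zero) hCdet hC1 hC2 φ hφ iB iC)
  refine ⟨fun i => g * τ i * g⁻¹, ?_, ?_⟩
  · intro i
    show g * τ i * g⁻¹ * (g * τ i * g⁻¹) = 1
    calc g * τ i * g⁻¹ * (g * τ i * g⁻¹) = g * (τ i * τ i) * g⁻¹ := by group
      _ = 1 := by rw [hτ1]; group
  · have key2 : ∀ (m : ℕ) (σ : Fin m → FormalMap n),
        (List.ofFn fun i => g * σ i * g⁻¹).prod = g * (List.ofFn σ).prod * g⁻¹ := by
      intro m
      induction m with
      | zero => intro σ; simp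
      | succ m ih =>
        intro σ
        rw [List.ofFn_succ, List.ofFn_succ, List.prod_cons, List.prod_cons,
          ih (fun i => σ i.succ)]
        group
    rw [key2, hτ2, hF']
    group

theorem three_of_six {f : FormalMap n} (h : f ∈ Prods (Invol n) 6) : f ∈ Prods (Rever n) 3 := by
  obtain ⟨s, hs, rfl⟩ := h
  refine ⟨![s 0 * s 1, s 2 * s 3, s 4 * s 5], ?_, ?_⟩
  · intro i
    fin_cases i
    · exact rever_of_two (hs 0) (hs 1)
    · exact rever_of_two (hs 2) (hs 3)
    · exact rever_of_two (hs 4) (hs 5)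
  · simp [List.ofFn_succ, mul_assoc]

theorem RevGen_eq (hn : 2 ≤ n) : RevGen n = {f | f.lin.det = 1 ∨ f.lin.det = -1} := by
  ext f
  rw [mem_RevGen]
  constructor
  · rintro ⟨m, _, hm⟩
    exact det_prods _ (fun f hf => det_rever hf) m f hm
  · intro h
    exact ⟨3, by norm_num, three_of_six (six hn f h)⟩

theorem Rever3 (hn : 2 ≤ n) : Prods (Rever n) 3 = RevGen n := by
  apply Set.Subset.antisymm
  · intro f hf
    exact mem_RevGen.mpr ⟨3, by norm_num, hf⟩
  · intro f hf
    rw [RevGen_eq hn] at hf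
    exact three_of_six (six hn f hf)

theorem Invol6 (hn : 2 ≤ n) : Prods (Invol n) 6 = RevGen n := by
  apply Set.Subset.antisymm
  · intro f hf
    rw [RevGen_eq hn]
    exact det_prods _ (fun f hf => det_rever (rever_of_invol hf)) 6 f hf
  · intro f hf
    rw [RevGen_eq hn] at hf
    exact six hn f hf

/-- the diagonal matrix `(2, -1/2, 1, …, 1)` -/
noncomputable def dd (n : ℕ) (i : Fin n) : ℂ :=
  if (i : ℕ) = 0 then 2 else if (i : ℕ) = 1 then -1 / 2 else 1

theorem not_rever (hn : 2 ≤ n) : ∃ f : FormalMap n, f ∈ RevGen n ∧ f ∉ Rever n := by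
  obtain ⟨m, rfl⟩ : ∃ m, n = m + 2 := ⟨n - 2, by omega⟩
  have hdet : (Matrix.diagonal (dd (m + 2))).det = -1 := by
    rw [Matrix.det_diagonal, Fin.prod_univ_succ, Fin.prod_univ_succ]
    have h : ∏ i : Fin m, dd (m + 2) i.succ.succ = 1 := by
      apply Finset.prod_eq_one
      intro i _
      simp [dd]
    rw [h]
    simp [dd]
    norm_num
  have hne : (Matrix.diagonal (dd (m + 2))).det ≠ 0 := by rw [hdet]; norm_num
  refine ⟨ofMat _ hne, ?_, ?_⟩
  · rw [RevGen_eq hn]
    right
    rw [lin_ofMat]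
    exact hdet
  · rintro ⟨h, hh⟩
    have h1 := congrArg lin hh
    rw [lin_mul, lin_mul, lin_ofMat] at h1
    have h2 := congrArg Matrix.trace h1
    rw [Matrix.trace_mul_comm, ← mul_assoc, lin_inv_mul, one_mul] at h2
    have h3 : ((ofMat _ hne)⁻¹ : FormalMap (m + 2)).lin =
        Matrix.diagonal (fun i => (dd (m + 2) i)⁻¹) := by
      rw [lin_inv, lin_ofMat]
      apply Matrix.inv_eq_right_inv
      rw [Matrix.diagonal_mul_diagonal]
      have : (fun i => dd (m + 2) i * (dd (m + 2) i)⁻¹) = 1 := by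
        funext i
        apply mul_inv_cancel₀
        unfold dd
        split_ifs <;> norm_num
      rw [this]
      exact Matrix.diagonal_one
    rw [h3, Matrix.trace_diagonal, Matrix.trace_diagonal, Fin.sum_univ_succ, Fin.sum_univ_succ,
      Fin.sum_univ_succ, Fin.sum_univ_succ] at h2
    have h4 : ∑ i : Fin m, dd (m + 2) i.succ.succ = ∑ i : Fin m, (dd (m + 2) i.succ.succ)⁻¹ := by
      apply Finset.sum_congr rfl
      intro i _
      simp [dd]
    rw [h4] at h2
    have e0 : dd (m + 2) 0 = 2 := by simp [dd]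
    have e1 : dd (m + 2) (Fin.succ 0) = -1 / 2 := by simp [dd]
    rw [e0, e1] at h2
    have h5 : (2 : ℂ) + -1 / 2 = 2⁻¹ + (-1 / 2)⁻¹ := by linear_combination h2
    norm_num at h5

theorem not_three (hn : 3 ≤ n) : ∃ f : FormalMap n, f ∈ RevGen n ∧ f ∉ Prods (Invol n) 3 := by
  set α : ℂ := Complex.exp (Real.pi * Complex.I / n) with hα
  have hn0 : (n : ℂ) ≠ 0 := by
    have : n ≠ 0 := by omega
    exact_mod_cast this
  have hdet : (Matrix.diagonal (fun _ : Fin n => α)).det = -1 := by
    rw [Matrix.det_diagonal, Finset.prod_const, Finset.card_univ, Fintype.card_fin, hα,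
      ← Complex.exp_nat_mul]
    rw [mul_div_cancel₀ _ hn0, Complex.exp_pi_mul_I]
  have hne : (Matrix.diagonal (fun _ : Fin n => α)).det ≠ 0 := by rw [hdet]; norm_num
  have hα0 : α ≠ 0 := Complex.exp_ne_zero _
  refine ⟨ofMat _ hne, ?_, ?_⟩
  · rw [RevGen_eq (by omega)]
    right
    rw [lin_ofMat]
    exact hdet
  · rintro ⟨s, hs, hprod⟩
    have h1 := congrArg lin hprod
    simp only [List.ofFn_succ, List.ofFn_zero, List.prod_cons, List.prod_nil, mul_one, lin_mul,
      lin_ofMat] at h1
    have hsq : ∀ i, (s i).lin * (s i).lin = 1 := by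
      intro i
      rw [← lin_mul]
      have : s i * s i = 1 := hs i
      rw [this, lin_one]
    set a := (s 0).lin with ha
    set b := (s (Fin.succ 0)).lin with hb
    set c := (s (Fin.succ (Fin.succ 0))).lin with hc
    have ha2 : a * a = 1 := hsq 0
    have hb2 : b * b = 1 := hsq _
    have hc2 : c * c = 1 := hsq _
    have hdiag : Matrix.diagonal (fun _ : Fin n => α) = α • (1 : Matrix (Fin n) (Fin n) ℂ) := by
      rw [Matrix.smul_one_eq_diagonal]
    have h2 : a * b = α • c := by
      have h3 : a * (b * c) = α • (1 : Matrix (Fin n) (Fin n) ℂ) := by rw [← hdiag]; exact h1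
      calc a * b = a * (b * c) * c := by rw [mul_assoc, mul_assoc, hc2, mul_one]
        _ = α • c := by rw [h3, smul_mul_assoc, one_mul]
    -- b a = α⁻¹ c
    have h4 : (a * b) * (b * a) = 1 := by
      calc (a * b) * (b * a) = a * (b * b) * a := by simp only [mul_assoc]
        _ = 1 := by rw [hb2, mul_one, ha2]
    have h5 : b * a = α⁻¹ • c := by
      rw [h2, smul_mul_assoc] at h4
      have h6 : c * (b * a) = α⁻¹ • (1 : Matrix (Fin n) (Fin n) ℂ) := by
        rw [← h4, smul_smul, inv_mul_cancel₀ hα0, one_smul]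
      calc b * a = c * (c * (b * a)) := by rw [← mul_assoc, hc2, one_mul]
        _ = α⁻¹ • c := by rw [h6, mul_smul_comm, mul_one]
    -- a (a b) a = b a
    have h7 : a * (α • c) * a = α⁻¹ • c := by
      rw [← h2, ← mul_assoc, ha2, one_mul, h5]
    have h8 : a * c * a = (α⁻¹ * α⁻¹) • c := by
      have : a * (α • c) * a = α • (a * c * a) := by rw [mul_smul_comm, smul_mul_assoc]
      rw [this] at h7
      rw [← smul_smul, ← h7, smul_smul, inv_mul_cancel₀ hα0, one_smul]
    have h9 : c = (α⁻¹ * α⁻¹ * (α⁻¹ * α⁻¹)) • c := by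
      calc c = a * (a * c * a) * a := by
            have : a * (a * c * a) * a = (a * a) * c * (a * a) := by simp only [mul_assoc]
            rw [this, ha2, one_mul, mul_one]
        _ = (α⁻¹ * α⁻¹) • (a * c * a) := by rw [h8, mul_smul_comm, smul_mul_assoc, h8]
        _ = _ := by rw [h8, smul_smul]
    have h10 : (1 : Matrix (Fin n) (Fin n) ℂ) =
        (α⁻¹ * α⁻¹ * (α⁻¹ * α⁻¹)) • (1 : Matrix (Fin n) (Fin n) ℂ) := by
      calc (1 : Matrix (Fin n) (Fin n) ℂ) = c * c := hc2.symm
        _ = ((α⁻¹ * α⁻¹ * (α⁻¹ * α⁻¹)) • c) * c := by rw [← h9]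
        _ = _ := by rw [smul_mul_assoc, hc2]
    have h11 : (1 : ℂ) = α⁻¹ * α⁻¹ * (α⁻¹ * α⁻¹) := by
      have := congrFun (congrFun h10 ⟨0, by omega⟩) ⟨0, by omega⟩
      simpa using this
    have h12 : α ^ 4 = 1 := by
      have : α ^ 4 * (α⁻¹ * α⁻¹ * (α⁻¹ * α⁻¹)) = 1 := by field_simp
      rw [← h11, mul_one] at this
      exact this
    rw [hα, ← Complex.exp_nat_mul, Complex.exp_eq_one_iff] at h12
    obtain ⟨m, hm⟩ := h12
    have hpi : (Real.pi : ℂ) * Complex.I ≠ 0 :=
      mul_ne_zero (by exact_mod_cast Real.pi_ne_zero) Complex.I_ne_zero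
    have h13 : (2 : ℂ) = m * n := by
      have e : ((4 : ℕ) : ℂ) * (Real.pi * Complex.I / n) * n = m * (2 * Real.pi * Complex.I) * n := by
        rw [hm]
      have e2 : (Real.pi * Complex.I : ℂ) * 2 = (Real.pi * Complex.I) * (m * n) := by
        have e3 : ((4 : ℕ) : ℂ) * (Real.pi * Complex.I / n) * n = 4 * (Real.pi * Complex.I) := by
          push_cast
          field_simp
        rw [e3] at e
        linear_combination e / 2
      exact mul_left_cancel₀ hpi e2
    have h14 : (2 : ℤ) = m * n := by exact_mod_cast h13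
    have h15 : (n : ℤ) ∣ 2 := ⟨m, by rw [h14]; ring⟩
    have h16 := Int.le_of_dvd (by norm_num) h15
    omega

theorem one_mem_Invol : (1 : FormalMap n) ∈ Invol n := mul_one 1

theorem Invol_mono (k : ℕ) : Prods (Invol n) k ⊆ Prods (Invol n) (k + 1) := by
  rintro f ⟨s, hs, rfl⟩
  refine ⟨Fin.cons 1 s, ?_, ?_⟩
  · intro i
    refine Fin.cases ?_ ?_ i
    · exact one_mem_Invol
    · exact hs
  · rw [List.ofFn_succ, List.prod_cons]
    simp

theorem mNum_bounds (hn : 2 ≤ n) : mNum n = 2 ∨ mNum n = 3 := by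
  have h3 : 3 ∈ {m : ℕ | 1 ≤ m ∧ Prods (Rever n) m = RevGen n} := ⟨by norm_num, Rever3 hn⟩
  have hle : mNum n ≤ 3 := Nat.sInf_le h3
  obtain ⟨h1, h2⟩ := Nat.sInf_mem (⟨3, h3⟩ : Set.Nonempty _)
  have hne : mNum n ≠ 1 := by
    intro h
    have h2' : Prods (Rever n) (mNum n) = RevGen n := h2
    rw [h] at h2'
    obtain ⟨f, hf1, hf2⟩ := not_rever hn
    rw [← h2'] at hf1
    obtain ⟨s, hs, rfl⟩ := hf1
    apply hf2
    have : (List.ofFn s).prod = s 0 := by simp [List.ofFn_succ]
    rw [this]
    exact hs 0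
  have h1' : 1 ≤ mNum n := h1
  omega

theorem kNum_bounds (hn : 2 ≤ n) : 3 ≤ kNum n ∧ kNum n ≤ 6 := by
  have h6 : 6 ∈ {k : ℕ | 1 ≤ k ∧ Prods (Invol n) k = RevGen n} := ⟨by norm_num, Invol6 hn⟩
  have hle : kNum n ≤ 6 := Nat.sInf_le h6
  obtain ⟨h1, h2⟩ := Nat.sInf_mem (⟨6, h6⟩ : Set.Nonempty _)
  have h2' : Prods (Invol n) (kNum n) = RevGen n := h2
  have h1' : 1 ≤ kNum n := h1
  refine ⟨?_, hle⟩
  by_contra hcon
  have h3 : RevGen n ⊆ Prods (Invol n) 2 := by
    rw [← h2']
    have : kNum n = 1 ∨ kNum n = 2 := by omega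
    rcases this with h | h
    · rw [h]; exact Invol_mono 1
    · rw [h]
  obtain ⟨f, hf1, hf2⟩ := not_rever hn
  obtain ⟨s, hs, rfl⟩ := h3 hf1
  apply hf2
  have : (List.ofFn s).prod = s 0 * s 1 := by simp [List.ofFn_succ]
  rw [this]
  exact rever_of_two (hs 0) (hs 1)

theorem kNum_lower (hn : 3 ≤ n) : 4 ≤ kNum n := by
  have h6 : 6 ∈ {k : ℕ | 1 ≤ k ∧ Prods (Invol n) k = RevGen n} :=
    ⟨by norm_num, Invol6 (by omega)⟩
  obtain ⟨h1, h2⟩ := Nat.sInf_mem (⟨6, h6⟩ : Set.Nonempty _)
  have h2' : Prods (Invol n) (kNum n) = RevGen n := h2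
  have h1' : 1 ≤ kNum n := h1
  by_contra hcon
  have h3 : RevGen n ⊆ Prods (Invol n) 3 := by
    rw [← h2']
    have : kNum n = 1 ∨ kNum n = 2 ∨ kNum n = 3 := by omega
    rcases this with h | h | h
    · rw [h]; exact (Invol_mono 1).trans (Invol_mono 2)
    · rw [h]; exact Invol_mono 2
    · rw [h]
  obtain ⟨f, hf1, hf2⟩ := not_three hn
  exact hf2 (h3 hf1)

end FormalMap

open FormalMap in
/-- For every `n ≥ 2`: `R^∞` is the group of formal maps with linear part of determinant `±1`,
it equals `R^3` and `I^6`, so that `m(n) ∈ {2, 3}` and `k(n) ∈ {3, 4, 5, 6}`; moreover `k(n) ≥ 4`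
for `n ≥ 3`. -/
theorem result (n : ℕ) (hn : 2 ≤ n) :
    RevGen n = {f | f.lin.det = 1 ∨ f.lin.det = -1} ∧
    Prods (Rever n) 3 = RevGen n ∧ Prods (Invol n) 6 = RevGen n ∧
    (mNum n = 2 ∨ mNum n = 3) ∧
    (3 ≤ kNum n ∧ kNum n ≤ 6) ∧ (3 ≤ n → 4 ≤ kNum n) :=
  ⟨RevGen_eq hn, Rever3 hn, Invol6 hn, mNum_bounds hn, kNum_bounds hn, kNum_lower⟩

end Pool.Agent.Results.MP_2a1f98_al.ThreeReversibles
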